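import Mathlib
import Pool.Agent.H242R3.ES.StmtsG

set_option autoImplicit false

open scoped Classical

namespace Pool.Agent.H856R3.ESG2

open Pool.Agent.H242R3.ES

/-- a functional vanishing on a face vanishes on its span -/
theorem zero_of_mem_span {ι E : Type} [AddCommGroup E] [Module ℝ E] (V : ι → E) (S : Set ι)
    (l : E →ₗ[ℝ] ℝ) (h : ∀ i ∈ S, l (V i) = 0) {x : E} (hx : x ∈ Submodule.span ℝ (V '' S)) :
    l x = 0 := by
  have hle : Submodule.span ℝ (V '' S) ≤ LinearMap.ker l := by
    rw [Submodule.span_le]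
    rintro _ ⟨i, hi, rfl⟩
    exact h i hi
  exact hle hx

/-- a face is determined by its span -/
theorem mem_iff_mem_span {ι E : Type} [AddCommGroup E] [Module ℝ E] (V : ι → E) (S : Set ι)
    (hS : Face V S) (i : ι) : i ∈ S ↔ V i ∈ Submodule.span ℝ (V '' S) := by
  obtain ⟨l, _, h⟩ := hS
  constructor
  · intro hi
    exact Submodule.subset_span ⟨i, hi, rfl⟩
  · intro hi
    exact (h i).2 (zero_of_mem_span V S l (fun j hj => (h j).1 hj) hi)

/-- intersections of faces are faces -/
theorem inter {ι E : Type} [AddCommGroup E] [Module ℝ E] (V : ι → E) (S T : Set ι)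
    (hS : Face V S) (hT : Face V T) : Face V (S ∩ T) := by
  obtain ⟨l, hl, h⟩ := hS
  obtain ⟨l', hl', h'⟩ := hT
  refine ⟨l + l', fun i => ?_, fun i => ?_⟩
  · rw [LinearMap.add_apply]
    exact add_nonneg (hl i) (hl' i)
  · rw [LinearMap.add_apply, add_eq_zero_iff_of_nonneg (hl i) (hl' i), Set.mem_inter_iff, h i, h' i]

/-- strict monotonicity of the rank (the larger set need not be a face) -/
theorem rk_lt {ι E : Type} [AddCommGroup E] [Module ℝ E] [FiniteDimensional ℝ E]
    (V : ι → E) (S T : Set ι) (hS : Face V S) (hST : S ⊂ T) : rk V S < rk V T := by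
  obtain ⟨hsub, hne⟩ := hST
  obtain ⟨i, hiT, hiS⟩ := Set.not_subset.1 hne
  apply Submodule.finrank_lt_finrank_of_lt
  refine lt_of_le_of_ne (Submodule.span_mono (Set.image_mono hsub)) ?_
  intro heq
  apply hiS
  rw [mem_iff_mem_span V S hS i, heq]
  exact Submodule.subset_span ⟨i, hiT, rfl⟩

/-- the rank is monotone -/
theorem rk_le {ι E : Type} [AddCommGroup E] [Module ℝ E] [FiniteDimensional ℝ E]
    (V : ι → E) {S T : Set ι} (hST : S ⊆ T) : rk V S ≤ rk V T :=
  Submodule.finrank_mono (Submodule.span_mono (Set.image_mono hST))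

theorem t : TaskG2 := by
  intro ι E _ _ _ _ V S T hS hT
  exact ⟨inter V S T hS hT, rk_lt V S T hS, mem_iff_mem_span V S hS⟩

end Pool.Agent.H856R3.ESG2
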