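import Mathlib

set_option autoImplicit false

/-!
Asymptotic dimension of classes closed under subgraphs: basic definitions.
-/

namespace Pool.Agent.H856R3

/-- The control condition for one graph. -/
def AD {W : Type} (G : SimpleGraph W) (d : ℕ) (f : ℕ → ℕ) : Prop :=
  ∀ r : ℕ, ∃ c : W → Fin (d + 1), ∀ u v : W,
    Relation.ReflTransGen (fun a b => c a = c b ∧ G.edist a b ≤ (r : ℕ∞)) u v →
      G.edist u v ≤ (f r : ℕ∞)

/-- The control condition for all spanning subgraphs. -/
def SAD {V : Type} (M : SimpleGraph V) (d : ℕ) (f : ℕ → ℕ) : Prop :=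
  ∀ G : SimpleGraph V, G ≤ M → AD G d f

section cls

variable {V : Type} (G : SimpleGraph V) {D : ℕ} (c : V → Fin D) (r : ℕ)

/-- Same monochromatic `r`-component. -/
def clsR : V → V → Prop :=
  Relation.ReflTransGen (fun a b => c a = c b ∧ G.edist a b ≤ (r : ℕ∞))

theorem cls_symm {x y : V} (h : clsR G c r x y) : clsR G c r y x := by
  have hs : Std.Symm (fun a b => c a = c b ∧ G.edist a b ≤ (r : ℕ∞)) := by
    constructor
    intro a b hab
    exact ⟨hab.1.symm, by rw [SimpleGraph.edist_comm]; exact hab.2⟩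
  exact (Relation.ReflTransGen.stdSymm (r := (fun a b => c a = c b ∧ G.edist a b ≤ (r : ℕ∞)))).symm _ _ h

theorem cls_color {x y : V} (h : clsR G c r x y) : c x = c y := by
  induction h with
  | refl => rfl
  | tail _ h2 ih => exact ih.trans h2.1

/-- The setoid. -/
def clsSetoid : Setoid V where
  r := clsR G c r
  iseqv := ⟨fun _ => Relation.ReflTransGen.refl, fun h => cls_symm G c r h,
    fun h1 h2 => Relation.ReflTransGen.trans h1 h2⟩

/-- Representatives. -/
noncomputable def rp (x : V) : V := (Quotient.mk (clsSetoid G c r) x).out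

theorem rp_rel (x : V) : clsR G c r (rp G c r x) x :=
  Quotient.exact (s := clsSetoid G c r) (Quotient.out_eq _)

theorem rp_eq_iff (x y : V) : rp G c r x = rp G c r y ↔ clsR G c r x y := by
  constructor
  · intro h
    have h1 := rp_rel G c r x
    have h2 := rp_rel G c r y
    rw [h] at h1
    exact (cls_symm G c r h1).trans h2
  · intro h
    unfold rp
    rw [Quotient.sound (s := clsSetoid G c r) h]

theorem rp_color (x : V) : c (rp G c r x) = c x := cls_color G c r (rp_rel G c r x)

end cls

theorem double_count {α β : Type} [DecidableEq α] [Fintype β] (D : ℕ)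
    (F : β → Finset α) (c : β → Fin D) (S : Finset α)
    (hS : ∀ w, F w ⊆ S) (h : ∀ s w w', s ∈ F w → s ∈ F w' → c w = c w' → w = w') :
    ∑ w, (F w).card ≤ D * S.card := by
  classical
  have h1 : ((Finset.univ : Finset β).sigma F).card = ∑ w, (F w).card := by
    rw [Finset.card_sigma]
  rw [← h1]
  have h2 : ((Finset.univ : Finset (Fin D)) ×ˢ S).card = D * S.card := by
    rw [Finset.card_product, Finset.card_univ, Fintype.card_fin]
  rw [← h2]
  apply Finset.card_le_card_of_injOn (fun x => (c x.1, x.2))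
  · rintro ⟨w, s⟩ hw
    have hw' : s ∈ F w := (Finset.mem_sigma.mp (Finset.mem_coe.mp hw)).2
    exact Finset.mem_coe.mpr (Finset.mem_product.mpr ⟨Finset.mem_univ _, hS w hw'⟩)
  · rintro ⟨w, s⟩ hw ⟨w', s'⟩ hw' heq
    have e1 : s ∈ F w := (Finset.mem_sigma.mp (Finset.mem_coe.mp hw)).2
    have e2 : s' ∈ F w' := (Finset.mem_sigma.mp (Finset.mem_coe.mp hw')).2
    simp only [Prod.mk.injEq] at heq
    obtain ⟨hc, hs⟩ := heq
    subst hs
    have := h s w w' e1 e2 hc
    subst this
    rfl

/-- Iterated closed neighbourhoods, as sets of vertices reachable in at most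
`t` steps. -/
theorem edist_le_iff_walk {V : Type} (G : SimpleGraph V) (x y : V) (n : ℕ) :
    G.edist x y ≤ (n : ℕ∞) ↔ ∃ p : G.Walk x y, p.length ≤ n := by
  constructor
  · intro h
    have hne : G.edist x y ≠ ⊤ := by
      intro ht
      rw [ht] at h
      exact absurd h (by simp)
    obtain ⟨p, hp⟩ := SimpleGraph.exists_walk_of_edist_ne_top hne
    refine ⟨p, ?_⟩
    rw [← hp] at h
    exact_mod_cast h
  · rintro ⟨p, hp⟩
    exact (SimpleGraph.edist_le p).trans (by exact_mod_cast hp)

end Pool.Agent.H856R3
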