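import Mathlib
import Pool.Agent.H856R3.AsdBase

set_option autoImplicit false

/-!
One refinement step: a dense pair of sets has a dense sub-pair one side of
which is covered by a shallow tree outside the sub-pair.
-/

namespace Pool.Agent.H856R3

/-- The leaves `Z` are covered by a tree of depth at most `R` whose inner
vertices are in `W`. -/
def Cov {V : Type} (M : SimpleGraph V) (R : ℕ) (Z W : Finset V) : Prop :=
  ∃ ℓ ≤ R, ∃ anc : ℕ → V → V, (∀ z ∈ Z, anc 0 z = z) ∧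
    (∀ z ∈ Z, ∀ a < ℓ, M.Adj (anc a z) (anc (a + 1) z)) ∧
    (∀ z ∈ Z, ∀ a, 1 ≤ a → a ≤ ℓ → anc a z ∈ W) ∧
    (∀ z ∈ Z, ∀ z' ∈ Z, ∀ a < ℓ, anc a z = anc a z' → anc (a + 1) z = anc (a + 1) z') ∧
    (∀ z ∈ Z, ∀ z' ∈ Z, ∀ a ≤ ℓ, ∀ a' ≤ ℓ, anc a z = anc a' z' → a = a') ∧
    (∀ z ∈ Z, ∀ z' ∈ Z, anc ℓ z = anc ℓ z')

theorem Cov.mono {V : Type} {M : SimpleGraph V} {R : ℕ} {Z Z' W : Finset V} (h : Cov M R Z W)
    (hZ : Z' ⊆ Z) : Cov M R Z' W := by
  obtain ⟨ℓ, hℓ, anc, h1, h2, h3, h4, h5, h6⟩ := h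
  exact ⟨ℓ, hℓ, anc, fun z hz => h1 z (hZ hz), fun z hz => h2 z (hZ hz),
    fun z hz => h3 z (hZ hz), fun z hz z' hz' => h4 z (hZ hz) z' (hZ hz'),
    fun z hz z' hz' => h5 z (hZ hz) z' (hZ hz'), fun z hz z' hz' => h6 z (hZ hz) z' (hZ hz')⟩

/-- The graph of a set of pairs. -/
def prG {V : Type} (M : SimpleGraph V) (E : Finset (V × V)) : SimpleGraph V where
  Adj x y := M.Adj x y ∧ ((x, y) ∈ E ∨ (y, x) ∈ E)
  symm := ⟨by
    rintro x y ⟨h1, h2⟩
    exact ⟨h1.symm, h2.symm⟩⟩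
  loopless := ⟨by
    rintro x ⟨h1, _⟩
    exact M.loopless.irrefl x h1⟩

theorem prG_le {V : Type} (M : SimpleGraph V) (E : Finset (V × V)) : prG M E ≤ M :=
  fun _ _ h => h.1

theorem edist_adj {V : Type} (G : SimpleGraph V) {x y : V} (h : G.Adj x y) : G.edist x y ≤ 1 := by
  have := SimpleGraph.edist_le (SimpleGraph.Walk.cons h SimpleGraph.Walk.nil)
  simpa using this

theorem class_select {V : Type} [Fintype V] [DecidableEq V] (M : SimpleGraph V) (d : ℕ)
    (f : ℕ → ℕ) (hM : SAD M d f) (δ : ℕ) (X Y : Finset V) (E : Finset (V × V))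
    (hE : ∀ e ∈ E, e.1 ∈ X ∧ e.2 ∈ Y ∧ M.Adj e.1 e.2) (hne : E.Nonempty)
    (hden : (d + 1) * δ * (X.card + Y.card) ≤ E.card) :
    ∃ (E1 : Finset (V × V)) (v0 : V), E1 ⊆ E ∧ E1.Nonempty ∧
      δ * ((E1.image Prod.fst).card + (E1.image Prod.snd).card) ≤ E1.card ∧
      (∀ e ∈ E1, (prG M E).edist v0 e.1 ≤ (f 2 : ℕ∞)) := by
  classical
  obtain ⟨c, hc⟩ := hM (prG M E) (prG_le M E) 2
  let rep : V → V := rp (prG M E) c 2
  let Ew : V → Finset (V × V) := fun w => E.filter (fun e => rep e.1 = w)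
  by_contra hcon
  push Not at hcon
  have hlt : ∀ w, (Ew w).Nonempty →
      (Ew w).card < δ * (((Ew w).image Prod.fst).card + ((Ew w).image Prod.snd).card) := by
    intro w hw
    by_contra hge
    push Not at hge
    obtain ⟨e, he, hef⟩ := hcon (Ew w) w (Finset.filter_subset _ _) hw hge
    have hrep : rep e.1 = w := (Finset.mem_filter.mp he).2
    have h1 : clsR (prG M E) c 2 w e.1 := by
      rw [← hrep]
      exact rp_rel _ _ _ _
    exact absurd (hc _ _ h1) (not_le.mpr hef)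
  have hsum : ∑ w, (Ew w).card = E.card :=
    (Finset.card_eq_sum_card_fiberwise (f := fun e : V × V => rep e.1) (t := Finset.univ)
      (fun _ _ => Finset.mem_coe.mpr (Finset.mem_univ _))).symm
  obtain ⟨e0, he0⟩ := hne
  have hw0 : (Ew (rep e0.1)).Nonempty := ⟨e0, Finset.mem_filter.mpr ⟨he0, rfl⟩⟩
  have hlt2 : ∑ w, (Ew w).card <
      ∑ w, δ * (((Ew w).image Prod.fst).card + ((Ew w).image Prod.snd).card) := by
    apply Finset.sum_lt_sum
    · intro w _
      by_cases hw : (Ew w).Nonempty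
      · exact (hlt w hw).le
      · rw [Finset.not_nonempty_iff_eq_empty] at hw
        rw [hw]
        simp
    · exact ⟨rep e0.1, Finset.mem_univ _, hlt _ hw0⟩
  have hX : ∑ w, ((Ew w).image Prod.fst).card ≤ (d + 1) * X.card := by
    apply double_count (d + 1) (fun w => (Ew w).image Prod.fst) c X
    · intro w s hs
      obtain ⟨e, he, hes⟩ := Finset.mem_image.mp hs
      rw [← hes]
      exact (hE e (Finset.mem_filter.mp he).1).1
    · intro s w w' h1 h2 _
      obtain ⟨e, he, hes⟩ := Finset.mem_image.mp h1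
      obtain ⟨e', he', hes'⟩ := Finset.mem_image.mp h2
      rw [← (Finset.mem_filter.mp he).2, ← (Finset.mem_filter.mp he').2, hes, hes']
  have hY : ∑ w, ((Ew w).image Prod.snd).card ≤ (d + 1) * Y.card := by
    apply double_count (d + 1) (fun w => (Ew w).image Prod.snd) c Y
    · intro w s hs
      obtain ⟨e, he, hes⟩ := Finset.mem_image.mp hs
      rw [← hes]
      exact (hE e (Finset.mem_filter.mp he).1).2.1
    · intro s w w' h1 h2 hcc
      obtain ⟨e, he, hes⟩ := Finset.mem_image.mp h1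
      obtain ⟨e', he', hes'⟩ := Finset.mem_image.mp h2
      have heE := (Finset.mem_filter.mp he).1
      have heE' := (Finset.mem_filter.mp he').1
      have hr := (Finset.mem_filter.mp he).2
      have hr' := (Finset.mem_filter.mp he').2
      rw [← hr, ← hr']
      have a1 : (prG M E).Adj e.1 e.2 := ⟨(hE e heE).2.2, Or.inl heE⟩
      have a2 : (prG M E).Adj e'.1 e'.2 := ⟨(hE e' heE').2.2, Or.inl heE'⟩
      rw [hes] at a1
      rw [hes'] at a2
      have hd : (prG M E).edist e.1 e'.1 ≤ ((2 : ℕ) : ℕ∞) := by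
        calc (prG M E).edist e.1 e'.1 ≤ (prG M E).edist e.1 s + (prG M E).edist s e'.1 :=
              SimpleGraph.edist_triangle
          _ ≤ 1 + 1 := add_le_add (edist_adj _ a1) (edist_adj _ a2.symm)
          _ = ((2 : ℕ) : ℕ∞) := by norm_num
      have hcol : c e.1 = c e'.1 := by
        have h3 : c (rep e.1) = c e.1 := rp_color _ _ _ _
        have h4 : c (rep e'.1) = c e'.1 := rp_color _ _ _ _
        rw [← h3, ← h4, hr, hr', hcc]
      exact (rp_eq_iff _ _ _ _ _).mpr (Relation.ReflTransGen.single ⟨hcol, hd⟩)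
  have hfin : ∑ w, δ * (((Ew w).image Prod.fst).card + ((Ew w).image Prod.snd).card) ≤ E.card := by
    rw [← Finset.mul_sum, Finset.sum_add_distrib]
    calc δ * (∑ w, ((Ew w).image Prod.fst).card + ∑ w, ((Ew w).image Prod.snd).card)
        ≤ δ * ((d + 1) * X.card + (d + 1) * Y.card) := Nat.mul_le_mul_left _ (add_le_add hX hY)
      _ = (d + 1) * δ * (X.card + Y.card) := by ring
      _ ≤ E.card := hden
  omega

theorem exists_par {V : Type} (G : SimpleGraph V) (v0 z : V) (t : ℕ)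
    (h : G.edist v0 z = ((t + 1 : ℕ) : ℕ∞)) :
    ∃ z', G.Adj z z' ∧ G.edist v0 z' = (t : ℕ∞) := by
  have h' : G.edist z v0 ≤ ((t + 1 : ℕ) : ℕ∞) := by
    rw [SimpleGraph.edist_comm, h]
  obtain ⟨p, hp⟩ := (edist_le_iff_walk G z v0 (t + 1)).mp h'
  cases p with
  | nil =>
    simp at h
    exact absurd h (by exact_mod_cast (Nat.succ_ne_zero t).symm)
  | @cons _ z' _ hadj q =>
    refine ⟨z', hadj, ?_⟩
    have hq : G.edist v0 z' ≤ (t : ℕ∞) := by
      rw [SimpleGraph.edist_comm]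
      refine (SimpleGraph.edist_le q).trans ?_
      rw [SimpleGraph.Walk.length_cons] at hp
      exact_mod_cast Nat.le_of_succ_le_succ hp
    apply le_antisymm hq
    have h1 : G.edist v0 z ≤ G.edist v0 z' + 1 :=
      SimpleGraph.edist_triangle.trans (add_le_add le_rfl (edist_adj G hadj.symm))
    rw [h] at h1
    obtain ⟨n, hn⟩ : ∃ n : ℕ, G.edist v0 z' = (n : ℕ∞) := by
      have hne : G.edist v0 z' ≠ ⊤ := by
        intro ht
        rw [ht] at hq
        exact absurd hq (by simp)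
      exact ⟨_, (ENat.natCast_toNat hne).symm⟩
    rw [hn] at h1 ⊢
    have h2 : t + 1 ≤ n + 1 := by exact_mod_cast h1
    exact_mod_cast Nat.le_of_succ_le_succ h2

open Classical in
/-- Parent towards `v0`. -/
noncomputable def par {V : Type} (G : SimpleGraph V) (v0 z : V) : V :=
  if h : ∃ z', G.Adj z z' ∧ ∃ t : ℕ, G.edist v0 z = ((t + 1 : ℕ) : ℕ∞) ∧
    G.edist v0 z' = (t : ℕ∞) then h.choose else z

theorem par_spec {V : Type} (G : SimpleGraph V) (v0 z : V) (t : ℕ)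
    (h : G.edist v0 z = ((t + 1 : ℕ) : ℕ∞)) :
    G.Adj z (par G v0 z) ∧ G.edist v0 (par G v0 z) = (t : ℕ∞) := by
  have hex : ∃ z', G.Adj z z' ∧ ∃ t : ℕ, G.edist v0 z = ((t + 1 : ℕ) : ℕ∞) ∧
      G.edist v0 z' = (t : ℕ∞) := by
    obtain ⟨z', h1, h2⟩ := exists_par G v0 z t h
    exact ⟨z', h1, t, h, h2⟩
  unfold par
  rw [dif_pos hex]
  obtain ⟨h1, t', h2, h3⟩ := hex.choose_spec
  refine ⟨h1, ?_⟩
  rw [h] at h2
  have : t = t' := by
    have : t + 1 = t' + 1 := by exact_mod_cast h2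
    omega
  rw [this]
  exact h3

theorem cov_of_layers {V : Type} (M G : SimpleGraph V) (hG : G ≤ M) (R : ℕ) (v0 : V) (ℓ : ℕ)
    (hℓ : ℓ ≤ R) (Z W : Finset V) (hZ : ∀ z ∈ Z, G.edist v0 z = (ℓ : ℕ∞))
    (hW : ∀ w u, G.Adj w u → G.edist v0 w < (ℓ : ℕ∞) → w ∈ W) : Cov M R Z W := by
  have hlev : ∀ z ∈ Z, ∀ a ≤ ℓ, G.edist v0 ((par G v0)^[a] z) = ((ℓ - a : ℕ) : ℕ∞) := by
    intro z hz a
    induction a with
    | zero =>
      intro _
      simpa using hZ z hz
    | succ a ih =>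
      intro ha
      have h1 := ih (by omega)
      have h2 : ℓ - a = (ℓ - (a + 1)) + 1 := by omega
      rw [h2] at h1
      rw [Function.iterate_succ_apply']
      exact (par_spec G v0 _ _ h1).2
  have hadj : ∀ z ∈ Z, ∀ a < ℓ, G.Adj ((par G v0)^[a] z) ((par G v0)^[a + 1] z) := by
    intro z hz a ha
    have h1 := hlev z hz a ha.le
    have h2 : ℓ - a = (ℓ - (a + 1)) + 1 := by omega
    rw [h2] at h1
    rw [Function.iterate_succ_apply']
    exact (par_spec G v0 _ _ h1).1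
  refine ⟨ℓ, hℓ, fun a z => (par G v0)^[a] z, ?_, ?_, ?_, ?_, ?_, ?_⟩
  · intro z _
    rfl
  · intro z hz a ha
    exact hG (hadj z hz a ha)
  · intro z hz a h1 h2
    obtain ⟨b, rfl⟩ : ∃ b, a = b + 1 := ⟨a - 1, by omega⟩
    refine hW _ _ (hadj z hz b (by omega)).symm ?_
    rw [hlev z hz (b + 1) h2]
    exact_mod_cast (by omega : ℓ - (b + 1) < ℓ)
  · intro z hz z' hz' a ha heq
    simp only at heq ⊢
    rw [Function.iterate_succ_apply', Function.iterate_succ_apply', heq]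
  · intro z hz z' hz' a ha a' ha' heq
    simp only at heq
    have h1 := hlev z hz a ha
    have h2 := hlev z' hz' a' ha'
    rw [heq, h2] at h1
    have h3 : ℓ - a' = ℓ - a := by exact_mod_cast h1
    omega
  · intro z hz z' hz'
    have h1 := hlev z hz ℓ le_rfl
    have h2 := hlev z' hz' ℓ le_rfl
    simp only [Nat.sub_self, Nat.cast_zero, SimpleGraph.edist_eq_zero_iff] at h1 h2
    simp only
    rw [← h1, ← h2]

theorem step {V : Type} [Fintype V] [DecidableEq V] (M : SimpleGraph V) (d : ℕ) (f : ℕ → ℕ)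
    (hM : SAD M d f) (δ : ℕ) (hδ : 0 < δ) (X Y : Finset V) (E : Finset (V × V))
    (hE : ∀ e ∈ E, e.1 ∈ X ∧ e.2 ∈ Y ∧ M.Adj e.1 e.2) (hne : E.Nonempty)
    (hden : (d + 1) * ((f 2 + 2) * (f 2 + 2) * δ) * (X.card + Y.card) ≤ E.card) :
    ∃ (X' Y' : Finset V) (E' : Finset (V × V)), X' ⊆ X ∧ Y' ⊆ Y ∧ E'.Nonempty ∧
      (∀ e ∈ E', e.1 ∈ X' ∧ e.2 ∈ Y' ∧ M.Adj e.1 e.2) ∧
      δ * (X'.card + Y'.card) ≤ E'.card ∧
      ∃ W : Finset V, W ⊆ (X ∪ Y) \ (X' ∪ Y') ∧
        (Cov M (f 2 + 1) X' W ∨ Cov M (f 2 + 1) Y' W) := by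
  classical
  obtain ⟨E1, v0, hE1, hne1, hden1, hdist⟩ := class_select M d f hM _ X Y E hE hne hden
  set G := prG M E with hGdef
  have hdist2 : ∀ e ∈ E1, G.edist v0 e.2 ≤ ((f 2 + 1 : ℕ) : ℕ∞) := by
    intro e he
    have ha : G.Adj e.1 e.2 := ⟨(hE e (hE1 he)).2.2, Or.inl (hE1 he)⟩
    calc G.edist v0 e.2 ≤ G.edist v0 e.1 + G.edist e.1 e.2 := SimpleGraph.edist_triangle
      _ ≤ (f 2 : ℕ∞) + 1 := add_le_add (hdist e he) (edist_adj _ ha)
      _ = ((f 2 + 1 : ℕ) : ℕ∞) := by push_cast; rfl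
  have hdist1 : ∀ e ∈ E1, G.edist v0 e.1 ≤ ((f 2 + 1 : ℕ) : ℕ∞) := by
    intro e he
    refine (hdist e he).trans ?_
    exact_mod_cast Nat.le_succ _
  have hcast : ∀ z, G.edist v0 z ≤ ((f 2 + 1 : ℕ) : ℕ∞) →
      G.edist v0 z = (((G.edist v0 z).toNat : ℕ) : ℕ∞) ∧ (G.edist v0 z).toNat < f 2 + 2 := by
    intro z hz
    have hne : G.edist v0 z ≠ ⊤ := by
      intro ht
      rw [ht] at hz
      exact absurd hz (by simp)
    have h1 := (ENat.natCast_toNat hne).symm
    refine ⟨h1, ?_⟩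
    rw [h1] at hz
    have : (G.edist v0 z).toNat ≤ f 2 + 1 := by exact_mod_cast hz
    omega
  let lam : V × V → ℕ × ℕ := fun e => ((G.edist v0 e.1).toNat, (G.edist v0 e.2).toNat)
  let t := (Finset.range (f 2 + 2)) ×ˢ (Finset.range (f 2 + 2))
  have hmaps : ∀ e ∈ E1, lam e ∈ t := by
    intro e he
    exact Finset.mem_product.mpr ⟨Finset.mem_range.mpr (hcast _ (hdist1 e he)).2,
      Finset.mem_range.mpr (hcast _ (hdist2 e he)).2⟩
  have ht : t.Nonempty := ⟨(0, 0), Finset.mem_product.mpr ⟨by simp, by simp⟩⟩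
  have htc : t.card * (δ * ((E1.image Prod.fst).card + (E1.image Prod.snd).card)) ≤ E1.card := by
    rw [Finset.card_product, Finset.card_range]
    calc _ = (f 2 + 2) * (f 2 + 2) * δ * ((E1.image Prod.fst).card + (E1.image Prod.snd).card) := by
            ring
      _ ≤ E1.card := hden1
  obtain ⟨⟨a, b⟩, _, hfib⟩ := Finset.exists_le_card_fiber_of_mul_le_card_of_maps_to hmaps ht htc
  set E' := E1.filter (fun e => lam e = (a, b)) with hE'def
  have hmem : ∀ e ∈ E', e ∈ E1 ∧ (G.edist v0 e.1).toNat = a ∧ (G.edist v0 e.2).toNat = b := by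
    intro e he
    obtain ⟨h1, h2⟩ := Finset.mem_filter.mp he
    have h3 : ((G.edist v0 e.1).toNat, (G.edist v0 e.2).toNat) = (a, b) := h2
    rw [Prod.mk.injEq] at h3
    exact ⟨h1, h3.1, h3.2⟩
  have hX'1 : ∀ z ∈ E'.image Prod.fst, G.edist v0 z = (a : ℕ∞) := by
    intro z hz
    obtain ⟨e, he, rfl⟩ := Finset.mem_image.mp hz
    obtain ⟨h1, h2, _⟩ := hmem e he
    rw [(hcast _ (hdist1 e h1)).1, h2]
  have hY'1 : ∀ z ∈ E'.image Prod.snd, G.edist v0 z = (b : ℕ∞) := by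
    intro z hz
    obtain ⟨e, he, rfl⟩ := Finset.mem_image.mp hz
    obtain ⟨h1, _, h2⟩ := hmem e he
    rw [(hcast _ (hdist2 e h1)).1, h2]
  have hX'le : (E'.image Prod.fst).card ≤ (E1.image Prod.fst).card :=
    Finset.card_le_card (Finset.image_subset_image (Finset.filter_subset _ _))
  have hY'le : (E'.image Prod.snd).card ≤ (E1.image Prod.snd).card :=
    Finset.card_le_card (Finset.image_subset_image (Finset.filter_subset _ _))
  have hpos : 0 < (E1.image Prod.fst).card := Finset.card_pos.mpr (hne1.image _)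
  have hE'pos : 0 < E'.card := by
    refine lt_of_lt_of_le ?_ hfib
    positivity
  have hE'ne : E'.Nonempty := Finset.card_pos.mp hE'pos
  let W := (X ∪ Y).filter (fun w => G.edist v0 w < ((min a b : ℕ) : ℕ∞))
  have hWsub : W ⊆ (X ∪ Y) \ (E'.image Prod.fst ∪ E'.image Prod.snd) := by
    intro w hw
    obtain ⟨h1, h2⟩ := Finset.mem_filter.mp hw
    rw [Finset.mem_sdiff]
    refine ⟨h1, ?_⟩
    intro h3
    rcases Finset.mem_union.mp h3 with h3 | h3
    · rw [hX'1 w h3] at h2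
      have : a < min a b := by exact_mod_cast h2
      omega
    · rw [hY'1 w h3] at h2
      have : b < min a b := by exact_mod_cast h2
      omega
  have hWprop : ∀ w u, G.Adj w u → G.edist v0 w < ((min a b : ℕ) : ℕ∞) → w ∈ W := by
    intro w u hwu hlt
    refine Finset.mem_filter.mpr ⟨?_, hlt⟩
    rcases hwu.2 with h | h
    · exact Finset.mem_union_left _ (hE _ h).1
    · exact Finset.mem_union_right _ (hE _ h).2.1
  obtain ⟨e0, he0⟩ := hE'ne
  have ha2 : a ≤ f 2 + 1 := by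
    obtain ⟨h1, h2, _⟩ := hmem e0 he0
    have := (hcast _ (hdist1 e0 h1)).2
    omega
  have hb2 : b ≤ f 2 + 1 := by
    obtain ⟨h1, _, h2⟩ := hmem e0 he0
    have := (hcast _ (hdist2 e0 h1)).2
    omega
  refine ⟨E'.image Prod.fst, E'.image Prod.snd, E', ?_, ?_, ⟨e0, he0⟩, ?_, ?_, W, hWsub, ?_⟩
  · intro z hz
    obtain ⟨e, he, rfl⟩ := Finset.mem_image.mp hz
    exact (hE e (hE1 (hmem e he).1)).1
  · intro z hz
    obtain ⟨e, he, rfl⟩ := Finset.mem_image.mp hz
    exact (hE e (hE1 (hmem e he).1)).2.1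
  · intro e he
    exact ⟨Finset.mem_image_of_mem _ he, Finset.mem_image_of_mem _ he,
      (hE e (hE1 (hmem e he).1)).2.2⟩
  · refine le_trans ?_ hfib
    exact Nat.mul_le_mul_left _ (add_le_add hX'le hY'le)
  · rcases le_total a b with hab | hab
    · left
      apply cov_of_layers M G (prG_le M E) (f 2 + 1) v0 a ha2 _ _ hX'1
      intro w u hwu hlt
      apply hWprop w u hwu
      rw [min_eq_left hab]
      exact hlt
    · right
      apply cov_of_layers M G (prG_le M E) (f 2 + 1) v0 b hb2 _ _ hY'1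
      intro w u hwu hlt
      apply hWprop w u hwu
      rw [min_eq_right hab]
      exact hlt

end Pool.Agent.H856R3
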