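import Mathlib
import Pool.Agent.H856R3.AsdStep

set_option autoImplicit false

/-!
Iterating the refinement step, and extracting spiders.
-/

namespace Pool.Agent.H856R3

theorem iter {V : Type} [Fintype V] [DecidableEq V] (M : SimpleGraph V) (d : ℕ) (f : ℕ → ℕ)
    (hM : SAD M d f) (δ : ℕ) (hδ : 0 < δ) (k : ℕ) :
    ∀ (X Y : Finset V) (E : Finset (V × V)),
      (∀ e ∈ E, e.1 ∈ X ∧ e.2 ∈ Y ∧ M.Adj e.1 e.2) → E.Nonempty →
      (((d + 1) * ((f 2 + 2) * (f 2 + 2))) ^ k * δ) * (X.card + Y.card) ≤ E.card →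
      ∃ (X' Y' : Finset V) (E' : Finset (V × V)), X' ⊆ X ∧ Y' ⊆ Y ∧ E'.Nonempty ∧
        (∀ e ∈ E', e.1 ∈ X' ∧ e.2 ∈ Y' ∧ M.Adj e.1 e.2) ∧
        δ * (X'.card + Y'.card) ≤ E'.card ∧
        ∃ LX LY : List (Finset V), LX.length + LY.length = k ∧
          LX.Pairwise Disjoint ∧ LY.Pairwise Disjoint ∧
          (∀ W ∈ LX, W ⊆ (X ∪ Y) \ (X' ∪ Y') ∧ Cov M (f 2 + 1) X' W) ∧
          (∀ W ∈ LY, W ⊆ (X ∪ Y) \ (X' ∪ Y') ∧ Cov M (f 2 + 1) Y' W) := by
  induction k with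
  | zero =>
    intro X Y E hE hne hden
    refine ⟨X, Y, E, Finset.Subset.refl _, Finset.Subset.refl _, hne, hE, ?_, [], [], rfl,
      List.Pairwise.nil, List.Pairwise.nil, ?_, ?_⟩
    · simpa using hden
    · intro W hW
      exact absurd hW (by simp)
    · intro W hW
      exact absurd hW (by simp)
  | succ k ih =>
    intro X Y E hE hne hden
    set c0 := (d + 1) * ((f 2 + 2) * (f 2 + 2)) with hc0
    have hc0pos : 0 < c0 := by positivity
    have hpos : 0 < c0 ^ k * δ := by positivity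
    have hden1 : (d + 1) * ((f 2 + 2) * (f 2 + 2) * (c0 ^ k * δ)) * (X.card + Y.card) ≤ E.card := by
      refine le_trans (le_of_eq ?_) hden
      rw [pow_succ, hc0]
      ring
    obtain ⟨X1, Y1, E1, hX1, hY1, hne1, hE1, hd1, W, hW, hcov⟩ :=
      step M d f hM (c0 ^ k * δ) hpos X Y E hE hne hden1
    obtain ⟨X2, Y2, E2, hX2, hY2, hne2, hE2, hd2, LX, LY, hlen, hpX, hpY, hLX, hLY⟩ :=
      ih X1 Y1 E1 hE1 hne1 hd1
    have hsub : (X1 ∪ Y1) \ (X2 ∪ Y2) ⊆ (X ∪ Y) \ (X2 ∪ Y2) :=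
      Finset.sdiff_subset_sdiff (Finset.union_subset_union hX1 hY1) (Finset.Subset.refl _)
    have hsub2 : (X ∪ Y) \ (X1 ∪ Y1) ⊆ (X ∪ Y) \ (X2 ∪ Y2) :=
      Finset.sdiff_subset_sdiff (Finset.Subset.refl _) (Finset.union_subset_union hX2 hY2)
    have hdisj : ∀ W' : Finset V, W' ⊆ (X1 ∪ Y1) \ (X2 ∪ Y2) → Disjoint W W' := by
      intro W' hW'
      rw [Finset.disjoint_left]
      intro x hx hx'
      have h1 := Finset.mem_sdiff.mp (hW hx)
      have h2 := Finset.mem_sdiff.mp (hW' hx')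
      exact h1.2 h2.1
    rcases hcov with hcov | hcov
    · refine ⟨X2, Y2, E2, hX2.trans hX1, hY2.trans hY1, hne2, hE2, hd2, W :: LX, LY, ?_, ?_,
        hpY, ?_, ?_⟩
      · rw [List.length_cons]; omega
      · rw [List.pairwise_cons]
        exact ⟨fun W' hW' => hdisj W' (hLX W' hW').1, hpX⟩
      · intro W' hW'
        rcases List.mem_cons.mp hW' with h | h
        · rw [h]
          exact ⟨hW.trans hsub2, hcov.mono hX2⟩
        · exact ⟨(hLX W' h).1.trans hsub, (hLX W' h).2⟩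
      · intro W' hW'
        exact ⟨(hLY W' hW').1.trans hsub, (hLY W' hW').2⟩
    · refine ⟨X2, Y2, E2, hX2.trans hX1, hY2.trans hY1, hne2, hE2, hd2, LX, W :: LY, ?_, hpX,
        ?_, ?_, ?_⟩
      · rw [List.length_cons]; omega
      · rw [List.pairwise_cons]
        exact ⟨fun W' hW' => hdisj W' (hLY W' hW').1, hpY⟩
      · intro W' hW'
        exact ⟨(hLX W' hW').1.trans hsub, (hLX W' hW').2⟩
      · intro W' hW'
        rcases List.mem_cons.mp hW' with h | h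
        · rw [h]
          exact ⟨hW.trans hsub2, hcov.mono hY2⟩
        · exact ⟨(hLY W' h).1.trans hsub, (hLY W' h).2⟩

/-- Large one-sided sets covered by many trees. -/
theorem many_cov {V : Type} [Fintype V] [DecidableEq V] (M : SimpleGraph V) (d : ℕ) (f : ℕ → ℕ)
    (hM : SAD M d f) (δ : ℕ) (hδ : 0 < δ) (k : ℕ) (E : Finset (V × V))
    (hE : ∀ e ∈ E, M.Adj e.1 e.2) (hne : E.Nonempty)
    (hden : (((d + 1) * ((f 2 + 2) * (f 2 + 2))) ^ (k + k) * δ) * (Fintype.card V + Fintype.card V)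
      ≤ E.card) :
    ∃ (Z : Finset V) (L : List (Finset V)), δ ≤ Z.card ∧ k ≤ L.length ∧ L.Pairwise Disjoint ∧
      ∀ W ∈ L, Disjoint Z W ∧ Cov M (f 2 + 1) Z W := by
  obtain ⟨X, Y, E', _, _, hne', hE', hd', LX, LY, hlen, hpX, hpY, hLX, hLY⟩ :=
    iter M d f hM δ hδ (k + k) Finset.univ Finset.univ E
      (fun e he => ⟨Finset.mem_univ _, Finset.mem_univ _, hE e he⟩) hne
      (by simpa [Finset.card_univ] using hden)
  obtain ⟨e0, he0⟩ := hne'
  have hcard : E'.card ≤ X.card * Y.card := by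
    rw [← Finset.card_product]
    apply Finset.card_le_card
    intro e he
    exact Finset.mem_product.mpr ⟨(hE' e he).1, (hE' e he).2.1⟩
  have hXpos : 0 < X.card := Finset.card_pos.mpr ⟨_, (hE' e0 he0).1⟩
  have hYpos : 0 < Y.card := Finset.card_pos.mpr ⟨_, (hE' e0 he0).2.1⟩
  have h1 : δ * (X.card + Y.card) ≤ X.card * Y.card := hd'.trans hcard
  have hX : δ ≤ X.card := by
    have : δ * Y.card ≤ X.card * Y.card := by nlinarith
    exact Nat.le_of_mul_le_mul_right this hYpos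
  have hY : δ ≤ Y.card := by
    have : δ * X.card ≤ Y.card * X.card := by nlinarith
    exact Nat.le_of_mul_le_mul_right this hXpos
  have hor : k ≤ LX.length ∨ k ≤ LY.length := by omega
  rcases hor with h | h
  · refine ⟨X, LX, hX, h, hpX, ?_⟩
    intro W hW
    refine ⟨?_, (hLX W hW).2⟩
    rw [Finset.disjoint_left]
    intro x hx hxW
    exact (Finset.mem_sdiff.mp ((hLX W hW).1 hxW)).2 (Finset.mem_union_left _ hx)
  · refine ⟨Y, LY, hY, h, hpY, ?_⟩
    intro W hW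
    refine ⟨?_, (hLY W hW).2⟩
    rw [Finset.disjoint_left]
    intro x hx hxW
    exact (Finset.mem_sdiff.mp ((hLY W hW).1 hxW)).2 (Finset.mem_union_right _ hx)

/-- Spiders. -/
def Spd {V : Type} (M : SimpleGraph V) (R : ℕ) (Z W : Finset V) : Prop :=
  ∃ ℓ, 1 ≤ ℓ ∧ ℓ ≤ R ∧ ∃ anc : ℕ → V → V, (∀ z ∈ Z, anc 0 z = z) ∧
    (∀ z ∈ Z, ∀ a < ℓ, M.Adj (anc a z) (anc (a + 1) z)) ∧
    (∀ z ∈ Z, ∀ a, 1 ≤ a → a ≤ ℓ → anc a z ∈ W) ∧
    (∀ z ∈ Z, ∀ z' ∈ Z, ∀ a < ℓ, anc a z = anc a z' → z = z') ∧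
    (∀ z ∈ Z, ∀ z' ∈ Z, ∀ a ≤ ℓ, ∀ a' ≤ ℓ, anc a z = anc a' z' → a = a') ∧
    (∀ z ∈ Z, ∀ z' ∈ Z, anc ℓ z = anc ℓ z')

theorem Spd.mono {V : Type} {M : SimpleGraph V} {R : ℕ} {Z Z' W : Finset V} (h : Spd M R Z W)
    (hZ : Z' ⊆ Z) : Spd M R Z' W := by
  obtain ⟨ℓ, h0, hℓ, anc, h1, h2, h3, h4, h5, h6⟩ := h
  exact ⟨ℓ, h0, hℓ, anc, fun z hz => h1 z (hZ hz), fun z hz => h2 z (hZ hz),
    fun z hz => h3 z (hZ hz), fun z hz z' hz' => h4 z (hZ hz) z' (hZ hz'),
    fun z hz z' hz' => h5 z (hZ hz) z' (hZ hz'), fun z hz z' hz' => h6 z (hZ hz) z' (hZ hz')⟩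

theorem spider_of_tree {V : Type} [DecidableEq V] (M : SimpleGraph V) (R T : ℕ) (hT : 1 ≤ T)
    (W : Finset V) (anc : ℕ → V → V) (ℓ : ℕ) : ∀ (_ : ℓ ≤ R) (Z : Finset V),
    (∀ z ∈ Z, anc 0 z = z) →
    (∀ z ∈ Z, ∀ a < ℓ, M.Adj (anc a z) (anc (a + 1) z)) →
    (∀ z ∈ Z, ∀ a, 1 ≤ a → a ≤ ℓ → anc a z ∈ W) →
    (∀ z ∈ Z, ∀ z' ∈ Z, ∀ a < ℓ, anc a z = anc a z' → anc (a + 1) z = anc (a + 1) z') →
    (∀ z ∈ Z, ∀ z' ∈ Z, ∀ a ≤ ℓ, ∀ a' ≤ ℓ, anc a z = anc a' z' → a = a') →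
    (∀ z ∈ Z, ∀ z' ∈ Z, anc ℓ z = anc ℓ z') → T ^ ℓ < Z.card →
    ∃ Z' ⊆ Z, T ≤ Z'.card ∧ Spd M R Z' W := by
  induction ℓ with
  | zero =>
    intro _ Z h1 _ _ _ _ h6 hcard
    exfalso
    have : Z.card ≤ 1 := by
      rw [Finset.card_le_one]
      intro a ha b hb
      have := h6 a ha b hb
      rwa [h1 a ha, h1 b hb] at this
    rw [pow_zero] at hcard
    omega
  | succ ℓ ih =>
    intro hℓ Z h1 h2 h3 h4 h5 h6 hcard
    by_cases hS : T ≤ (Z.image (anc ℓ)).card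
    · -- choose representatives
      obtain ⟨Z', hZ', hinj, himg⟩ : ∃ Z' ⊆ Z, Set.InjOn (anc ℓ) (Z' : Set V) ∧
          Z'.image (anc ℓ) = Z.image (anc ℓ) := by
        classical
        obtain ⟨s', hs', hb⟩ := Set.exists_subset_bijOn (Z : Set V) (anc ℓ)
        refine ⟨Z.filter (fun z => z ∈ s'), Finset.filter_subset _ _, ?_, ?_⟩
        · intro x hx y hy hxy
          exact hb.injOn (Finset.mem_filter.mp (Finset.mem_coe.mp hx)).2
            (Finset.mem_filter.mp (Finset.mem_coe.mp hy)).2 hxy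
        · ext y
          constructor
          · intro hy
            obtain ⟨x, hx, rfl⟩ := Finset.mem_image.mp hy
            exact Finset.mem_image_of_mem _ (Finset.mem_filter.mp hx).1
          · intro hy
            obtain ⟨x, hx, rfl⟩ := Finset.mem_image.mp hy
            obtain ⟨x', hx', he⟩ := hb.surjOn (Set.mem_image_of_mem _ (Finset.mem_coe.mpr hx))
            exact Finset.mem_image.mpr
              ⟨x', Finset.mem_filter.mpr ⟨Finset.mem_coe.mp (hs' hx'), hx'⟩, he⟩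
      have hcard' : Z'.card = (Z.image (anc ℓ)).card := by
        rw [← himg, Finset.card_image_of_injOn hinj]
      refine ⟨Z', hZ', by omega, ℓ + 1, by omega, hℓ, anc, fun z hz => h1 z (hZ' hz),
        fun z hz => h2 z (hZ' hz), fun z hz => h3 z (hZ' hz), ?_,
        fun z hz z' hz' => h5 z (hZ' hz) z' (hZ' hz'),
        fun z hz z' hz' => h6 z (hZ' hz) z' (hZ' hz')⟩
      intro z hz z' hz' a ha heq
      have hup : ∀ b, a + b ≤ ℓ → anc (a + b) z = anc (a + b) z' := by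
        intro b
        induction b with
        | zero => intro _; exact heq
        | succ b ihb =>
          intro hb
          exact h4 z (hZ' hz) z' (hZ' hz') (a + b) (by omega) (ihb (by omega))
      have := hup (ℓ - a) (by omega)
      rw [show a + (ℓ - a) = ℓ by omega] at this
      exact hinj (Finset.mem_coe.mpr hz) (Finset.mem_coe.mpr hz') this
    · push Not at hS
      have hlt : (Z.image (anc ℓ)).card * T ^ ℓ < Z.card := by
        calc (Z.image (anc ℓ)).card * T ^ ℓ ≤ T * T ^ ℓ := Nat.mul_le_mul_right _ hS.le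
          _ = T ^ (ℓ + 1) := by rw [pow_succ]; ring
          _ < Z.card := hcard
      obtain ⟨u, _, hu⟩ := Finset.exists_lt_card_fiber_of_mul_lt_card_of_maps_to
        (fun z hz => Finset.mem_image_of_mem (anc ℓ) hz) hlt
      have hsub : (Z.filter (fun z => anc ℓ z = u)) ⊆ Z := Finset.filter_subset _ _
      obtain ⟨Z', hZ', hT', hspd⟩ := ih (by omega) (Z.filter (fun z => anc ℓ z = u))
        (fun z hz => h1 z (hsub hz)) (fun z hz a ha => h2 z (hsub hz) a (by omega))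
        (fun z hz a ha1 ha2 => h3 z (hsub hz) a ha1 (by omega))
        (fun z hz z' hz' a ha => h4 z (hsub hz) z' (hsub hz') a (by omega))
        (fun z hz z' hz' a ha a' ha' => h5 z (hsub hz) z' (hsub hz') a (by omega) a' (by omega))
        (fun z hz z' hz' => by
          rw [(Finset.mem_filter.mp hz).2, (Finset.mem_filter.mp hz').2]) hu
      exact ⟨Z', hZ'.trans hsub, hT', hspd⟩

theorem spider_of_cov {V : Type} [DecidableEq V] (M : SimpleGraph V) (R T : ℕ) (hT : 1 ≤ T)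
    (Z W : Finset V) (h : Cov M R Z W) (hcard : T ^ R < Z.card) :
    ∃ Z' ⊆ Z, T ≤ Z'.card ∧ Spd M R Z' W := by
  obtain ⟨ℓ, hℓ, anc, h1, h2, h3, h4, h5, h6⟩ := h
  refine spider_of_tree M R T hT W anc ℓ hℓ Z h1 h2 h3 h4 h5 h6 (lt_of_le_of_lt ?_ hcard)
  exact Nat.pow_le_pow_right hT hℓ

/-- The sizes needed for extracting spiders one after the other. -/
def gs (R N : ℕ) : ℕ → ℕ
  | 0 => N + 1
  | j + 1 => (gs R N j) ^ R + 1

theorem gs_pos (R N j : ℕ) : 1 ≤ gs R N j := by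
  cases j <;> simp [gs]

theorem spiders {V : Type} [DecidableEq V] (M : SimpleGraph V) (R N : ℕ) (L : List (Finset V)) :
    ∀ (Z : Finset V), (∀ W ∈ L, Cov M R Z W) → gs R N L.length ≤ Z.card →
      ∃ Z' ⊆ Z, N ≤ Z'.card ∧ ∀ W ∈ L, Spd M R Z' W := by
  induction L with
  | nil =>
    intro Z _ hcard
    refine ⟨Z, Finset.Subset.refl _, ?_, fun W hW => absurd hW (by simp)⟩
    simp [gs] at hcard
    omega
  | cons W L ih =>
    intro Z hcov hcard
    rw [List.length_cons, gs] at hcard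
    obtain ⟨Z1, hZ1, hc1, hspd⟩ := spider_of_cov M R (gs R N L.length) (gs_pos _ _ _) Z W
      (hcov W (by simp)) (by omega)
    obtain ⟨Z2, hZ2, hc2, hspd2⟩ := ih Z1
      (fun W' hW' => (hcov W' (by simp [hW'])).mono hZ1) hc1
    refine ⟨Z2, hZ2.trans hZ1, hc2, ?_⟩
    intro W' hW'
    rcases List.mem_cons.mp hW' with h | h
    · rw [h]
      exact hspd.mono hZ2
    · exact hspd2 W' h

end Pool.Agent.H856R3
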