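import Mathlib

set_option autoImplicit false

/-!
Graphs of bounded degree with many edges all of whose small vertex sets span
forests.
-/

namespace Pool.Agent.H856R3

open Classical in
/-- Degree. -/
noncomputable def dg {V : Type} [Fintype V] (G : SimpleGraph V) (x : V) : ℕ :=
  (Finset.univ.filter (fun y => G.Adj x y)).card

open Classical in
/-- Closed neighbourhood. -/
noncomputable def nb {V : Type} [Fintype V] (G : SimpleGraph V) (x : V) : Finset V :=
  insert x (Finset.univ.filter (fun y => G.Adj x y))

open Classical in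
/-- Iterated closed neighbourhoods. -/
noncomputable def Gam {V : Type} [Fintype V] (G : SimpleGraph V) : ℕ → V → Finset V
  | 0, u => {u}
  | t + 1, u => (nb G u).biUnion (Gam G t)

open Classical in
/-- Number of ordered adjacent pairs inside `S`. -/
noncomputable def e2 {V : Type} [Fintype V] (G : SimpleGraph V) (S : Finset V) : ℕ :=
  ((S ×ˢ S).filter (fun e => G.Adj e.1 e.2)).card

section basic

variable {V : Type} [Fintype V] (G : SimpleGraph V)

theorem self_mem_nb (x : V) : x ∈ nb G x := by
  classical
  unfold nb; simp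

theorem adj_mem_nb {x y : V} (h : G.Adj x y) : y ∈ nb G x := by
  classical
  unfold nb
  exact Finset.mem_insert_of_mem (Finset.mem_filter.mpr ⟨Finset.mem_univ _, h⟩)

theorem nb_card (Δ : ℕ) (h : ∀ x, dg G x ≤ Δ) (x : V) : (nb G x).card ≤ Δ + 1 := by
  classical
  unfold nb
  refine (Finset.card_insert_le _ _).trans ?_
  exact Nat.succ_le_succ (h x)

theorem Gam_card (Δ : ℕ) (h : ∀ x, dg G x ≤ Δ) (t : ℕ) :
    ∀ u, (Gam G t u).card ≤ (Δ + 1) ^ t := by
  classical
  induction t with
  | zero => intro u; simp [Gam]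
  | succ t ih =>
    intro u
    rw [Gam]
    refine Finset.card_biUnion_le.trans ?_
    calc ∑ x ∈ nb G u, (Gam G t x).card ≤ ∑ _x ∈ nb G u, (Δ + 1) ^ t :=
          Finset.sum_le_sum (fun x _ => ih x)
      _ = (nb G u).card * (Δ + 1) ^ t := by rw [Finset.sum_const, smul_eq_mul]
      _ ≤ (Δ + 1) * (Δ + 1) ^ t := Nat.mul_le_mul_right _ (nb_card G Δ h u)
      _ = (Δ + 1) ^ (t + 1) := by rw [pow_succ]; ring

theorem Gam_succ_sub (t : ℕ) : ∀ u, Gam G t u ⊆ Gam G (t + 1) u := by
  classical
  intro u x hx
  rw [Gam]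
  exact Finset.mem_biUnion.mpr ⟨u, self_mem_nb G u, hx⟩

theorem Gam_mono {t t' : ℕ} (h : t ≤ t') (u : V) : Gam G t u ⊆ Gam G t' u := by
  induction h with
  | refl => exact Finset.Subset.refl _
  | step _ ih => exact ih.trans (Gam_succ_sub G _ u)

theorem Gam_adj (t : ℕ) : ∀ u x y, x ∈ Gam G t u → G.Adj x y → y ∈ Gam G (t + 1) u := by
  classical
  induction t with
  | zero =>
    intro u x y hx hxy
    rw [Gam, Finset.mem_singleton] at hx
    subst hx
    rw [Gam]
    refine Finset.mem_biUnion.mpr ⟨y, adj_mem_nb G hxy, ?_⟩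
    rw [Gam]
    exact Finset.mem_singleton_self _
  | succ t ih =>
    intro u x y hx hxy
    rw [Gam] at hx
    obtain ⟨x0, hx0, hx1⟩ := Finset.mem_biUnion.mp hx
    rw [Gam]
    exact Finset.mem_biUnion.mpr ⟨x0, hx0, ih x0 x y hx1 hxy⟩

theorem self_mem_Gam (t : ℕ) (u : V) : u ∈ Gam G t u := by
  have : u ∈ Gam G 0 u := by
    classical
    rw [Gam]
    exact Finset.mem_singleton_self _
  exact Gam_mono G (Nat.zero_le t) u this

/-- Walks end in the iterated neighbourhood. -/
theorem walk_mem_Gam {x y : V} (p : G.Walk x y) (t : ℕ) (h : p.length ≤ t) : y ∈ Gam G t x := by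
  classical
  induction p generalizing t with
  | nil => exact self_mem_Gam G t _
  | @cons a b c hab q ih =>
    rw [SimpleGraph.Walk.length_cons] at h
    obtain ⟨s, rfl⟩ : ∃ s, t = s + 1 := ⟨t - 1, by omega⟩
    rw [Gam]
    exact Finset.mem_biUnion.mpr ⟨b, adj_mem_nb G hab, ih s (by omega)⟩

/-- Small sets span forests. -/
def LS (B : ℕ) : Prop := ∀ S : Finset V, S.Nonempty → S.card ≤ B → e2 G S + 2 ≤ 2 * S.card

theorem e2_univ : e2 G Finset.univ = ∑ x, dg G x := by
  classical
  unfold e2 dg
  rw [Finset.card_eq_sum_card_fiberwise (f := fun e : V × V => e.1) (t := Finset.univ)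
    (fun _ _ => Finset.mem_coe.mpr (Finset.mem_univ _))]
  apply Finset.sum_congr rfl
  intro x _
  apply Finset.card_bij (fun e _ => e.2)
  · intro e he
    simp only [Finset.mem_filter, Finset.mem_product, Finset.mem_univ, true_and, and_self] at he ⊢
    rw [← he.2]
    exact he.1
  · intro e he e' he' heq
    simp only [Finset.mem_filter] at he he'
    exact Prod.ext (he.2.trans he'.2.symm) heq
  · intro y hy
    simp only [Finset.mem_filter, Finset.mem_univ, true_and] at hy
    exact ⟨(x, y), by simp [hy], rfl⟩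

/-- A small set not inside a long iterated neighbourhood is disconnected. -/
theorem tight (B : ℕ) (hLS : LS G B) (u w : V) (hw : w ∉ Gam G B u) (S : Finset V)
    (hu : u ∈ S) (hwS : w ∈ S) (hS : S.card ≤ B) : e2 G S + 4 ≤ 2 * S.card := by
  classical
  obtain ⟨t, htB, ht⟩ : ∃ t < B, S ∩ Gam G (t + 1) u ⊆ S ∩ Gam G t u := by
    by_contra hcon
    push Not at hcon
    have hgrow : ∀ t ≤ B, t + 1 ≤ (S ∩ Gam G t u).card := by
      intro t
      induction t with
      | zero =>
        intro _
        exact Finset.card_pos.mpr ⟨u, Finset.mem_inter.mpr ⟨hu, self_mem_Gam G 0 u⟩⟩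
      | succ t ih =>
        intro ht
        have h1 := ih (by omega)
        have h2 : S ∩ Gam G t u ⊂ S ∩ Gam G (t + 1) u := by
          refine ⟨Finset.inter_subset_inter (Finset.Subset.refl _) (Gam_succ_sub G t u), ?_⟩
          exact hcon t (by omega)
        have h3 := Finset.card_lt_card h2
        omega
    have h1 := hgrow B le_rfl
    have h2 : (S ∩ Gam G B u).card ≤ S.card := Finset.card_le_card Finset.inter_subset_left
    omega
  set S1 := S ∩ Gam G t u with hS1
  set S2 := S \ Gam G t u with hS2
  have hu1 : u ∈ S1 := Finset.mem_inter.mpr ⟨hu, self_mem_Gam G t u⟩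
  have hw2 : w ∈ S2 := Finset.mem_sdiff.mpr ⟨hwS, fun h => hw (Gam_mono G htB.le u h)⟩
  have hcard : S1.card + S2.card = S.card := by
    rw [hS1, hS2, add_comm]
    exact Finset.card_sdiff_add_card_inter S (Gam G t u)
  have h1 := hLS S1 ⟨u, hu1⟩ (by omega)
  have h2 := hLS S2 ⟨w, hw2⟩ (by omega)
  have hsplit : e2 G S ≤ e2 G S1 + e2 G S2 := by
    unfold e2
    refine le_trans (Finset.card_le_card ?_) (Finset.card_union_le _ _)
    rintro ⟨x, y⟩ hxy
    simp only [Finset.mem_filter, Finset.mem_product] at hxy
    obtain ⟨⟨hx, hy⟩, hadj⟩ := hxy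
    rw [Finset.mem_union]
    have hno : ∀ a b, a ∈ S1 → b ∈ S2 → ¬ G.Adj a b := by
      intro a b ha hb hab
      have hb1 := Gam_adj G t u a b (Finset.mem_inter.mp ha).2 hab
      have hb2 := ht (Finset.mem_inter.mpr ⟨(Finset.mem_sdiff.mp hb).1, hb1⟩)
      exact (Finset.mem_sdiff.mp hb).2 (Finset.mem_inter.mp hb2).2
    by_cases hx1 : x ∈ Gam G t u <;> by_cases hy1 : y ∈ Gam G t u
    · left
      simp only [Finset.mem_filter, Finset.mem_product]
      exact ⟨⟨Finset.mem_inter.mpr ⟨hx, hx1⟩, Finset.mem_inter.mpr ⟨hy, hy1⟩⟩, hadj⟩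
    · exact absurd hadj (hno x y (Finset.mem_inter.mpr ⟨hx, hx1⟩)
        (Finset.mem_sdiff.mpr ⟨hy, hy1⟩))
    · exact absurd hadj.symm (hno y x (Finset.mem_inter.mpr ⟨hy, hy1⟩)
        (Finset.mem_sdiff.mpr ⟨hx, hx1⟩))
    · right
      simp only [Finset.mem_filter, Finset.mem_product]
      exact ⟨⟨Finset.mem_sdiff.mpr ⟨hx, hx1⟩, Finset.mem_sdiff.mpr ⟨hy, hy1⟩⟩, hadj⟩
  omega

/-- Adding an edge. -/
def addE (u w : V) (h : u ≠ w) : SimpleGraph V where
  Adj x y := G.Adj x y ∨ (x = u ∧ y = w) ∨ (x = w ∧ y = u)
  symm := ⟨by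
    rintro x y (h | ⟨h1, h2⟩ | ⟨h1, h2⟩)
    · exact Or.inl h.symm
    · exact Or.inr (Or.inr ⟨h2, h1⟩)
    · exact Or.inr (Or.inl ⟨h2, h1⟩)⟩
  loopless := ⟨by
    rintro x (h1 | ⟨h1, h2⟩ | ⟨h1, h2⟩)
    · exact G.loopless.irrefl x h1
    · exact h (h1.symm.trans h2)
    · exact h (h2.symm.trans h1)⟩

end basic

theorem exists_sparse (Δ B : ℕ) (hB : 1 ≤ B) :
    ∃ N : ℕ, 0 < N ∧ ∃ G : SimpleGraph (Fin N), (∀ x, dg G x ≤ Δ) ∧ LS G B ∧
      Δ * N ≤ 2 * e2 G Finset.univ := by
  classical
  set N := 2 * (Δ + 1) ^ B with hN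
  have hNpos : 0 < N := by positivity
  refine ⟨N, hNpos, ?_⟩
  let s : Set (SimpleGraph (Fin N)) := {G | (∀ x, dg G x ≤ Δ) ∧ LS G B}
  have hne : s.Nonempty := by
    refine ⟨⊥, ?_, ?_⟩
    · intro x
      unfold dg
      simp
    · intro S hS _
      have : e2 (⊥ : SimpleGraph (Fin N)) S = 0 := by
        unfold e2
        simp
      rw [this]
      have := Finset.card_pos.mpr hS
      omega
  obtain ⟨G, hG, hmax⟩ := Set.exists_max_image s (fun G => e2 G Finset.univ) (Set.toFinite s) hne
  obtain ⟨hdeg, hLS⟩ := hG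
  refine ⟨G, hdeg, hLS, ?_⟩
  set Low := Finset.univ.filter (fun x => dg G x < Δ) with hLow
  have hlowcard : Low.card ≤ (Δ + 1) ^ B := by
    by_contra hcon
    push Not at hcon
    obtain ⟨u, hu⟩ : Low.Nonempty := Finset.card_pos.mp (by omega)
    have hG1 := Gam_card G Δ hdeg B u
    obtain ⟨w, hw, hwG⟩ : ∃ w ∈ Low, w ∉ Gam G B u :=
      Finset.exists_mem_notMem_of_card_lt_card (lt_of_le_of_lt hG1 hcon)
    have huw : u ≠ w := by
      intro h
      subst h
      exact hwG (self_mem_Gam G B u)
    have hnadj : ¬ G.Adj u w := by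
      intro h
      exact hwG (Gam_mono G hB u (Gam_adj G 0 u u w (self_mem_Gam G 0 u) h))
    have hdu : dg G u < Δ := (Finset.mem_filter.mp hu).2
    have hdw : dg G w < Δ := (Finset.mem_filter.mp hw).2
    have hG' : addE G u w huw ∈ s := by
      refine ⟨?_, ?_⟩
      · intro x
        by_cases hxu : x = u
        · subst hxu
          have : (Finset.univ.filter (fun y => (addE G x w huw).Adj x y)) ⊆
              insert w (Finset.univ.filter (fun y => G.Adj x y)) := by
            intro y hy
            rcases (Finset.mem_filter.mp hy).2 with h | ⟨_, h2⟩ | ⟨h1, _⟩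
            · exact Finset.mem_insert_of_mem (Finset.mem_filter.mpr ⟨Finset.mem_univ _, h⟩)
            · rw [h2]; exact Finset.mem_insert_self _ _
            · exact absurd h1 huw
          have h2 := (Finset.card_le_card this).trans (Finset.card_insert_le _ _)
          unfold dg at hdu ⊢
          omega
        · by_cases hxw : x = w
          · subst hxw
            have : (Finset.univ.filter (fun y => (addE G u x huw).Adj x y)) ⊆
                insert u (Finset.univ.filter (fun y => G.Adj x y)) := by
              intro y hy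
              rcases (Finset.mem_filter.mp hy).2 with h | ⟨h1, _⟩ | ⟨_, h2⟩
              · exact Finset.mem_insert_of_mem (Finset.mem_filter.mpr ⟨Finset.mem_univ _, h⟩)
              · exact absurd h1.symm huw
              · rw [h2]; exact Finset.mem_insert_self _ _
            have h2 := (Finset.card_le_card this).trans (Finset.card_insert_le _ _)
            unfold dg at hdw ⊢
            omega
          · have : (Finset.univ.filter (fun y => (addE G u w huw).Adj x y)) ⊆
                (Finset.univ.filter (fun y => G.Adj x y)) := by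
              intro y hy
              rcases (Finset.mem_filter.mp hy).2 with h | ⟨h1, _⟩ | ⟨h1, _⟩
              · exact Finset.mem_filter.mpr ⟨Finset.mem_univ _, h⟩
              · exact absurd h1 hxu
              · exact absurd h1 hxw
            exact (Finset.card_le_card this).trans (hdeg x)
      · intro S hS hSB
        by_cases hboth : u ∈ S ∧ w ∈ S
        · have h1 := tight G B hLS u w hwG S hboth.1 hboth.2 hSB
          have h2 : e2 (addE G u w huw) S ≤ e2 G S + 2 := by
            unfold e2
            have hsub : ((S ×ˢ S).filter (fun e => (addE G u w huw).Adj e.1 e.2)) ⊆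
                ((S ×ˢ S).filter (fun e => G.Adj e.1 e.2)) ∪ {(u, w), (w, u)} := by
              rintro ⟨x, y⟩ hxy
              obtain ⟨h3, h4⟩ := Finset.mem_filter.mp hxy
              rcases h4 with h | ⟨h5, h6⟩ | ⟨h5, h6⟩
              · exact Finset.mem_union_left _ (Finset.mem_filter.mpr ⟨h3, h⟩)
              · simp only at h5 h6
                subst h5; subst h6
                exact Finset.mem_union_right _ (by simp)
              · simp only at h5 h6
                subst h5; subst h6
                exact Finset.mem_union_right _ (by simp)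
            refine (Finset.card_le_card hsub).trans ((Finset.card_union_le _ _).trans ?_)
            exact Nat.add_le_add_left (Finset.card_le_two) _
          omega
        · have h1 := hLS S hS hSB
          have h2 : e2 (addE G u w huw) S ≤ e2 G S := by
            unfold e2
            apply Finset.card_le_card
            rintro ⟨x, y⟩ hxy
            obtain ⟨h3, h4⟩ := Finset.mem_filter.mp hxy
            have h5 := Finset.mem_product.mp h3
            rcases h4 with h | ⟨h6, h7⟩ | ⟨h6, h7⟩
            · exact Finset.mem_filter.mpr ⟨h3, h⟩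
            · simp only at h6 h7 h5
              subst h6; subst h7
              exact absurd h5 hboth
            · simp only at h6 h7 h5
              subst h6; subst h7
              exact absurd ⟨h5.2, h5.1⟩ hboth
          omega
    have hcontra := hmax _ hG'
    have hlt : e2 G Finset.univ < e2 (addE G u w huw) Finset.univ := by
      unfold e2
      apply Finset.card_lt_card
      constructor
      · intro e he
        obtain ⟨h3, h4⟩ := Finset.mem_filter.mp he
        exact Finset.mem_filter.mpr ⟨h3, Or.inl h4⟩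
      · intro hsub
        have : (u, w) ∈ ((Finset.univ ×ˢ Finset.univ).filter
            (fun e : Fin N × Fin N => (addE G u w huw).Adj e.1 e.2)) := by
          refine Finset.mem_filter.mpr ⟨by simp, Or.inr (Or.inl ⟨rfl, rfl⟩)⟩
        have h2 := hsub this
        exact hnadj (Finset.mem_filter.mp h2).2
    have hcontra2 : e2 (addE G u w huw) Finset.univ ≤ e2 G Finset.univ := hcontra
    omega
  rw [e2_univ]
  have h1 : Δ * (Finset.univ \ Low).card ≤ ∑ x, dg G x := by
    calc Δ * (Finset.univ \ Low).card = ∑ _x ∈ Finset.univ \ Low, Δ := by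
          rw [Finset.sum_const, smul_eq_mul, mul_comm]
      _ ≤ ∑ x ∈ Finset.univ \ Low, dg G x := by
          apply Finset.sum_le_sum
          intro x hx
          have h2 := (Finset.mem_sdiff.mp hx).2
          by_contra h3
          push Not at h3
          exact h2 (Finset.mem_filter.mpr ⟨Finset.mem_univ _, h3⟩)
      _ ≤ ∑ x, dg G x := Finset.sum_le_sum_of_subset (Finset.subset_univ _)
  have h2 : (Finset.univ \ Low).card + Low.card = N := by
    rw [Finset.card_sdiff_add_card_eq_card (Finset.subset_univ _), Finset.card_univ,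
      Fintype.card_fin]
  have h3 : N ≤ 2 * (Finset.univ \ Low).card := by omega
  calc Δ * N ≤ Δ * (2 * (Finset.univ \ Low).card) := Nat.mul_le_mul_left _ h3
    _ = 2 * (Δ * (Finset.univ \ Low).card) := by ring
    _ ≤ 2 * ∑ x, dg G x := Nat.mul_le_mul_left _ h1

end Pool.Agent.H856R3
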