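import Mathlib
import Pool.Agent.H856R3.AsdBase
import Pool.Agent.H856R3.AsdStep
import Pool.Agent.H856R3.AsdIter
import Pool.Agent.H856R3.AsdSparse

set_option autoImplicit false

/-!
The final contradiction: many spiders on a common leaf set contain subdivisions
of a sparse-locally, dense-globally graph, which needs many colours.
-/

namespace Pool.Agent.H856R3

section legs

variable {V : Type} {N : ℕ} (M : SimpleGraph V) (G0 : SimpleGraph (Fin N)) (z : Fin N → V)
  (ℓ : Fin N × Fin N → ℕ) (anc : Fin N × Fin N → ℕ → V → V)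

/-- The union of the legs. -/
def legG : SimpleGraph V where
  Adj x y := M.Adj x y ∧ ∃ p q s a, G0.Adj p q ∧ (s = p ∨ s = q) ∧ a < ℓ (p, q) ∧
    ((x = anc (p, q) a (z s) ∧ y = anc (p, q) (a + 1) (z s)) ∨
      (y = anc (p, q) a (z s) ∧ x = anc (p, q) (a + 1) (z s)))
  symm := ⟨by
    rintro x y ⟨h0, p, q, s, a, h1, h2, h3, h4⟩
    exact ⟨h0.symm, p, q, s, a, h1, h2, h3, h4.symm⟩⟩
  loopless := ⟨by
    rintro x ⟨h0, _⟩
    exact M.loopless.irrefl x h0⟩

theorem legG_le : legG M G0 z ℓ anc ≤ M := fun _ _ h => h.1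

/-- Association of vertices of the leg graph with vertices of `G0`. -/
def As (v : V) (s : Fin N) : Prop :=
  v = z s ∨ ∃ p q a, G0.Adj p q ∧ (s = p ∨ s = q) ∧ 1 ≤ a ∧ a ≤ ℓ (p, q) ∧
    v = anc (p, q) a (z s)

end legs

theorem no_spiders {V : Type} [Fintype V] [DecidableEq V] (M : SimpleGraph V) (d : ℕ)
    (f : ℕ → ℕ) (hM : SAD M d f) (R : ℕ) (N : ℕ) (hN : 0 < N) (G0 : SimpleGraph (Fin N))
    (hdeg : ∀ x, dg G0 x ≤ 8 * (d + 1))
    (hLS : LS G0 ((8 * (d + 1) + 1) ^ (f (2 * R) + 1)))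
    (hmany : 8 * (d + 1) * N ≤ 2 * e2 G0 Finset.univ)
    (Z : Finset V) (hZ : N ≤ Z.card) (L : List (Finset V)) (hL : N * N ≤ L.length)
    (hpair : L.Pairwise Disjoint) (hspd : ∀ W ∈ L, Disjoint Z W ∧ Spd M R Z W) : False := by
  classical
  -- injection of the vertices
  obtain ⟨zE⟩ : Nonempty (Fin N ↪ Z) := by
    apply Function.Embedding.nonempty_of_card_le
    simpa using hZ
  let z : Fin N → V := fun i => (zE i : V)
  have hzZ : ∀ i, z i ∈ Z := fun i => (zE i).2
  have hzinj : Function.Injective z := fun i j h => zE.injective (Subtype.ext h)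
  -- regions
  have hidx : ∀ j : Fin N × Fin N, (finProdFinEquiv j).val < L.length :=
    fun j => lt_of_lt_of_le (finProdFinEquiv j).isLt hL
  let Wf : Fin N × Fin N → Finset V := fun j => L.get ⟨(finProdFinEquiv j).val, hidx j⟩
  have hWmem : ∀ j, Wf j ∈ L := fun j => List.get_mem _ _
  have hWdisj : ∀ j j', j ≠ j' → Disjoint (Wf j) (Wf j') := by
    intro j j' hne
    have hne2 : (finProdFinEquiv j).val ≠ (finProdFinEquiv j').val := by
      intro h
      exact hne (finProdFinEquiv.injective (Fin.ext h))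
    rw [List.pairwise_iff_get] at hpair
    rcases Nat.lt_or_gt_of_ne hne2 with h | h
    · exact hpair ⟨_, hidx j⟩ ⟨_, hidx j'⟩ h
    · exact (hpair ⟨_, hidx j'⟩ ⟨_, hidx j⟩ h).symm
  have hZW : ∀ j, Disjoint Z (Wf j) := fun j => (hspd _ (hWmem j)).1
  have hS : ∀ j, Spd M R Z (Wf j) := fun j => (hspd _ (hWmem j)).2
  choose ℓ hℓ1 hℓR anc h0 hadj hreg hinj hlev hconst using hS
  let S := legG M G0 z ℓ anc
  have hAsAdj : ∀ x y, S.Adj x y → ∃ s, As G0 z ℓ anc x s ∧ As G0 z ℓ anc y s := by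
    rintro x y ⟨_, p, q, s, a, h1, h2, h3, h4⟩
    have hlow : As G0 z ℓ anc (anc (p, q) a (z s)) s := by
      by_cases ha : a = 0
      · left
        rw [ha]
        exact h0 (p, q) (z s) (hzZ s)
      · right
        exact ⟨p, q, a, h1, h2, by omega, h3.le, rfl⟩
    have hup : As G0 z ℓ anc (anc (p, q) (a + 1) (z s)) s :=
      Or.inr ⟨p, q, a + 1, h1, h2, by omega, h3, rfl⟩
    rcases h4 with ⟨h5, h6⟩ | ⟨h5, h6⟩
    · exact ⟨s, h5 ▸ hlow, h6 ▸ hup⟩
    · exact ⟨s, h6 ▸ hup, h5 ▸ hlow⟩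
  have hAsEq : ∀ v s s', As G0 z ℓ anc v s → As G0 z ℓ anc v s' → s = s' ∨ G0.Adj s s' := by
    intro v s s' hs hs'
    have hmem : ∀ p q a t, 1 ≤ a → a ≤ ℓ (p, q) → anc (p, q) a (z t) ∈ Wf (p, q) :=
      fun p q a t ha1 ha2 => hreg (p, q) (z t) (hzZ t) a ha1 ha2
    rcases hs with hs | ⟨p, q, a, h1, h2, h3, h4, h5⟩
    · rcases hs' with hs' | ⟨p', q', a', h1', h2', h3', h4', h5'⟩
      · left
        exact hzinj (hs.symm.trans hs')
      · exfalso
        have := hmem p' q' a' s' h3' h4'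
        rw [← h5', hs] at this
        exact Finset.disjoint_left.mp (hZW (p', q')) (hzZ s) this
    · rcases hs' with hs' | ⟨p', q', a', h1', h2', h3', h4', h5'⟩
      · exfalso
        have := hmem p q a s h3 h4
        rw [← h5, hs'] at this
        exact Finset.disjoint_left.mp (hZW (p, q)) (hzZ s') this
      · have m1 := hmem p q a s h3 h4
        have m2 := hmem p' q' a' s' h3' h4'
        rw [← h5] at m1
        rw [← h5'] at m2
        have hpq : (p, q) = (p', q') := by
          by_contra hne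
          exact Finset.disjoint_left.mp (hWdisj _ _ hne) m1 m2
        rw [Prod.mk.injEq] at hpq
        obtain ⟨rfl, rfl⟩ := hpq
        have haa : a = a' := hlev (p, q) (z s) (hzZ s) (z s') (hzZ s') a h4 a' h4'
          (h5.symm.trans h5')
        subst haa
        by_cases halt : a < ℓ (p, q)
        · left
          exact hzinj (hinj (p, q) (z s) (hzZ s) (z s') (hzZ s') a halt (h5.symm.trans h5'))
        · rcases h2 with rfl | rfl <;> rcases h2' with rfl | rfl
          · left; rfl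
          · right; exact h1
          · right; exact h1.symm
          · left; rfl
  have hwalk : ∀ {x y : V} (p : S.Walk x y) (s : Fin N), As G0 z ℓ anc x s →
      ∃ s', As G0 z ℓ anc y s' ∧ ∃ q : G0.Walk s s', q.length ≤ p.length := by
    intro x y p
    induction p with
    | nil =>
      intro s hs
      exact ⟨s, hs, SimpleGraph.Walk.nil, by simp⟩
    | @cons x x1 y hx q ih =>
      intro s hs
      obtain ⟨t, ht1, ht2⟩ := hAsAdj x x1 hx
      obtain ⟨s', hs', w, hw⟩ := ih t ht2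
      rcases hAsEq x s t hs ht1 with h | h
      · subst h
        refine ⟨s', hs', w, ?_⟩
        rw [SimpleGraph.Walk.length_cons]
        omega
      · refine ⟨s', hs', SimpleGraph.Walk.cons h w, ?_⟩
        rw [SimpleGraph.Walk.length_cons, SimpleGraph.Walk.length_cons]
        omega
  -- distances along legs
  have hleg : ∀ p q s, G0.Adj p q → (s = p ∨ s = q) → ∀ a ≤ ℓ (p, q),
      S.edist (z s) (anc (p, q) a (z s)) ≤ (a : ℕ∞) := by
    intro p q s hpq hs a
    induction a with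
    | zero =>
      intro _
      rw [h0 (p, q) (z s) (hzZ s)]
      simp
    | succ a ih =>
      intro ha
      have h1 := ih (by omega)
      have h2 : S.Adj (anc (p, q) a (z s)) (anc (p, q) (a + 1) (z s)) :=
        ⟨hadj (p, q) (z s) (hzZ s) a (by omega), p, q, s, a, hpq, hs, by omega,
          Or.inl ⟨rfl, rfl⟩⟩
      calc S.edist (z s) (anc (p, q) (a + 1) (z s))
          ≤ S.edist (z s) (anc (p, q) a (z s)) +
            S.edist (anc (p, q) a (z s)) (anc (p, q) (a + 1) (z s)) :=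
            SimpleGraph.edist_triangle
        _ ≤ (a : ℕ∞) + 1 := add_le_add h1 (edist_adj _ h2)
        _ = ((a + 1 : ℕ) : ℕ∞) := by push_cast; rfl
  let u : Fin N × Fin N → V := fun j => anc j (ℓ j) (z j.1)
  have hu : ∀ p q s, G0.Adj p q → (s = p ∨ s = q) → S.edist (z s) (u (p, q)) ≤ (R : ℕ∞) := by
    intro p q s hpq hs
    have h1 := hleg p q s hpq hs (ℓ (p, q)) le_rfl
    have h2 : anc (p, q) (ℓ (p, q)) (z s) = u (p, q) :=
      hconst (p, q) (z s) (hzZ s) (z p) (hzZ p)
    rw [h2] at h1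
    exact h1.trans (by exact_mod_cast hℓR (p, q))
  have huAs : ∀ p q s, G0.Adj p q → (s = p ∨ s = q) → As G0 z ℓ anc (u (p, q)) s := by
    intro p q s hpq hs
    refine Or.inr ⟨p, q, ℓ (p, q), hpq, hs, hℓ1 (p, q), le_rfl, ?_⟩
    exact hconst (p, q) (z p) (hzZ p) (z s) (hzZ s)
  obtain ⟨c, hc⟩ := hM S (legG_le M G0 z ℓ anc) (2 * R)
  let rep : Fin N × Fin N → V := fun j => rp S c (2 * R) (u j)
  let Ew : V → Finset (Fin N × Fin N) := fun w =>
    (((Finset.univ : Finset (Fin N)) ×ˢ (Finset.univ : Finset (Fin N))).filter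
      (fun e => G0.Adj e.1 e.2)).filter (fun e => rep e = w)
  let Vw : V → Finset (Fin N) := fun w => (Ew w).image Prod.fst ∪ (Ew w).image Prod.snd
  have hEw : ∀ w e, e ∈ Ew w → G0.Adj e.1 e.2 ∧ rep e = w := by
    intro w e he
    have h1 := Finset.mem_filter.mp he
    exact ⟨(Finset.mem_filter.mp h1.1).2, h1.2⟩
  have hsum : ∑ w, (Ew w).card = e2 G0 Finset.univ := by
    unfold e2
    exact (Finset.card_eq_sum_card_fiberwise (f := fun e : Fin N × Fin N => rep e)
      (t := Finset.univ) (fun _ _ => Finset.mem_coe.mpr (Finset.mem_univ _))).symm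
  have hVmem : ∀ w s, s ∈ Vw w → ∃ p q, (p, q) ∈ Ew w ∧ (s = p ∨ s = q) := by
    intro w s hs
    rcases Finset.mem_union.mp hs with h | h
    · obtain ⟨e, he, rfl⟩ := Finset.mem_image.mp h
      exact ⟨e.1, e.2, he, Or.inl rfl⟩
    · obtain ⟨e, he, rfl⟩ := Finset.mem_image.mp h
      exact ⟨e.1, e.2, he, Or.inr rfl⟩
  have hVsum : ∑ w, (Vw w).card ≤ (d + 1) * N := by
    have := double_count (d + 1) Vw c (Finset.univ : Finset (Fin N))
      (fun w => Finset.subset_univ _) ?_
    · simpa using this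
    · intro s w w' hs hs' hcc
      obtain ⟨p, q, he, hsp⟩ := hVmem w s hs
      obtain ⟨p', q', he', hsp'⟩ := hVmem w' s hs'
      obtain ⟨ha, hr⟩ := hEw _ _ he
      obtain ⟨ha', hr'⟩ := hEw _ _ he'
      rw [← hr, ← hr']
      have hd : S.edist (u (p, q)) (u (p', q')) ≤ ((2 * R : ℕ) : ℕ∞) := by
        calc S.edist (u (p, q)) (u (p', q'))
            ≤ S.edist (u (p, q)) (z s) + S.edist (z s) (u (p', q')) :=
              SimpleGraph.edist_triangle
          _ ≤ (R : ℕ∞) + (R : ℕ∞) := by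
              apply add_le_add
              · rw [SimpleGraph.edist_comm]
                exact hu p q s ha hsp
              · exact hu p' q' s ha' hsp'
          _ = ((2 * R : ℕ) : ℕ∞) := by push_cast; ring
      have hcol : c (u (p, q)) = c (u (p', q')) := by
        have h3 : c (rep (p, q)) = c (u (p, q)) := rp_color _ _ _ _
        have h4 : c (rep (p', q')) = c (u (p', q')) := rp_color _ _ _ _
        rw [← h3, ← h4, hr, hr', hcc]
      exact (rp_eq_iff _ _ _ _ _).mpr (Relation.ReflTransGen.single ⟨hcol, hd⟩)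
  have hEV : ∀ w, (Ew w).card ≤ 2 * (Vw w).card := by
    intro w
    by_cases hne : (Ew w).Nonempty
    · obtain ⟨⟨p0, q0⟩, he0⟩ := hne
      have hVne : (Vw w).Nonempty :=
        ⟨p0, Finset.mem_union_left _ (Finset.mem_image.mpr ⟨(p0, q0), he0, rfl⟩)⟩
      have hsub : Vw w ⊆ Gam G0 (f (2 * R) + 1) p0 := by
        intro s hs
        obtain ⟨p, q, he, hsp⟩ := hVmem w s hs
        obtain ⟨ha, hr⟩ := hEw _ _ he
        obtain ⟨ha0, hr0⟩ := hEw _ _ he0
        have hrel : clsR S c (2 * R) (u (p0, q0)) (u (p, q)) :=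
          (rp_eq_iff _ _ _ _ _).mp (hr0.trans hr.symm)
        have hd := hc _ _ hrel
        obtain ⟨pw, hpw⟩ := (edist_le_iff_walk _ _ _ _).mp hd
        obtain ⟨s', hs', g, hg⟩ := hwalk pw p0 (huAs p0 q0 p0 ha0 (Or.inl rfl))
        have hmemG : s' ∈ Gam G0 (f (2 * R)) p0 := walk_mem_Gam G0 g _ (hg.trans hpw)
        rcases hAsEq _ s' s hs' (huAs p q s ha hsp) with h | h
        · rw [← h]
          exact Gam_succ_sub G0 _ _ hmemG
        · exact Gam_adj G0 _ _ _ _ hmemG h
      have hcardV : (Vw w).card ≤ (8 * (d + 1) + 1) ^ (f (2 * R) + 1) :=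
        (Finset.card_le_card hsub).trans (Gam_card G0 _ hdeg _ _)
      have h1 := hLS (Vw w) hVne hcardV
      have h2 : (Ew w).card ≤ e2 G0 (Vw w) := by
        unfold e2
        apply Finset.card_le_card
        intro e he
        refine Finset.mem_filter.mpr ⟨Finset.mem_product.mpr ⟨?_, ?_⟩, (hEw _ _ he).1⟩
        · exact Finset.mem_union_left _ (Finset.mem_image.mpr ⟨e, he, rfl⟩)
        · exact Finset.mem_union_right _ (Finset.mem_image.mpr ⟨e, he, rfl⟩)
      omega
    · rw [Finset.not_nonempty_iff_eq_empty] at hne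
      rw [hne]
      simp
  have hfinal : e2 G0 Finset.univ ≤ 2 * ((d + 1) * N) := by
    rw [← hsum]
    calc ∑ w, (Ew w).card ≤ ∑ w, 2 * (Vw w).card := Finset.sum_le_sum (fun w _ => hEV w)
      _ = 2 * ∑ w, (Vw w).card := by rw [Finset.mul_sum]
      _ ≤ 2 * ((d + 1) * N) := Nat.mul_le_mul_left _ hVsum
  have hpos : 0 < (d + 1) * N := by positivity
  nlinarith

/-- The degree bound. -/
theorem degree_bound (d : ℕ) (f : ℕ → ℕ) : ∃ g : ℕ, ∀ (k : ℕ) (M : SimpleGraph (Fin k)),
    SAD M d f → M.edgeSet.ncard ≤ g * k := by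
  classical
  obtain ⟨N, hN, G0, hdeg, hLS, hmany⟩ := exists_sparse (8 * (d + 1))
    ((8 * (d + 1) + 1) ^ (f (2 * (f 2 + 1)) + 1)) (Nat.one_le_pow _ _ (by omega))
  set δ := gs (f 2 + 1) N (N * N) with hδ
  have hδpos : 0 < δ := gs_pos _ _ _
  set c1 := ((d + 1) * ((f 2 + 2) * (f 2 + 2))) ^ (N * N + N * N) * δ with hc1
  refine ⟨c1 * 2, ?_⟩
  intro k M hM
  set E : Finset (Fin k × Fin k) := (Finset.univ ×ˢ Finset.univ).filter
    (fun e => M.Adj e.1 e.2) with hE
  have hedge : M.edgeSet.ncard ≤ E.card := by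
    have hsub : M.edgeSet ⊆ ((E.image (fun e => s(e.1, e.2)) : Finset (Sym2 (Fin k))) :
        Set (Sym2 (Fin k))) := by
      intro e he
      induction e using Sym2.ind with
      | _ x y =>
        rw [SimpleGraph.mem_edgeSet] at he
        refine Finset.mem_coe.mpr (Finset.mem_image.mpr ⟨(x, y), ?_, rfl⟩)
        exact Finset.mem_filter.mpr ⟨by simp, he⟩
    calc M.edgeSet.ncard ≤ _ := Set.ncard_le_ncard hsub (Finset.finite_toSet _)
      _ = (E.image (fun e => s(e.1, e.2))).card := Set.ncard_coe_finset _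
      _ ≤ E.card := Finset.card_image_le
  refine hedge.trans ?_
  by_contra hcon
  push Not at hcon
  have hne : E.Nonempty := Finset.card_pos.mp (by omega)
  have hEadj : ∀ e ∈ E, M.Adj e.1 e.2 := fun e he => (Finset.mem_filter.mp he).2
  have hden : (((d + 1) * ((f 2 + 2) * (f 2 + 2))) ^ (N * N + N * N) * δ) *
      (Fintype.card (Fin k) + Fintype.card (Fin k)) ≤ E.card := by
    rw [Fintype.card_fin, ← hc1]
    have : c1 * (k + k) = c1 * 2 * k := by ring
    omega
  obtain ⟨Z, L, hZ, hL, hpair, hcov⟩ := many_cov M d f hM δ hδpos (N * N) E hEadj hne hden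
  set L' := L.take (N * N) with hL'
  have hlen : L'.length = N * N := by
    rw [hL', List.length_take]
    omega
  have hsubL : ∀ W ∈ L', W ∈ L := fun W hW => List.mem_of_mem_take hW
  have hpair' : L'.Pairwise Disjoint := hpair.sublist (List.take_sublist _ _)
  obtain ⟨Z', hZ', hN', hspd⟩ := spiders M (f 2 + 1) N L' Z
    (fun W hW => (hcov W (hsubL W hW)).2) (by rw [hlen]; exact hZ)
  refine no_spiders M d f hM (f 2 + 1) N hN G0 hdeg hLS hmany Z' hN' L' (by rw [hlen]) hpair' ?_
  intro W hW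
  exact ⟨Finset.disjoint_of_subset_left hZ' (hcov W (hsubL W hW)).1, hspd W hW⟩

end Pool.Agent.H856R3
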