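import Mathlib
import Pool.Agent.H856R3.AsdBase

set_option autoImplicit false

/-!
Shallow minors inherit control of asymptotic dimension.
-/

namespace Pool.Agent.H856R3

section minor

variable {m k : ℕ} (G : SimpleGraph (Fin m)) (M : SimpleGraph (Fin k))
  (B : Fin k → Finset (Fin m))

/-- The subgraph of `G` made of the branch sets and the used connections. -/
def mG : SimpleGraph (Fin m) where
  Adj x y := G.Adj x y ∧ ((∃ i, x ∈ B i ∧ y ∈ B i) ∨ (∃ i j, M.Adj i j ∧ x ∈ B i ∧ y ∈ B j))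
  symm := ⟨by
    rintro x y ⟨h1, h2⟩
    refine ⟨h1.symm, ?_⟩
    rcases h2 with ⟨i, h3, h4⟩ | ⟨i, j, h3, h4, h5⟩
    · exact Or.inl ⟨i, h4, h3⟩
    · exact Or.inr ⟨j, i, h3.symm, h5, h4⟩⟩
  loopless := ⟨by
    rintro x ⟨h1, _⟩
    exact G.loopless.irrefl x h1⟩

theorem mG_le : mG G M B ≤ G := fun _ _ h => h.1

theorem mG_in (i : Fin k) {a b : Fin m} (p : G.Walk a b) (hp : ∀ y ∈ p.support, y ∈ B i) :
    (mG G M B).edist a b ≤ (p.length : ℕ∞) := by
  induction p with
  | nil => simp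
  | @cons a c b h q ih =>
    have ha : a ∈ B i := hp a (by simp)
    have hc : c ∈ B i := hp c (by simp)
    have hq := ih (fun y hy => hp y (by simp [hy]))
    have hadj : (mG G M B).Adj a c := ⟨h, Or.inl ⟨i, ha, hc⟩⟩
    have h1 : (mG G M B).edist a c ≤ 1 := by
      have := SimpleGraph.edist_le (SimpleGraph.Walk.cons hadj SimpleGraph.Walk.nil)
      simpa using this
    calc (mG G M B).edist a b ≤ (mG G M B).edist a c + (mG G M B).edist c b :=
          SimpleGraph.edist_triangle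
      _ ≤ 1 + (q.length : ℕ∞) := add_le_add h1 hq
      _ = ((SimpleGraph.Walk.cons h q).length : ℕ∞) := by
          rw [SimpleGraph.Walk.length_cons]; push_cast; ring

theorem mG_proj (hdisj : ∀ i j, i ≠ j → Disjoint (B i) (B j)) {x y : Fin m}
    (p : (mG G M B).Walk x y) : ∀ i j, x ∈ B i → y ∈ B j → M.edist i j ≤ (p.length : ℕ∞) := by
  have huniq : ∀ i j z, z ∈ B i → z ∈ B j → i = j := by
    intro i j z hi hj
    by_contra hne
    exact Finset.disjoint_left.mp (hdisj i j hne) hi hj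
  induction p with
  | nil =>
    intro i j hi hj
    have := huniq i j _ hi hj
    subst this
    simp
  | @cons a c b h q ih =>
    intro i j hi hj
    have hlen : ((SimpleGraph.Walk.cons h q).length : ℕ∞) = 1 + (q.length : ℕ∞) := by
      rw [SimpleGraph.Walk.length_cons]; push_cast; ring
    rw [hlen]
    rcases h.2 with ⟨i0, h3, h4⟩ | ⟨i0, j0, h3, h4, h5⟩
    · have := huniq i i0 _ hi h3
      subst this
      exact (ih i j h4 hj).trans (le_add_of_nonneg_left bot_le)
    · have := huniq i i0 _ hi h4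
      subst this
      have h1 : M.edist i j0 ≤ 1 := by
        have := SimpleGraph.edist_le (SimpleGraph.Walk.cons h3 SimpleGraph.Walk.nil)
        simpa using this
      exact SimpleGraph.edist_triangle.trans (add_le_add h1 (ih j0 j h5 hj))

theorem SAD_minor (d : ℕ) (f : ℕ → ℕ) (hG : SAD G d f) (r : ℕ) (ctr : Fin k → Fin m)
    (hdisj : ∀ i j, i ≠ j → Disjoint (B i) (B j)) (hctr : ∀ i, ctr i ∈ B i)
    (hrad : ∀ i, ∀ x ∈ B i, ∃ p : G.Walk (ctr i) x, p.length ≤ r ∧ ∀ y ∈ p.support, y ∈ B i)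
    (hadj : ∀ i j, M.Adj i j → ∃ x ∈ B i, ∃ y ∈ B j, G.Adj x y) :
    SAD M d (fun ρ => f ((2 * r + 1) * ρ)) := by
  intro M' hM' ρ
  obtain ⟨c, hc⟩ := hG (mG G M' B) (mG_le G M' B) ((2 * r + 1) * ρ)
  refine ⟨fun i => c (ctr i), ?_⟩
  -- one step
  have hstep : ∀ i j, M'.Adj i j → (mG G M' B).edist (ctr i) (ctr j) ≤ ((2 * r + 1 : ℕ) : ℕ∞) := by
    intro i j hij
    obtain ⟨x, hx, y, hy, hxy⟩ := hadj i j (hM' hij)
    obtain ⟨p, hp1, hp2⟩ := hrad i x hx
    obtain ⟨q, hq1, hq2⟩ := hrad j y hy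
    have e1 : (mG G M' B).edist (ctr i) x ≤ (r : ℕ∞) :=
      (mG_in G M' B i p hp2).trans (by exact_mod_cast hp1)
    have e2 : (mG G M' B).edist y (ctr j) ≤ (r : ℕ∞) := by
      rw [SimpleGraph.edist_comm]
      exact (mG_in G M' B j q hq2).trans (by exact_mod_cast hq1)
    have hadj2 : (mG G M' B).Adj x y := ⟨hxy, Or.inr ⟨i, j, hij, hx, hy⟩⟩
    have e3 : (mG G M' B).edist x y ≤ 1 := by
      have := SimpleGraph.edist_le (SimpleGraph.Walk.cons hadj2 SimpleGraph.Walk.nil)
      simpa using this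
    calc (mG G M' B).edist (ctr i) (ctr j)
        ≤ (mG G M' B).edist (ctr i) x + (mG G M' B).edist x (ctr j) :=
          SimpleGraph.edist_triangle
      _ ≤ (mG G M' B).edist (ctr i) x + ((mG G M' B).edist x y + (mG G M' B).edist y (ctr j)) := by
          gcongr; exact SimpleGraph.edist_triangle
      _ ≤ (r : ℕ∞) + (1 + (r : ℕ∞)) := by gcongr
      _ = ((2 * r + 1 : ℕ) : ℕ∞) := by push_cast; ring
  have hwalk : ∀ {i j : Fin k} (p : M'.Walk i j),
      (mG G M' B).edist (ctr i) (ctr j) ≤ (((2 * r + 1) * p.length : ℕ) : ℕ∞) := by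
    intro i j p
    induction p with
    | nil => simp
    | @cons a b e h q ih =>
      calc (mG G M' B).edist (ctr a) (ctr e)
          ≤ (mG G M' B).edist (ctr a) (ctr b) + (mG G M' B).edist (ctr b) (ctr e) :=
            SimpleGraph.edist_triangle
        _ ≤ ((2 * r + 1 : ℕ) : ℕ∞) + (((2 * r + 1) * q.length : ℕ) : ℕ∞) :=
            add_le_add (hstep a b h) ih
        _ = (((2 * r + 1) * (SimpleGraph.Walk.cons h q).length : ℕ) : ℕ∞) := by
            rw [SimpleGraph.Walk.length_cons]; push_cast; ring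
  intro u v huv
  have hlift : Relation.ReflTransGen
      (fun a b => c a = c b ∧ (mG G M' B).edist a b ≤ ((((2 * r + 1) * ρ : ℕ)) : ℕ∞))
      (ctr u) (ctr v) := by
    refine Relation.ReflTransGen.lift (f := ctr) ?_ _ _ huv
    rintro a b ⟨h1, h2⟩
    refine ⟨h1, ?_⟩
    obtain ⟨p, hp⟩ := (edist_le_iff_walk M' a b ρ).mp h2
    refine (hwalk p).trans ?_
    exact_mod_cast Nat.mul_le_mul_left _ hp
  have h3 := hc _ _ hlift
  obtain ⟨p, hp⟩ := (edist_le_iff_walk _ _ _ _).mp h3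
  exact (mG_proj G M' B hdisj p u v (hctr u) (hctr v)).trans (by exact_mod_cast hp)

end minor

end Pool.Agent.H856R3
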