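import Pool.Agent.H856R3.GcolBasic

namespace Pool.Agent.H856R3

open Classical

variable {VB VD : Type}

/-- lexicographic order on `VB ⊕ (T × VD)` -/
noncomputable def attachOrder (σB : LinearOrder VB) (T : Set VB) (σD : LinearOrder VD) :
    LinearOrder (VB ⊕ (T × VD)) :=
  letI := σB
  letI := σD
  LinearOrder.lift' (fun x : VB ⊕ (T × VD) =>
    (Sum.elim (fun a => toLex (Sum.inl a)) (fun p => toLex (Sum.inr (toLex p))) x :
      VB ⊕ₗ (T ×ₗ VD))) (by
    rintro (a | p) (b | q) h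
    · simpa using h
    · simp at h
    · simp at h
    · simpa using h)

lemma attach_inl_inl (σB : LinearOrder VB) (T : Set VB) (σD : LinearOrder VD) (a b : VB) :
    (attachOrder σB T σD).lt (Sum.inl a) (Sum.inl b) ↔ σB.lt a b := by
  letI := σB
  letI := σD
  change (toLex (Sum.inl a) : VB ⊕ₗ (T ×ₗ VD)) < toLex (Sum.inl b) ↔ a < b
  exact Sum.Lex.inl_lt_inl_iff

lemma attach_inl_inr (σB : LinearOrder VB) (T : Set VB) (σD : LinearOrder VD) (a : VB)
    (p : T × VD) : (attachOrder σB T σD).lt (Sum.inl a) (Sum.inr p) := by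
  letI := σB
  letI := σD
  change (toLex (Sum.inl a) : VB ⊕ₗ (T ×ₗ VD)) < toLex (Sum.inr (toLex p))
  exact Sum.Lex.inl_lt_inr _ _

lemma attach_inr_inr (σB : LinearOrder VB) (T : Set VB) (σD : LinearOrder VD) (t : T)
    (d d' : VD) : (attachOrder σB T σD).lt (Sum.inr (t, d)) (Sum.inr (t, d')) ↔ σD.lt d d' := by
  letI := σB
  letI := σD
  change (toLex (Sum.inr (toLex (t, d))) : VB ⊕ₗ (T ×ₗ VD)) < toLex (Sum.inr (toLex (t, d'))) ↔
    d < d'
  rw [Sum.Lex.inr_lt_inr_iff, Prod.Lex.toLex_lt_toLex]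
  simp

/-- attach to every `t ∈ T` a copy of the graph `GD`, joining `t` to the ports of the copy -/
def attachGraph (GB : SimpleGraph VB) (T : Set VB) (GD : SimpleGraph VD) (port : VD → Prop) :
    SimpleGraph (VB ⊕ (T × VD)) where
  Adj x y := match x, y with
    | Sum.inl a, Sum.inl b => GB.Adj a b
    | Sum.inl a, Sum.inr p => a = p.1 ∧ port p.2
    | Sum.inr p, Sum.inl a => a = p.1 ∧ port p.2
    | Sum.inr p, Sum.inr q => p.1 = q.1 ∧ GD.Adj p.2 q.2
  symm := ⟨by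
    rintro (a | p) (b | q) h
    · exact SimpleGraph.Adj.symm (G := GB) h
    · exact h
    · exact h
    · exact ⟨h.1.symm, SimpleGraph.Adj.symm (G := GD) h.2⟩⟩
  loopless := ⟨by
    rintro (a | p) h
    · exact GB.loopless.irrefl a h
    · exact GD.loopless.irrefl p.2 h.2⟩

section
variable {σB : LinearOrder VB} {T : Set VB} {σD : LinearOrder VD} {GB : SimpleGraph VB}
  {GD : SimpleGraph VD} {port : VD → Prop}

/-- retraction to the base -/
def retr (x : VB ⊕ (T × VD)) : VB := Sum.elim id (fun p => (p.1 : VB)) x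

lemma up_base {y : VB} {m : ℕ} {w : VB ⊕ (T × VD)}
    (h : Up (attachOrder σB T σD) (attachGraph GB T GD port) (Sum.inl y) m w) :
    Up σB GB y m (retr w) := by
  induction h with
  | base => exact Up.base
  | stay _ ih => exact Up.stay ih
  | @step m w w' _ hadj hlt ih =>
    rcases w with a | p <;> rcases w' with b | q
    · exact Up.step ih hadj (fun h => hlt ((attach_inl_inl σB T σD _ _).2 h))
    · have h1 : a = q.1 := hadj.1
      have h2 : retr (Sum.inr q : VB ⊕ (T × VD)) = retr (Sum.inl a : VB ⊕ (T × VD)) := by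
        simp [retr, h1]
      rw [h2]; exact Up.stay ih
    · have h1 : b = p.1 := hadj.1
      have h2 : retr (Sum.inl b : VB ⊕ (T × VD)) = retr (Sum.inr p : VB ⊕ (T × VD)) := by
        simp [retr, h1]
      rw [h2]; exact Up.stay ih
    · have h1 : p.1 = q.1 := hadj.1
      have h2 : retr (Sum.inr q : VB ⊕ (T × VD)) = retr (Sum.inr p : VB ⊕ (T × VD)) := by
        simp [retr, h1]
      rw [h2]; exact Up.stay ih

lemma up_copy {t : T} {y : VD} {m : ℕ} {w : VB ⊕ (T × VD)}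
    (h : Up (attachOrder σB T σD) (attachGraph GB T GD port) (Sum.inr (t, y)) m w) :
    ∃ d, w = Sum.inr (t, d) ∧ Up σD GD y m d := by
  induction h with
  | base => exact ⟨y, rfl, Up.base⟩
  | stay _ ih =>
    obtain ⟨d, hd, hu⟩ := ih
    exact ⟨d, hd, Up.stay hu⟩
  | @step m w w' _ hadj hlt ih =>
    obtain ⟨d, hd, hu⟩ := ih
    subst hd
    rcases w' with b | q
    · exact absurd (attach_inl_inr σB T σD b (t, y)) hlt
    · obtain ⟨q1, q2⟩ := q
      have h1 : t = q1 := hadj.1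
      subst h1
      exact ⟨q2, rfl, Up.step hu hadj.2 (fun h => hlt ((attach_inr_inr σB T σD _ _ _).2 h))⟩

lemma wsr_base (y : VB) (j : ℕ) :
    WSR (attachOrder σB T σD) (attachGraph GB T GD port) j (Sum.inl y) ⊆
      Sum.inl '' (WSR σB GB j y) := by
  rintro u (hu | ⟨hlt, m, w, hm, hup, hadj⟩)
  · exact ⟨y, Or.inl rfl, hu.symm⟩
  · rcases u with u | p
    · refine ⟨u, Or.inr ⟨(attach_inl_inl σB T σD _ _).1 hlt, ?_⟩, rfl⟩
      rcases w with w | p
      · exact ⟨m, w, hm, up_base hup, hadj⟩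
      · exfalso
        have h1 : u = p.1 := hadj.1
        have h2 := (up_base hup).not_lt
        have h3 : retr (Sum.inr p : VB ⊕ (T × VD)) = u := by simp [retr, h1]
        rw [h3] at h2
        exact h2 ((attach_inl_inl σB T σD _ _).1 hlt)
    · exact absurd (attach_inl_inr σB T σD y p) (lt_asymm' _ hlt)

lemma wsr_copy (t : T) (y : VD) (j : ℕ) :
    WSR (attachOrder σB T σD) (attachGraph GB T GD port) j (Sum.inr (t, y)) ⊆
      ((fun d => (Sum.inr (t, d) : VB ⊕ (T × VD))) '' (WSR σD GD j y)) ∪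
        {u | u = Sum.inl (t : VB) ∧ ∃ m d, m + 1 ≤ j ∧ Up σD GD y m d ∧ port d} := by
  rintro u (hu | ⟨hlt, m, w, hm, hup, hadj⟩)
  · exact Or.inl ⟨y, Or.inl rfl, hu.symm⟩
  · obtain ⟨d, hd, hup'⟩ := up_copy hup
    subst hd
    rcases u with u | q
    · right
      have h1 : u = t := hadj.1
      exact ⟨by rw [h1], m, d, hm, hup', hadj.2⟩
    · obtain ⟨q1, q2⟩ := q
      have h1 : t = q1 := hadj.1
      subst h1
      exact Or.inl ⟨q2, Or.inr ⟨(attach_inr_inr σB T σD _ _ _).1 hlt, m, d, hm, hup', hadj.2⟩, rfl⟩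

end

lemma up_lipschitz {V : Type} {σ : LinearOrder V} {G : SimpleGraph V} (f : V → ℕ)
    (hf : ∀ u v, G.Adj u v → f u ≤ f v + 1) {v : V} {m : ℕ} {w : V} (h : Up σ G v m w) :
    f w ≤ f v + m ∧ f v ≤ f w + m := by
  induction h with
  | base => simp
  | stay _ ih => omega
  | @step m w w' _ hadj _ ih =>
    have h1 := hf _ _ hadj
    have h2 := hf _ _ hadj.symm
    omega

/-- a structure of level `h` -/
structure Lev (R M h : ℕ) where
  V : Type
  fin : Finite V
  G : SimpleGraph V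
  σ : LinearOrder V
  T : Set V
  lev : V → ℕ
  lev_le : ∀ v, lev v ≤ h
  lev_top : ∀ v ∈ T, lev v = h
  lev_adj : ∀ u v, G.Adj u v → lev u ≤ lev v + 1
  ub : ∀ y j, 1 ≤ j → (WSR σ G j y).ncard ≤ 4 * j + 2 + j * min j (h - lev y)
  lb : ∀ τ : LinearOrder V, (∃ v, M ≤ (GReach G τ 1 R v).ncard) ∨
    ∃ v ∈ T, R ^ h ≤ (GReach G τ h (h * R) v).ncard

/-- the number of labels of open ports that may be reached -/
noncomputable def cst (R n h idx lev j : ℕ) : ℕ :=
  if h + 1 < j + lev then ((Finset.Ico n R).filter (fun i => i < idx + j ∧ idx < i + j)).card else 0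

/-- `n` bases have been attached to the paths -/
structure Stage (R M N h n : ℕ) where
  V : Type
  fin : Finite V
  G : SimpleGraph V
  σ : LinearOrder V
  T : Set V
  lev : V → ℕ
  idx : V → ℕ
  lev_le : ∀ v, lev v ≤ h + 1
  lev_top : ∀ v ∈ T, lev v = h + 1
  lev_adj : ∀ u v, G.Adj u v → lev u ≤ lev v + 1
  idx_adj : ∀ u v, G.Adj u v → idx u ≤ idx v + 1
  ub : ∀ y j, 1 ≤ j → (WSR σ G j y).ncard + cst R n h (idx y) (lev y) j ≤
    4 * j + 2 + j * min j (h + 1 - lev y)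
  lb : ∀ τ : LinearOrder V, (∃ v, M ≤ (GReach G τ 1 R v).ncard) ∨
    ∃ (L : Finset (Fin N)) (P : Fin N → ℕ → V) (b : ℕ → V) (S : ℕ → Set V),
      N ≤ L.card + n * M ∧
      (∀ l ∈ L, ∀ i, i < R → P l i ∈ T ∧ idx (P l i) = i) ∧
      (∀ l ∈ L, ∀ i, i + 1 < R → G.Adj (P l i) (P l (i + 1))) ∧
      (∀ l ∈ L, ∀ l' ∈ L, ∀ i, i < R → ∀ i', i' < R → P l i = P l' i' → l = l') ∧
      (∀ i, i < n → ∀ l ∈ L, G.Adj (P l i) (b i)) ∧
      (∀ i, i < n → ∀ l ∈ L, ∀ i', i' < R → τ.lt (b i) (P l i')) ∧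
      (∀ i, i < n → R ^ h ≤ (S i).ncard) ∧
      (∀ i, i < n → ∀ i', i' < n → i ≠ i' → Disjoint (S i) (S i')) ∧
      (∀ i, i < n → ∀ u ∈ S i, HP G τ Tᶜ h (h * R) (b i) u)

end Pool.Agent.H856R3
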