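import Pool.Agent.H856R3.GcolDefs

namespace Pool.Agent.H856R3

open Classical

variable {V W : Type}

/-- internal form of hop reachability: indices shifted, path inside the region `A` -/
def HP (G : SimpleGraph V) (σ : LinearOrder V) (A : Set V) (k l : ℕ) (v u : V) : Prop :=
  ∃ (s : ℕ) (x : ℕ → V), s ≤ l ∧ x 0 = v ∧ x s = u ∧
    (∀ i, i < s → G.Adj (x i) (x (i + 1))) ∧
    (∀ i j, i ≤ s → j ≤ s → x i = x j → i = j) ∧
    (∀ i, i < s → σ.lt u (x i)) ∧ (∀ i, i ≤ s → x i ∈ A) ∧
    ((Finset.Icc 1 s).filter (fun j => ∀ i, i < j → σ.lt (x j) (x i))).card ≤ k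

lemma rec_set_eq (σ : LinearOrder V) (s : ℕ) (x : ℕ → V) :
    {j : ℕ | 1 ≤ j ∧ j ≤ s ∧ ∀ i, 1 ≤ i → i ≤ j → σ.lt (x j) (x (i - 1))} =
      (((Finset.Icc 1 s).filter (fun j => ∀ i, i < j → σ.lt (x j) (x i)) : Finset ℕ) : Set ℕ) := by
  ext j
  simp only [Set.mem_setOf_eq, Finset.coe_filter, Finset.mem_Icc]
  constructor
  · rintro ⟨h1, h2, h3⟩
    refine ⟨⟨h1, h2⟩, fun i hi => ?_⟩
    have := h3 (i + 1) (by omega) (by omega)
    simpa using this
  · rintro ⟨⟨h1, h2⟩, h3⟩
    exact ⟨h1, h2, fun i hi hi' => h3 (i - 1) (by omega)⟩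

lemma hopReach_iff (G : SimpleGraph V) (σ : LinearOrder V) (k l : ℕ) (v u : V) :
    HopReach G σ k l v u ↔ HP G σ Set.univ k l v u := by
  unfold HopReach HP
  constructor
  · rintro ⟨s, x, h1, h2, h3, h4, h5, h6, h7⟩
    refine ⟨s, x, h1, h2, h3, h4, h5, fun i hi => ?_, fun _ _ => trivial, ?_⟩
    · have := h6 (i + 1) (by omega) (by omega)
      simpa using this
    · rw [rec_set_eq, Set.ncard_coe_finset] at h7
      exact h7
  · rintro ⟨s, x, h1, h2, h3, h4, h5, h6, -, h7⟩
    refine ⟨s, x, h1, h2, h3, h4, h5, fun i hi hi' => h6 (i - 1) (by omega), ?_⟩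
    rw [rec_set_eq, Set.ncard_coe_finset]
    exact h7

lemma HP.mono {G : SimpleGraph V} {σ : LinearOrder V} {A B : Set V} {k k' l l' : ℕ} {v u : V}
    (h : HP G σ A k l v u) (hA : A ⊆ B) (hk : k ≤ k') (hl : l ≤ l') : HP G σ B k' l' v u := by
  obtain ⟨s, x, h1, h2, h3, h4, h5, h6, h7, h8⟩ := h
  exact ⟨s, x, h1.trans hl, h2, h3, h4, h5, h6, fun i hi => hA (h7 i hi), h8.trans hk⟩

lemma GReach_mono {G : SimpleGraph V} {σ : LinearOrder V} {k k' l l' : ℕ} {v : V}
    (hk : k ≤ k') (hl : l ≤ l') : GReach G σ k l v ⊆ GReach G σ k' l' v := by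
  intro u hu
  have h1 := (hopReach_iff G σ k l v u).1 hu
  exact (hopReach_iff G σ k' l' v u).2 (h1.mono (le_refl _) hk hl)

lemma HP.refl (G : SimpleGraph V) (σ : LinearOrder V) (A : Set V) (k l : ℕ) (v : V)
    (hv : v ∈ A) : HP G σ A k l v v := by
  refine ⟨0, fun _ => v, Nat.zero_le _, rfl, rfl, ?_, ?_, ?_, ?_, ?_⟩
  · intro i hi; omega
  · intro i j hi hj _; omega
  · intro i hi; omega
  · intro i hi; exact hv
  · simp

lemma lt_irrefl' (σ : LinearOrder V) (a : V) : ¬ σ.lt a a := by
  letI := σ; exact lt_irrefl a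

lemma lt_trans' (σ : LinearOrder V) {a b c : V} (h : σ.lt a b) (h' : σ.lt b c) : σ.lt a c := by
  letI := σ; exact lt_trans (a := a) h h'

lemma lt_asymm' (σ : LinearOrder V) {a b : V} (h : σ.lt a b) : ¬ σ.lt b a :=
  fun h' => lt_irrefl' σ a (lt_trans' σ h h')

lemma lt_tri (σ : LinearOrder V) (a b : V) : σ.lt a b ∨ a = b ∨ σ.lt b a := by
  letI := σ; exact lt_trichotomy a b

lemma le_iff' (σ : LinearOrder V) (a b : V) : σ.le a b ↔ ¬ σ.lt b a := by
  letI := σ; exact not_lt.symm

lemma HP.le {G : SimpleGraph V} {σ : LinearOrder V} {A : Set V} {k l : ℕ} {v u : V}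
    (h : HP G σ A k l v u) : u = v ∨ σ.lt u v := by
  obtain ⟨s, x, h1, h2, h3, h4, h5, h6, h7, h8⟩ := h
  rcases Nat.eq_zero_or_pos s with h0 | h0
  · subst h0; left; rw [← h2, ← h3]
  · right; have := h6 0 h0; rwa [h2] at this

/-- transport along an embedding -/
lemma HP.map {G : SimpleGraph V} {G' : SimpleGraph W} (f : V → W) (hf : Function.Injective f)
    (hadj : ∀ a b, G.Adj a b → G'.Adj (f a) (f b)) (τ : LinearOrder W) {A : Set V} {B : Set W}
    (hAB : ∀ a ∈ A, f a ∈ B) {k l : ℕ} {v u : V}
    (h : HP G (@LinearOrder.lift' V W τ f hf) A k l v u) : HP G' τ B k l (f v) (f u) := by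
  obtain ⟨s, x, h1, h2, h3, h4, h5, h6, h7, h8⟩ := h
  refine ⟨s, fun i => f (x i), h1, by simp [h2], by simp [h3], fun i hi => hadj _ _ (h4 i hi),
    fun i j hi hj hij => h5 i j hi hj (hf hij), fun i hi => h6 i hi, fun i hi => hAB _ (h7 i hi),
    ?_⟩
  exact h8

/-- concatenation: first part stays above `v` and above `b`, second part is in `A` -/
lemma HP.concat {G : SimpleGraph V} {σ : LinearOrder V} {A : Set V} {k l : ℕ} {v b u : V}
    (s1 : ℕ) (x : ℕ → V) (hx0 : x 0 = v) (hadj : ∀ i, i < s1 → G.Adj (x i) (x (i + 1)))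
    (hinj : ∀ i j, i ≤ s1 → j ≤ s1 → x i = x j → i = j) (hv : ∀ i, i ≤ s1 → ¬ σ.lt (x i) v)
    (hb : ∀ i, i ≤ s1 → σ.lt b (x i)) (hA : ∀ i, i ≤ s1 → x i ∉ A) (hlast : G.Adj (x s1) b)
    (h : HP G σ A k l b u) : HP G σ Set.univ (k + 1) (s1 + 1 + l) v u := by
  have hub := h.le
  obtain ⟨t, y, h1, h2, h3, h4, h5, h6, h7, h8⟩ := h
  refine ⟨s1 + 1 + t, fun i => if i ≤ s1 then x i else y (i - (s1 + 1)), by omega, ?_, ?_, ?_, ?_,
    ?_, fun _ _ => trivial, ?_⟩
  · simp [hx0]
  · have : ¬ (s1 + 1 + t ≤ s1) := by omega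
    simp only [this, if_false]
    rw [← h3]; congr 1; omega
  · intro i hi
    rcases lt_trichotomy i s1 with h | h | h
    · have e1 : i ≤ s1 := by omega
      have e2 : i + 1 ≤ s1 := by omega
      simp only [e1, e2, if_true]
      exact hadj i h
    · subst h
      have e2 : ¬ (i + 1 ≤ i) := by omega
      simp only [le_refl, e2, if_true, if_false]
      have : i + 1 - (i + 1) = 0 := by omega
      rw [this, h2]; exact hlast
    · have e1 : ¬ (i ≤ s1) := by omega
      have e2 : ¬ (i + 1 ≤ s1) := by omega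
      simp only [e1, e2, if_false]
      have := h4 (i - (s1 + 1)) (by omega)
      have e3 : i + 1 - (s1 + 1) = i - (s1 + 1) + 1 := by omega
      rw [e3]; exact this
  · intro i j hi hj hij
    by_cases e1 : i ≤ s1
    · by_cases e2 : j ≤ s1
      · simp only [e1, e2, if_true] at hij
        exact hinj i j e1 e2 hij
      · simp only [e1, e2, if_true, if_false] at hij
        exact absurd (hij ▸ h7 (j - (s1 + 1)) (by omega)) (hA i e1)
    · by_cases e2 : j ≤ s1
      · simp only [e1, e2, if_true, if_false] at hij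
        exact absurd (hij ▸ h7 (i - (s1 + 1)) (by omega)) (hA j e2)
      · simp only [e1, e2, if_false] at hij
        have := h5 (i - (s1 + 1)) (j - (s1 + 1)) (by omega) (by omega) hij
        omega
  · intro i hi
    by_cases e1 : i ≤ s1
    · simp only [e1, if_true]
      rcases hub with h | h
      · rw [h]; exact hb i e1
      · exact lt_trans' σ h (hb i e1)
    · simp only [e1, if_false]
      exact h6 _ (by omega)
  · have hsub : ((Finset.Icc 1 (s1 + 1 + t)).filter (fun j => ∀ i, i < j →
        σ.lt ((fun i => if i ≤ s1 then x i else y (i - (s1 + 1))) j)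
          ((fun i => if i ≤ s1 then x i else y (i - (s1 + 1))) i))) ⊆
        insert (s1 + 1) (((Finset.Icc 1 t).filter (fun j => ∀ i, i < j →
          σ.lt (y j) (y i))).image (fun j => j + (s1 + 1))) := by
      intro j hj
      simp only [Finset.mem_filter, Finset.mem_Icc] at hj
      obtain ⟨⟨hj1, hj2⟩, hj3⟩ := hj
      simp only [Finset.mem_insert, Finset.mem_image, Finset.mem_filter, Finset.mem_Icc]
      by_cases e1 : j ≤ s1
      · exfalso
        have := hj3 0 (by omega)
        simp only [e1, if_true, Nat.zero_le] at this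
        rw [hx0] at this
        exact hv j e1 this
      · by_cases e2 : j = s1 + 1
        · left; exact e2
        · right
          refine ⟨j - (s1 + 1), ⟨⟨by omega, by omega⟩, ?_⟩, by omega⟩
          intro i hi
          have := hj3 (i + (s1 + 1)) (by omega)
          have e3 : ¬ (i + (s1 + 1) ≤ s1) := by omega
          simp only [e1, e3, if_false] at this
          have e4 : i + (s1 + 1) - (s1 + 1) = i := by omega
          rw [e4] at this
          exact this
    refine (Finset.card_le_card hsub).trans ?_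
    refine (Finset.card_insert_le _ _).trans ?_
    exact Nat.succ_le_succ (Finset.card_image_le.trans h8)

/-- a strongly reachable vertex -/
lemma strong_of_seq {G : SimpleGraph V} {σ : LinearOrder V} {v : V} (e : ℕ) (w : ℕ → V)
    (h0 : G.Adj v (w 0)) (hadj : ∀ m, m < e → G.Adj (w m) (w (m + 1)))
    (hinj : ∀ i j, i ≤ e → j ≤ e → w i = w j → i = j) (hlt : ∀ m, m < e → σ.lt v (w m))
    (hend : σ.lt (w e) v) : HopReach G σ 1 (e + 1) v (w e) := by
  rw [hopReach_iff]
  refine ⟨e + 1, fun i => if i = 0 then v else w (i - 1), le_refl _, by simp, by simp, ?_, ?_, ?_,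
    fun _ _ => trivial, ?_⟩
  · intro i hi
    by_cases e1 : i = 0
    · subst e1; simpa using h0
    · have e2 : ¬ (i + 1 = 0) := by omega
      simp only [e1, e2, if_false]
      have := hadj (i - 1) (by omega)
      have e3 : i + 1 - 1 = i - 1 + 1 := by omega
      rw [e3]; exact this
  · have hne : ∀ m, m ≤ e → v ≠ w m := by
      intro m hm hvw
      rcases Nat.lt_or_ge m e with h | h
      · have := hlt m h; rw [← hvw] at this; exact lt_irrefl' σ v this
      · have hme : m = e := by omega
        subst hme; rw [← hvw] at hend; exact lt_irrefl' σ v hend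
    intro i j hi hj hij
    by_cases e1 : i = 0 <;> by_cases e2 : j = 0
    · omega
    · simp only [e1, e2, if_true, if_false] at hij
      exact absurd hij (hne _ (by omega))
    · simp only [e1, e2, if_true, if_false] at hij
      exact absurd hij.symm (hne _ (by omega))
    · simp only [e1, e2, if_false] at hij
      have := hinj (i - 1) (j - 1) (by omega) (by omega) hij
      omega
  · intro i hi
    by_cases e1 : i = 0
    · simp only [e1, if_true]; exact hend
    · simp only [e1, if_false]
      exact lt_trans' σ hend (hlt (i - 1) (by omega))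
  · have hsub : ((Finset.Icc 1 (e + 1)).filter (fun j => ∀ i, i < j →
        σ.lt ((fun i => if i = 0 then v else w (i - 1)) j)
          ((fun i => if i = 0 then v else w (i - 1)) i))) ⊆ {e + 1} := by
      intro j hj
      simp only [Finset.mem_filter, Finset.mem_Icc] at hj
      obtain ⟨⟨hj1, hj2⟩, hj3⟩ := hj
      by_contra hne
      simp only [Finset.mem_singleton] at hne
      have := hj3 0 (by omega)
      have e1 : ¬ (j = 0) := by omega
      simp only [e1, if_true, if_false] at this
      exact lt_asymm' σ this (hlt (j - 1) (by omega))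
    exact (Finset.card_le_card hsub).trans (by simp)

/-- lazy walks above `v` -/
inductive Up (σ : LinearOrder V) (G : SimpleGraph V) (v : V) : ℕ → V → Prop
  | base : Up σ G v 0 v
  | stay {m : ℕ} {w : V} : Up σ G v m w → Up σ G v (m + 1) w
  | step {m : ℕ} {w w' : V} : Up σ G v m w → G.Adj w w' → ¬ σ.lt w' v → Up σ G v (m + 1) w'

/-- strongly reachable by walks -/
def WSR (σ : LinearOrder V) (G : SimpleGraph V) (j : ℕ) (v : V) : Set V :=
  {u | u = v ∨ (σ.lt u v ∧ ∃ m w, m + 1 ≤ j ∧ Up σ G v m w ∧ G.Adj w u)}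

lemma Up.not_lt {σ : LinearOrder V} {G : SimpleGraph V} {v : V} {m : ℕ} {w : V}
    (h : Up σ G v m w) : ¬ σ.lt w v := by
  induction h with
  | base => exact lt_irrefl' σ v
  | stay _ ih => exact ih
  | step _ _ h _ => exact h

lemma GReach_one_subset (σ : LinearOrder V) (G : SimpleGraph V) (j : ℕ) (v : V) :
    GReach G σ 1 j v ⊆ WSR σ G j v := by
  intro u hu
  have h := (hopReach_iff G σ 1 j v u).1 hu
  obtain ⟨s, x, h1, h2, h3, h4, h5, h6, h7, h8⟩ := h
  rcases Nat.eq_zero_or_pos s with h0 | h0
  · subst h0; left; rw [← h2, ← h3]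
  · right
    have huv : σ.lt u v := by have := h6 0 h0; rwa [h2] at this
    refine ⟨huv, s - 1, x (s - 1), by omega, ?_, ?_⟩
    · have key : ∀ j, j < s → ¬ σ.lt (x j) v := by
        intro j
        induction j using Nat.strong_induction_on with
        | _ j ih =>
          intro hj hlt
          have hj0 : j ≠ 0 := by
            rintro rfl; rw [h2] at hlt; exact lt_irrefl' σ v hlt
          have hrec : ∀ i, i < j → σ.lt (x j) (x i) := by
            intro i hi
            have h9 := ih i hi (by omega)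
            rcases lt_tri σ (x i) v with h | h | h
            · exact absurd h h9
            · rw [h]; exact hlt
            · exact lt_trans' σ hlt h
          have hsub : ({j, s} : Finset ℕ) ⊆
              ((Finset.Icc 1 s).filter (fun j => ∀ i, i < j → σ.lt (x j) (x i))) := by
            intro a ha
            simp only [Finset.mem_insert, Finset.mem_singleton] at ha
            simp only [Finset.mem_filter, Finset.mem_Icc]
            rcases ha with rfl | rfl
            · exact ⟨⟨by omega, by omega⟩, hrec⟩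
            · refine ⟨⟨by omega, le_refl _⟩, fun i hi => ?_⟩
              rw [h3]; exact h6 i hi
          have hc := (Finset.card_le_card hsub).trans h8
          rw [Finset.card_pair (by omega)] at hc
          omega
      have h9 : ∀ m, m < s → Up σ G v m (x m) := by
        intro m
        induction m with
        | zero => intro _; rw [h2]; exact Up.base
        | succ m ih =>
          intro hm
          exact Up.step (ih (by omega)) (h4 m (by omega)) (key _ hm)
      exact h9 _ (by omega)
    · have := h4 (s - 1) (by omega)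
      have e : s - 1 + 1 = s := by omega
      rw [e, h3] at this
      exact this

end Pool.Agent.H856R3
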