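import Mathlib

/-!
Definitions for problem MP_7edec4_co: generalised colouring numbers with a bounded number of hops.
-/

namespace Pool.Agent.H856R3

/-- The vertex `u` is `k`-hop `l`-reachable from `v` in the graph `G` with the linear order `σ`:
there is a path `x 0, x 1, ..., x s` with `x 0 = v`, `x s = u`, `s ≤ l`, such that `u < x (i - 1)`
for every `i ∈ [1, s]`, and at most `k` indices `j ∈ [1, s]` satisfy `x j < x (i - 1)` for all
`i ∈ [1, j]`. -/
def HopReach {V : Type} (G : SimpleGraph V) (σ : LinearOrder V) (k l : ℕ) (v u : V) : Prop :=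
  ∃ (s : ℕ) (x : ℕ → V), s ≤ l ∧ x 0 = v ∧ x s = u ∧
    (∀ i, i < s → G.Adj (x i) (x (i + 1))) ∧
    (∀ i j, i ≤ s → j ≤ s → x i = x j → i = j) ∧
    (∀ i, 1 ≤ i → i ≤ s → σ.lt u (x (i - 1))) ∧
    {j : ℕ | 1 ≤ j ∧ j ≤ s ∧ ∀ i, 1 ≤ i → i ≤ j → σ.lt (x j) (x (i - 1))}.ncard ≤ k

/-- The set `GReach_{k,l}[G,σ,v]`. -/
def GReach {V : Type} (G : SimpleGraph V) (σ : LinearOrder V) (k l : ℕ) (v : V) : Set V :=
  {u | HopReach G σ k l v u}

/-- The number `gcol_{k,l}(G)`: the minimum over all linear orders `σ` of the vertices of the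
maximum over all vertices `v` of the size of `GReach_{k,l}[G,σ,v]`. -/
noncomputable def gcol {V : Type} [Fintype V] (k l : ℕ) (G : SimpleGraph V) : ℕ :=
  sInf {m : ℕ | ∃ σ : LinearOrder V, ∀ v : V, (GReach G σ k l v).ncard ≤ m}

/-- The strong colouring number `col_l(G) = gcol_{1,l}(G)`. -/
noncomputable def col {V : Type} [Fintype V] (l : ℕ) (G : SimpleGraph V) : ℕ := gcol 1 l G

/-- A class of finite simple graphs. -/
abbrev GraphClass : Type 1 := ∀ (V : Type) [Fintype V], SimpleGraph V → Prop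

/-- The class `C` has polynomial strong colouring numbers. -/
def PolynomialCol (C : GraphClass) : Prop :=
  ∃ p : Polynomial ℝ, ∀ (V : Type) [Fintype V] (G : SimpleGraph V), C V G →
    ∀ l : ℕ, 1 ≤ l → (col l G : ℝ) ≤ p.eval (l : ℝ)

/-- Property (P) of a function `k`: every class with polynomial strong colouring numbers admits a
polynomial `q` with `gcol_{k(l),l}(G) ≤ q(l)` for all graphs `G` of the class and all `l ≥ 1`. -/
def PropertyP (k : ℕ → ℕ) : Prop :=
  ∀ C : GraphClass, PolynomialCol C →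
    ∃ q : Polynomial ℝ, ∀ (V : Type) [Fintype V] (G : SimpleGraph V), C V G →
      ∀ l : ℕ, 1 ≤ l → (gcol (k l) l G : ℝ) ≤ q.eval (l : ℝ)

end Pool.Agent.H856R3
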