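import Pool.Agent.H856R3.GcolStep

namespace Pool.Agent.H856R3

open Classical

/-- all bases attached, starting from the paths -/
noncomputable def stageAll {R M h : ℕ} (hR : 1 ≤ R) (B : Lev R M h) :
    ∀ n, n ≤ R → Stage R M (R * M + 1) h n
  | 0, _ => stageZero R M (R * M + 1) h hR (by omega)
  | n + 1, hn => stageSucc (by omega) B (stageAll hR B n (by omega))

noncomputable def levZero (R M : ℕ) : Lev R M 0 where
  V := Unit
  fin := inferInstance
  G := ⊥
  σ := someOrder _
  T := Set.univ
  lev := fun _ => 0
  lev_le := fun _ => le_refl _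
  lev_top := fun _ _ => rfl
  lev_adj := fun _ _ _ => by omega
  ub := by
    intro y j hj
    have h1 : (WSR (someOrder Unit) ⊥ j y).ncard ≤ 1 := by
      refine (Set.ncard_le_ncard (Set.subset_univ _) (Set.toFinite _)).trans ?_
      simp
    omega
  lb := by
    intro τ
    right
    refine ⟨(), trivial, ?_⟩
    have h1 : ({()} : Set Unit) ⊆ GReach ⊥ τ 0 (0 * R) () := by
      rintro u hu
      have : u = () := rfl
      subst this
      exact (hopReach_iff _ _ _ _ _ _).2 (HP.refl _ _ _ _ _ _ trivial)
    have h2 := Set.ncard_le_ncard h1 (Set.toFinite _)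
    simpa using h2

/-- from the last stage to the next level -/
noncomputable def levSucc {R M h : ℕ} (hR : 1 ≤ R) (D : Stage R M (R * M + 1) h R) :
    Lev R M (h + 1) where
  V := D.V
  fin := D.fin
  G := D.G
  σ := D.σ
  T := D.T
  lev := D.lev
  lev_le := D.lev_le
  lev_top := D.lev_top
  lev_adj := D.lev_adj
  ub := by
    intro y j hj
    have := D.ub y j hj
    omega
  lb := by
    haveI := D.fin
    intro τ
    rcases D.lb τ with hv | ⟨L, P, b, S, hL, h1, h2, h3, h4, h5, h6, h7, h8⟩
    · exact Or.inl hv
    · right
      have hLpos : 0 < L.card := by omega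
      obtain ⟨l, hl⟩ := Finset.card_pos.1 hLpos
      have hmin : ∃ i0, i0 < R ∧ ∀ i, i < R → ¬ τ.lt (P l i) (P l i0) := by
        letI := τ
        obtain ⟨i0, hi0, hm⟩ := Finset.exists_min_image (Finset.range R) (fun i => P l i)
          ⟨0, Finset.mem_range.2 hR⟩
        exact ⟨i0, Finset.mem_range.1 hi0, fun i hi =>
          not_lt.2 (hm i (Finset.mem_range.2 hi))⟩
      obtain ⟨i0, hi0, hm⟩ := hmin
      refine ⟨P l i0, (h1 l hl i0 hi0).1, ?_⟩
      have hinj : ∀ i j, i < R → j < R → P l i = P l j → i = j := by
        intro i j hi hj hij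
        rw [← (h1 l hl i hi).2, hij, (h1 l hl j hj).2]
      have key : ∀ i, i < R → ∀ u ∈ S i, u ∈ GReach D.G τ (h + 1) ((h + 1) * R) (P l i0) := by
        intro i hi u hu
        refine (hopReach_iff _ _ _ _ _ _).2 ?_
        have hlen : (h + 1) * R = R + h * R := by ring
        rcases Nat.lt_or_ge i i0 with hc | hc
        · refine (HP.concat (A := D.Tᶜ) (i0 - i) (fun m => P l (i0 - m)) (by simp) ?_ ?_ ?_ ?_ ?_ ?_
            (h8 i hi u hu)).mono (le_refl _) (le_refl _) (by omega)
          · intro m hm'
            have h9 := h2 l hl (i0 - (m + 1)) (by omega)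
            have h10 : i0 - (m + 1) + 1 = i0 - m := by omega
            rw [h10] at h9
            exact h9.symm
          · intro a c ha hc' hac
            have := hinj _ _ (by omega) (by omega) hac
            omega
          · intro a _
            exact hm _ (by omega)
          · intro a _
            exact h5 i hi l hl _ (by omega)
          · intro a _ hcon
            exact hcon (h1 l hl _ (by omega)).1
          · have h10 : i0 - (i0 - i) = i := by omega
            simp only [h10]
            exact h4 i hi l hl
        · refine (HP.concat (A := D.Tᶜ) (i - i0) (fun m => P l (i0 + m)) (by simp) ?_ ?_ ?_ ?_ ?_ ?_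
            (h8 i hi u hu)).mono (le_refl _) (le_refl _) (by omega)
          · intro m hm'
            exact h2 l hl (i0 + m) (by omega)
          · intro a c ha hc' hac
            have := hinj _ _ (by omega) (by omega) hac
            omega
          · intro a _
            exact hm _ (by omega)
          · intro a _
            exact h5 i hi l hl _ (by omega)
          · intro a _ hcon
            exact hcon (h1 l hl _ (by omega)).1
          · have h10 : i0 + (i - i0) = i := by omega
            simp only [h10]
            exact h4 i hi l hl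
      have hfin : ∀ X : Set D.V, X.Finite := fun X => Set.toFinite X
      have hcard : ((Finset.range R).biUnion (fun i => (hfin (S i)).toFinset)).card =
          ∑ i ∈ Finset.range R, ((hfin (S i)).toFinset).card := by
        refine Finset.card_biUnion ?_
        intro i hi i' hi' hne
        have := h7 i (Finset.mem_range.1 hi) i' (Finset.mem_range.1 hi') hne
        simpa using this
      have hsub : (Finset.range R).biUnion (fun i => (hfin (S i)).toFinset) ⊆
          (hfin (GReach D.G τ (h + 1) ((h + 1) * R) (P l i0))).toFinset := by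
        intro u hu
        simp only [Finset.mem_biUnion, Finset.mem_range, Set.Finite.mem_toFinset] at hu ⊢
        obtain ⟨i, hi, hu⟩ := hu
        exact key i hi u hu
      have hle := Finset.card_le_card hsub
      rw [hcard] at hle
      rw [Set.ncard_eq_toFinset_card _ (hfin _)]
      refine le_trans ?_ hle
      have : ∑ i ∈ Finset.range R, R ^ h ≤ ∑ i ∈ Finset.range R, ((hfin (S i)).toFinset).card := by
        refine Finset.sum_le_sum ?_
        intro i hi
        have := h6 i (Finset.mem_range.1 hi)
        rwa [Set.ncard_eq_toFinset_card _ (hfin _)] at this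
      refine le_trans ?_ this
      simp [pow_succ, mul_comm]

noncomputable def levAll {R M : ℕ} (hR : 1 ≤ R) : ∀ h, Lev R M h
  | 0 => levZero R M
  | h + 1 => levSucc hR (stageAll hR (levAll hR h) R (le_refl _))

lemma gcol_nonempty {V : Type} [Fintype V] (k l : ℕ) (G : SimpleGraph V) :
    {m : ℕ | ∃ σ : LinearOrder V, ∀ v : V, (GReach G σ k l v).ncard ≤ m}.Nonempty := by
  refine ⟨Nat.card V, someOrder V, fun v => ?_⟩
  rw [← Set.ncard_univ]
  exact Set.ncard_le_ncard (Set.subset_univ _) (Set.toFinite _)

/-- the graphs of the construction -/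
theorem exists_graph (h R : ℕ) (hh : 1 ≤ h) (hR : 1 ≤ R) :
    ∃ (V : Type) (_ : Fintype V) (G : SimpleGraph V),
      (∀ l, 1 ≤ l → col l G ≤ l * l + 4 * l + 2) ∧
      (∀ k l, h ≤ k → h * R ≤ l → R ^ h ≤ gcol k l G) := by
  let Y : Lev R (R ^ h) h := levAll hR h
  haveI := Y.fin
  haveI : Fintype Y.V := Fintype.ofFinite Y.V
  refine ⟨Y.V, inferInstance, Y.G, ?_, ?_⟩
  · intro l hl
    refine Nat.sInf_le ⟨Y.σ, fun v => ?_⟩
    refine (Set.ncard_le_ncard (GReach_one_subset Y.σ Y.G l v) (Set.toFinite _)).trans ?_
    refine (Y.ub v l hl).trans ?_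
    have : l * min l (h - Y.lev v) ≤ l * l := Nat.mul_le_mul_left l (min_le_left _ _)
    omega
  · intro k l hk hl
    refine le_csInf (gcol_nonempty k l Y.G) ?_
    rintro m ⟨τ, hm⟩
    have hRl : 1 * R ≤ h * R := Nat.mul_le_mul_right R hh
    rcases Y.lb τ with ⟨v, hv⟩ | ⟨v, _, hv⟩
    · refine (hv.trans ?_).trans (hm v)
      refine Set.ncard_le_ncard (GReach_mono (hh.trans hk) ?_) (Set.toFinite _)
      omega
    · refine (hv.trans ?_).trans (hm v)
      exact Set.ncard_le_ncard (GReach_mono hk hl) (Set.toFinite _)

end Pool.Agent.H856R3
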