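import Pool.Agent.H856R3.GcolAttach

namespace Pool.Agent.H856R3

open Classical

/-- an order exists -/
noncomputable def someOrder (V : Type) : LinearOrder V :=
  @linearOrderOfSTO V WellOrderingRel _ (Classical.decRel _)

/-- the stage with no base: `N` disjoint paths -/
def pathsGraph (N R : ℕ) : SimpleGraph (Fin N × Fin R) where
  Adj x y := x.1 = y.1 ∧ (x.2.val + 1 = y.2.val ∨ y.2.val + 1 = x.2.val)
  symm := ⟨by
    rintro x y ⟨h1, h2⟩
    exact ⟨h1.symm, h2.symm⟩⟩
  loopless := ⟨by
    rintro x ⟨_, h2⟩
    omega⟩

lemma paths_up_fst {N R : ℕ} {σ : LinearOrder (Fin N × Fin R)} {y : Fin N × Fin R} {m : ℕ}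
    {w : Fin N × Fin R} (h : Up σ (pathsGraph N R) y m w) : w.1 = y.1 := by
  induction h with
  | base => rfl
  | stay _ ih => exact ih
  | step _ hadj _ ih => exact hadj.1.symm.trans ih

lemma cst_le (R n h idx lev j : ℕ) : cst R n h idx lev j ≤ 2 * j + 1 := by
  unfold cst
  split_ifs with h1
  · have hsub : (Finset.Ico n R).filter (fun i => i < idx + j ∧ idx < i + j) ⊆
        Finset.Icc (idx - j) (idx + j) := by
      intro i hi
      simp only [Finset.mem_filter, Finset.mem_Ico] at hi
      simp only [Finset.mem_Icc]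
      omega
    refine (Finset.card_le_card hsub).trans ?_
    rw [Nat.card_Icc]
    omega
  · omega

lemma cst_zero_le (R h idx lev j : ℕ) (hj : 1 ≤ j) : cst R 0 h idx lev j ≤ 2 * j - 1 := by
  unfold cst
  split_ifs with h1
  · have hsub : (Finset.Ico 0 R).filter (fun i => i < idx + j ∧ idx < i + j) ⊆
        Finset.Icc (idx + 1 - j) (idx + j - 1) := by
      intro i hi
      simp only [Finset.mem_filter, Finset.mem_Ico] at hi
      simp only [Finset.mem_Icc]
      omega
    refine (Finset.card_le_card hsub).trans ?_
    rw [Nat.card_Icc]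
    omega
  · omega

noncomputable def stageZero (R M N h : ℕ) (hR : 1 ≤ R) (hN : 1 ≤ N) : Stage R M N h 0 where
  V := Fin N × Fin R
  fin := inferInstance
  G := pathsGraph N R
  σ := someOrder _
  T := Set.univ
  lev := fun _ => h + 1
  idx := fun x => x.2.val
  lev_le := fun _ => le_refl _
  lev_top := fun _ _ => rfl
  lev_adj := fun _ _ _ => by omega
  idx_adj := fun u v h => by
    rcases h.2 with h | h <;> omega
  ub := by
    intro y j hj
    have h1 : WSR (someOrder _) (pathsGraph N R) j y ⊆
        (fun i : ℕ => (y.1, if hi : i < R then (⟨i, hi⟩ : Fin R) else y.2)) ''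
          (Finset.Icc (y.2.val - j) (y.2.val + j) : Finset ℕ) := by
      rintro u (hu | ⟨_, m, w, hm, hup, hadj⟩)
      · subst hu
        refine ⟨u.2.val, by simp, ?_⟩
        simp
      · have h2 := paths_up_fst hup
        have h3 := up_lipschitz (fun x : Fin N × Fin R => x.2.val)
          (fun u v h => by rcases h.2 with h | h <;> omega) hup
        have h4 : u.1 = y.1 := hadj.1.symm.trans h2
        refine ⟨u.2.val, ?_, ?_⟩
        · simp only [Finset.coe_Icc, Set.mem_Icc]
          rcases hadj.2 with h5 | h5 <;> omega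
        · simp [u.2.isLt, ← h4]
    have h5 : (WSR (someOrder _) (pathsGraph N R) j y).ncard ≤ 2 * j + 1 := by
      refine (Set.ncard_le_ncard h1 (Set.toFinite _)).trans ?_
      refine (Set.ncard_image_le (Set.toFinite _)).trans ?_
      rw [Set.ncard_coe_finset, Nat.card_Icc]
      omega
    have h6 := cst_zero_le R h y.2.val (h + 1) j hj
    have h7 : 0 ≤ j * min j (h + 1 - (h + 1)) := Nat.zero_le _
    omega
  lb := by
    intro τ
    right
    refine ⟨Finset.univ, fun l i => (l, if hi : i < R then ⟨i, hi⟩ else ⟨0, hR⟩),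
      fun _ => (⟨0, hN⟩, ⟨0, hR⟩), fun _ => ∅, by simp, ?_, ?_, ?_, ?_, ?_, ?_, ?_, ?_⟩
    · intro l _ i hi
      refine ⟨trivial, ?_⟩
      simp [hi]
    · intro l _ i hi
      have h1 : i < R := by omega
      refine ⟨rfl, Or.inl ?_⟩
      simp [hi, h1]
    · intro l _ l' _ i hi i' hi' h
      exact (Prod.mk.inj h).1
    · intro i hi; omega
    · intro i hi; omega
    · intro i hi; omega
    · intro i hi; omega
    · intro i hi; omega

/-- moving along a path that is adjacent to `v` and that contains a smaller vertex -/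
lemma escape {V : Type} {G : SimpleGraph V} {τ : LinearOrder V} {v : V} {R n i' : ℕ} {p : ℕ → V}
    (hn : n < R) (hi' : i' < R) (hv : G.Adj v (p n)) (hadj : ∀ i, i + 1 < R → G.Adj (p i) (p (i + 1)))
    (hinj : ∀ i j, i < R → j < R → p i = p j → i = j) (hne : ∀ i, i < R → p i ≠ v)
    (hlt : τ.lt (p i') v) : ∃ i, i < R ∧ HopReach G τ 1 R v (p i) := by
  have mono : ∀ e i, e + 1 ≤ R → HopReach G τ 1 (e + 1) v (p i) → HopReach G τ 1 R v (p i) := by
    intro e i he h
    rw [hopReach_iff] at h ⊢
    exact h.mono (le_refl _) (le_refl _) he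
  rcases Nat.lt_or_ge i' n with hc | hc
  · have hex : ∃ m, m ≤ n ∧ τ.lt (p (n - m)) v := ⟨n - i', by omega, by
      have : n - (n - i') = i' := by omega
      rw [this]; exact hlt⟩
    have he := Nat.find_spec hex
    have hmin := fun m (hm : m < Nat.find hex) => Nat.find_min hex hm
    set e := Nat.find hex
    refine ⟨n - e, by omega, mono e _ (by omega) ?_⟩
    refine strong_of_seq e (fun m => p (n - m)) (by simpa using hv) ?_ ?_ ?_ he.2
    · intro m hm
      have h1 := hadj (n - (m + 1)) (by omega)
      have h2 : n - (m + 1) + 1 = n - m := by omega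
      rw [h2] at h1
      exact h1.symm
    · intro i j hi hj hij
      have := hinj _ _ (by omega) (by omega) hij
      omega
    · intro m hm
      have h1 := hmin m hm
      rcases lt_tri τ (p (n - m)) v with h | h | h
      · exact absurd ⟨by omega, h⟩ h1
      · exact absurd h (hne _ (by omega))
      · exact h
  · have hex : ∃ m, n + m < R ∧ τ.lt (p (n + m)) v := ⟨i' - n, by omega, by
      have : n + (i' - n) = i' := by omega
      rw [this]; exact hlt⟩
    have he := Nat.find_spec hex
    have hmin := fun m (hm : m < Nat.find hex) => Nat.find_min hex hm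
    set e := Nat.find hex
    refine ⟨n + e, by omega, mono e _ (by omega) ?_⟩
    refine strong_of_seq e (fun m => p (n + m)) (by simpa using hv) ?_ ?_ ?_ he.2
    · intro m hm
      exact hadj (n + m) (by omega)
    · intro i j hi hj hij
      have := hinj _ _ (by omega) (by omega) hij
      omega
    · intro m hm
      have h1 := hmin m hm
      rcases lt_tri τ (p (n + m)) v with h | h | h
      · exact absurd ⟨by omega, h⟩ h1
      · exact absurd h (hne _ (by omega))
      · exact h

end Pool.Agent.H856R3
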