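import Pool.Agent.H856R3.GcolStage

namespace Pool.Agent.H856R3

open Classical

lemma cst_succ_le (R n h idx lev j : ℕ) : cst R (n + 1) h idx lev j ≤ cst R n h idx lev j := by
  unfold cst
  split_ifs with h1
  · refine Finset.card_le_card ?_
    intro i hi
    simp only [Finset.mem_filter, Finset.mem_Ico] at hi ⊢
    omega
  · exact le_refl _

lemma cst_succ_lt (R n h idx lev j : ℕ) (hn : n < R) (h1 : h + 1 < j + lev) (h2 : n < idx + j)
    (h3 : idx < n + j) : cst R (n + 1) h idx lev j + 1 ≤ cst R n h idx lev j := by
  unfold cst
  rw [if_pos h1, if_pos h1]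
  have hsub : (Finset.Ico (n + 1) R).filter (fun i => i < idx + j ∧ idx < i + j) ⊆
      ((Finset.Ico n R).filter (fun i => i < idx + j ∧ idx < i + j)).erase n := by
    intro i hi
    simp only [Finset.mem_filter, Finset.mem_Ico, Finset.mem_erase] at hi ⊢
    omega
  have hmem : n ∈ (Finset.Ico n R).filter (fun i => i < idx + j ∧ idx < i + j) := by
    simp only [Finset.mem_filter, Finset.mem_Ico]
    omega
  have h4 := Finset.card_le_card hsub
  rw [Finset.card_erase_of_mem hmem] at h4
  have h5 : 0 < ((Finset.Ico n R).filter (fun i => i < idx + j ∧ idx < i + j)).card :=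
    Finset.card_pos.2 ⟨n, hmem⟩
  omega

lemma cst_base (R n h lev j : ℕ) (hj : 1 ≤ j) (hlev : lev ≤ h) :
    cst R (n + 1) h n lev j + j * min j (h - lev) ≤ j * min j (h + 1 - lev) := by
  unfold cst
  split_ifs with h1
  · have hsub : (Finset.Ico (n + 1) R).filter (fun i => i < n + j ∧ n < i + j) ⊆
        Finset.Ico (n + 1) (n + j) := by
      intro i hi
      simp only [Finset.mem_filter, Finset.mem_Ico] at hi ⊢
      omega
    have h2 := Finset.card_le_card hsub
    rw [Nat.card_Ico] at h2
    have h3 : min j (h - lev) = h - lev := by omega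
    have h4 : min j (h + 1 - lev) = h - lev + 1 := by omega
    rw [h3, h4, Nat.mul_add]
    omega
  · have h3 : min j (h - lev) ≤ min j (h + 1 - lev) := by omega
    have := Nat.mul_le_mul_left j h3
    omega

/-- attaching one more base -/
noncomputable def stageSucc {R M N h n : ℕ} (hn : n < R) (B : Lev R M h) (D : Stage R M N h n) :
    Stage R M N h (n + 1) where
  V := B.V ⊕ (B.T × D.V)
  fin := by
    haveI := B.fin
    haveI := D.fin
    infer_instance
  G := attachGraph B.G B.T D.G (fun d => d ∈ D.T ∧ D.idx d = n)
  σ := attachOrder B.σ B.T D.σ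
  T := {x | ∃ t d, x = Sum.inr (t, d) ∧ d ∈ D.T}
  lev := Sum.elim B.lev (fun p => D.lev p.2)
  idx := Sum.elim (fun _ => n) (fun p => D.idx p.2)
  lev_le := by
    rintro (a | p)
    · exact (B.lev_le a).trans (Nat.le_succ h)
    · exact D.lev_le p.2
  lev_top := by
    rintro x ⟨t, d, rfl, hd⟩
    exact D.lev_top d hd
  lev_adj := by
    rintro (a | p) (b | q) hadj
    · exact B.lev_adj a b hadj
    · have h1 : a = q.1 := hadj.1
      have h2 := D.lev_top q.2 hadj.2.1
      have h3 := B.lev_top q.1 q.1.2
      simp only [Sum.elim_inl, Sum.elim_inr]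
      rw [h1, h2, h3]
      omega
    · have h1 : b = p.1 := hadj.1
      have h2 := D.lev_top p.2 hadj.2.1
      have h3 := B.lev_top p.1 p.1.2
      simp only [Sum.elim_inl, Sum.elim_inr]
      rw [h1, h2, h3]
    · exact D.lev_adj p.2 q.2 hadj.2
  idx_adj := by
    rintro (a | p) (b | q) hadj
    · simp
    · have h2 : D.idx q.2 = n := hadj.2.2
      simp only [Sum.elim_inl, Sum.elim_inr]
      omega
    · have h2 : D.idx p.2 = n := hadj.2.2
      simp only [Sum.elim_inl, Sum.elim_inr]
      omega
    · exact D.idx_adj p.2 q.2 hadj.2
  ub := by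
    haveI := B.fin
    haveI := D.fin
    rintro (y | ⟨t, y⟩) j hj
    · have h1 := wsr_base (T := B.T) (σB := B.σ) (σD := D.σ) (GB := B.G) (GD := D.G)
        (port := fun d => d ∈ D.T ∧ D.idx d = n) y j
      have h2 := (Set.ncard_le_ncard h1 (Set.toFinite _)).trans
        (Set.ncard_image_le (Set.toFinite _))
      have h3 := B.ub y j hj
      have h4 := cst_base R n h (B.lev y) j hj (B.lev_le y)
      simp only [Sum.elim_inl]
      omega
    · have h1 := wsr_copy (T := B.T) (σB := B.σ) (σD := D.σ) (GB := B.G) (GD := D.G)
        (port := fun d => d ∈ D.T ∧ D.idx d = n) t y j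
      have h3 := D.ub y j hj
      simp only [Sum.elim_inr]
      by_cases hex : ∃ m d, m + 1 ≤ j ∧ Up D.σ D.G y m d ∧ (d ∈ D.T ∧ D.idx d = n)
      · obtain ⟨m, d, hm, hup, hdT, hdi⟩ := hex
        have h4 := up_lipschitz D.lev D.lev_adj hup
        have h5 := up_lipschitz D.idx D.idx_adj hup
        have h6 := D.lev_top d hdT
        have h7 := cst_succ_lt R n h (D.idx y) (D.lev y) j hn (by omega) (by omega) (by omega)
        have h8 : (WSR (attachOrder B.σ B.T D.σ)
            (attachGraph B.G B.T D.G (fun d => d ∈ D.T ∧ D.idx d = n)) j
              (Sum.inr (t, y))).ncard ≤ (WSR D.σ D.G j y).ncard + 1 := by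
          refine (Set.ncard_le_ncard h1 (Set.toFinite _)).trans ?_
          refine (Set.ncard_union_le _ _).trans ?_
          refine Nat.add_le_add (Set.ncard_image_le (Set.toFinite _)) ?_
          have h9 : {u : B.V ⊕ (B.T × D.V) | u = Sum.inl (t : B.V) ∧ ∃ m d, m + 1 ≤ j ∧
              Up D.σ D.G y m d ∧ (d ∈ D.T ∧ D.idx d = n)} ⊆ {Sum.inl (t : B.V)} := by
            rintro u ⟨hu, _⟩
            exact hu
          exact (Set.ncard_le_ncard h9 (Set.toFinite _)).trans (by simp)
        omega
      · have h7 := cst_succ_le R n h (D.idx y) (D.lev y) j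
        have h8 : (WSR (attachOrder B.σ B.T D.σ)
            (attachGraph B.G B.T D.G (fun d => d ∈ D.T ∧ D.idx d = n)) j
              (Sum.inr (t, y))).ncard ≤ (WSR D.σ D.G j y).ncard := by
          have h9 : (WSR (attachOrder B.σ B.T D.σ)
            (attachGraph B.G B.T D.G (fun d => d ∈ D.T ∧ D.idx d = n)) j
              (Sum.inr (t, y))) ⊆
              ((fun d => (Sum.inr (t, d) : B.V ⊕ (B.T × D.V))) '' (WSR D.σ D.G j y)) := by
            intro u hu
            rcases h1 hu with h | h
            · exact h
            · exact absurd h.2 hex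
          exact (Set.ncard_le_ncard h9 (Set.toFinite _)).trans (Set.ncard_image_le (Set.toFinite _))
        omega
  lb := by
    haveI := B.fin
    haveI := D.fin
    intro τ
    have hinl : Function.Injective (Sum.inl : B.V → B.V ⊕ (B.T × D.V)) := Sum.inl_injective
    rcases B.lb (@LinearOrder.lift' _ _ τ _ hinl) with ⟨v, hv⟩ | ⟨v, hvT, hv⟩
    · left
      refine ⟨Sum.inl v, hv.trans ?_⟩
      rw [← Set.ncard_image_of_injective _ hinl]
      refine Set.ncard_le_ncard ?_ (Set.toFinite _)
      rintro _ ⟨u, hu, rfl⟩
      exact (hopReach_iff _ _ _ _ _ _).2 (HP.map (A := Set.univ) (B := Set.univ)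
        (G' := attachGraph B.G B.T D.G (fun d => d ∈ D.T ∧ D.idx d = n)) _ hinl
        (fun a b h => h) τ (fun _ _ => trivial) ((hopReach_iff _ _ _ _ _ _).1 hu))
    · let t : B.T := ⟨v, hvT⟩
      have hinr : Function.Injective (fun d : D.V => (Sum.inr (t, d) : B.V ⊕ (B.T × D.V))) := by
        intro a b h
        simpa using h
      rcases D.lb (@LinearOrder.lift' _ _ τ _ hinr) with ⟨w, hw⟩ |
        ⟨L, P, b, S, hL, h1, h2, h3, h4, h5, h6, h7, h8⟩
      · left
        refine ⟨Sum.inr (t, w), hw.trans ?_⟩
        rw [← Set.ncard_image_of_injective _ hinr]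
        refine Set.ncard_le_ncard ?_ (Set.toFinite _)
        rintro _ ⟨u, hu, rfl⟩
        exact (hopReach_iff _ _ _ _ _ _).2 (HP.map (A := Set.univ) (B := Set.univ)
          (G' := attachGraph B.G B.T D.G (fun d => d ∈ D.T ∧ D.idx d = n)) _ hinr
          (fun a b h => ⟨rfl, h⟩) τ (fun _ _ => trivial) ((hopReach_iff _ _ _ _ _ _).1 hu))
      · let L' := L.filter (fun l => ∀ i, i < R → τ.lt (Sum.inl v) (Sum.inr (t, P l i)))
        by_cases hbad : M ≤ (L \ L').card
        · left
          refine ⟨Sum.inl v, hbad.trans ?_⟩
          have key : ∀ l ∈ L \ L', ∃ i, i < R ∧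
              HopReach (attachGraph B.G B.T D.G (fun d => d ∈ D.T ∧ D.idx d = n)) τ 1 R
                (Sum.inl v) (Sum.inr (t, P l i)) := by
            intro l hl
            rw [Finset.mem_sdiff] at hl
            obtain ⟨hlL, hl'⟩ := hl
            have hex : ∃ i', i' < R ∧ ¬ τ.lt (Sum.inl v) (Sum.inr (t, P l i')) := by
              by_contra hcon
              push Not at hcon
              exact hl' (Finset.mem_filter.2 ⟨hlL, hcon⟩)
            obtain ⟨i', hi', hlt⟩ := hex
            refine escape (p := fun i => Sum.inr (t, P l i)) hn hi' ?_ ?_ ?_ ?_ ?_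
            · exact ⟨rfl, (h1 l hlL n hn).1, (h1 l hlL n hn).2⟩
            · intro i hi
              exact ⟨rfl, h2 l hlL i hi⟩
            · intro i j hi hj hij
              have : P l i = P l j := by simpa using hij
              rw [← (h1 l hlL i hi).2, this, (h1 l hlL j hj).2]
            · intro i hi; simp
            · rcases lt_tri τ (Sum.inl v) (Sum.inr (t, P l i')) with h | h | h
              · exact absurd h hlt
              · simp at h
              · exact h
          choose! g hg using key
          rw [Set.ncard_eq_toFinset_card _ (Set.toFinite _)]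
          refine Finset.card_le_card_of_injOn (fun l => Sum.inr (t, P l (g l))) ?_ ?_
          · intro l hl
            simp only [Set.Finite.coe_toFinset]
            exact (hg l hl).2
          · intro l hl l' hl' hll
            have h9 : P l (g l) = P l' (g l') := by simpa using hll
            exact h3 l (Finset.mem_sdiff.1 hl).1 l' (Finset.mem_sdiff.1 hl').1 _ (hg l hl).1 _
              (hg l' hl').1 h9
        · right
          refine ⟨L', fun l i => Sum.inr (t, P l i),
            fun i => if i < n then Sum.inr (t, b i) else Sum.inl v,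
            fun i => if i < n then (fun d => Sum.inr (t, d)) '' S i else
              Sum.inl '' (GReach B.G (@LinearOrder.lift' _ _ τ _ hinl) h (h * R) v),
            ?_, ?_, ?_, ?_, ?_, ?_, ?_, ?_, ?_⟩
          · have h9 : (L \ L').card = L.card - L'.card := Finset.card_sdiff_of_subset
              (Finset.filter_subset _ _)
            have h10 : L'.card ≤ L.card := Finset.card_le_card (Finset.filter_subset _ _)
            have h11 : (n + 1) * M = n * M + M := by ring
            omega
          · intro l hl i hi
            have hlL := (Finset.mem_filter.1 hl).1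
            exact ⟨⟨t, P l i, rfl, (h1 l hlL i hi).1⟩, (h1 l hlL i hi).2⟩
          · intro l hl i hi
            exact ⟨rfl, h2 l (Finset.mem_filter.1 hl).1 i hi⟩
          · intro l hl l' hl' i hi i' hi' h
            have h9 : P l i = P l' i' := by simpa using h
            exact h3 l (Finset.mem_filter.1 hl).1 l' (Finset.mem_filter.1 hl').1 i hi i' hi' h9
          · intro i hi l hl
            have hlL := (Finset.mem_filter.1 hl).1
            by_cases hin : i < n
            · simp only [hin, if_true]
              exact ⟨rfl, h4 i hin l hlL⟩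
            · simp only [hin, if_false]
              have : i = n := by omega
              subst this
              exact ⟨rfl, (h1 l hlL i hn).1, (h1 l hlL i hn).2⟩
          · intro i hi l hl i' hi'
            have hlL := (Finset.mem_filter.1 hl).1
            by_cases hin : i < n
            · simp only [hin, if_true]
              exact h5 i hin l hlL i' hi'
            · simp only [hin, if_false]
              exact (Finset.mem_filter.1 hl).2 i' hi'
          · intro i hi
            by_cases hin : i < n
            · simp only [hin, if_true]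
              rw [Set.ncard_image_of_injective _ hinr]
              exact h6 i hin
            · simp only [hin, if_false]
              rw [Set.ncard_image_of_injective _ hinl]
              exact hv
          · intro i hi i' hi' hne
            by_cases hin : i < n <;> by_cases hin' : i' < n
            · simp only [hin, hin', if_true]
              exact (Set.disjoint_image_iff hinr).2 (h7 i hin i' hin' hne)
            · simp only [hin, hin', if_true, if_false]
              rw [Set.disjoint_left]
              rintro _ ⟨a, _, rfl⟩ ⟨b, _, hb⟩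
              simp at hb
            · simp only [hin, hin', if_true, if_false]
              rw [Set.disjoint_left]
              rintro _ ⟨a, _, rfl⟩ ⟨b, _, hb⟩
              simp at hb
            · omega
          · intro i hi u hu
            by_cases hin : i < n
            · simp only [hin, if_true] at hu ⊢
              obtain ⟨d, hd, rfl⟩ := hu
              refine HP.map (G' := attachGraph B.G B.T D.G (fun d => d ∈ D.T ∧ D.idx d = n)) _
                hinr (fun a b h => ⟨rfl, h⟩) τ ?_ (h8 i hin d hd)
              rintro a ha ⟨t', d', h9, h10⟩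
              simp only [Sum.inr.injEq, Prod.mk.injEq] at h9
              exact ha (h9.2 ▸ h10)
            · simp only [hin, if_false] at hu ⊢
              obtain ⟨d, hd, rfl⟩ := hu
              refine HP.map (G' := attachGraph B.G B.T D.G (fun d => d ∈ D.T ∧ D.idx d = n)) _
                hinl (fun a b h => h) τ ?_ ((hopReach_iff _ _ _ _ _ _).1 hd)
              rintro a _ ⟨t', d', h9, h10⟩
              simp at h9

end Pool.Agent.H856R3
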