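import Pool.Agent.H856R3.GcolLev

namespace Pool.Agent.H856R3

open Classical

variable {V : Type}

lemma greach_zero (G : SimpleGraph V) (σ : LinearOrder V) (l : ℕ) (v : V) :
    GReach G σ 0 l v ⊆ {v} := by
  intro u hu
  obtain ⟨s, x, h1, h2, h3, h4, h5, h6, h7, h8⟩ := (hopReach_iff G σ 0 l v u).1 hu
  rcases Nat.eq_zero_or_pos s with h0 | h0
  · subst h0
    rw [← h3, h2]; rfl
  · exfalso
    have hmem : s ∈ (Finset.Icc 1 s).filter (fun j => ∀ i, i < j → σ.lt (x j) (x i)) := by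
      simp only [Finset.mem_filter, Finset.mem_Icc]
      refine ⟨⟨h0, le_refl _⟩, fun i hi => ?_⟩
      rw [h3]; exact h6 i hi
    have := Finset.card_pos.2 ⟨s, hmem⟩
    omega

lemma greach_succ (G : SimpleGraph V) (σ : LinearOrder V) (k l : ℕ) (v u : V)
    (hu : u ∈ GReach G σ (k + 1) l v) : ∃ w ∈ GReach G σ k l v, u ∈ GReach G σ 1 l w := by
  obtain ⟨s, x, h1, h2, h3, h4, h5, h6, -, h8⟩ := (hopReach_iff G σ (k + 1) l v u).1 hu
  rcases Nat.eq_zero_or_pos s with h0 | h0
  · subst h0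
    refine ⟨v, (hopReach_iff _ _ _ _ _ _).2 (HP.refl _ _ _ _ _ _ trivial), ?_⟩
    have : u = v := by rw [← h3, h2]
    subst this
    exact (hopReach_iff _ _ _ _ _ _).2 (HP.refl _ _ _ _ _ _ trivial)
  · have hmin : ∃ j, j < s ∧ ∀ i, i < s → ¬ σ.lt (x i) (x j) := by
      letI := σ
      obtain ⟨i0, hi0, hm⟩ := Finset.exists_min_image (Finset.range s) x
        ⟨0, Finset.mem_range.2 h0⟩
      exact ⟨i0, Finset.mem_range.1 hi0, fun i hi => not_lt.2 (hm i (Finset.mem_range.2 hi))⟩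
    obtain ⟨j, hj, hm⟩ := hmin
    refine ⟨x j, (hopReach_iff _ _ _ _ _ _).2 ?_, (hopReach_iff _ _ _ _ _ _).2 ?_⟩
    · refine ⟨j, x, by omega, h2, rfl, fun i hi => h4 i (by omega),
        fun a b ha hb => h5 a b (by omega) (by omega), ?_, fun _ _ => trivial, ?_⟩
      · intro i hi
        rcases lt_tri σ (x i) (x j) with h | h | h
        · exact absurd h (hm i (by omega))
        · have := h5 i j (by omega) (by omega) h
          omega
        · exact h
      · have hmem : s ∈ (Finset.Icc 1 s).filter (fun j => ∀ i, i < j → σ.lt (x j) (x i)) := by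
          simp only [Finset.mem_filter, Finset.mem_Icc]
          refine ⟨⟨h0, le_refl _⟩, fun i hi => ?_⟩
          rw [h3]; exact h6 i hi
        have hsub : (Finset.Icc 1 j).filter (fun j => ∀ i, i < j → σ.lt (x j) (x i)) ⊆
            ((Finset.Icc 1 s).filter (fun j => ∀ i, i < j → σ.lt (x j) (x i))).erase s := by
          intro a ha
          simp only [Finset.mem_filter, Finset.mem_Icc, Finset.mem_erase] at ha ⊢
          exact ⟨by omega, ⟨by omega, by omega⟩, ha.2⟩
        have h9 := Finset.card_le_card hsub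
        rw [Finset.card_erase_of_mem hmem] at h9
        omega
    · refine ⟨s - j, fun i => x (j + i), by omega, rfl, ?_, fun i hi => h4 (j + i) (by omega), ?_,
        fun i hi => h6 (j + i) (by omega), fun _ _ => trivial, ?_⟩
      · have : j + (s - j) = s := by omega
        simp only [this]
        exact h3
      · intro a b ha hb hab
        have := h5 (j + a) (j + b) (by omega) (by omega) hab
        omega
      · have hsub : (Finset.Icc 1 (s - j)).filter
            (fun a => ∀ i, i < a → σ.lt (x (j + a)) (x (j + i))) ⊆ {s - j} := by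
          intro a ha
          simp only [Finset.mem_filter, Finset.mem_Icc] at ha
          simp only [Finset.mem_singleton]
          by_contra hne
          exact hm (j + a) (by omega) (ha.2 0 (by omega))
        exact (Finset.card_le_card hsub).trans (by simp)

lemma greach_pow [Finite V] (G : SimpleGraph V) (σ : LinearOrder V) (l m : ℕ)
    (hm : ∀ v, (GReach G σ 1 l v).ncard ≤ m) (k : ℕ) (v : V) :
    (GReach G σ k l v).ncard ≤ m ^ k := by
  induction k generalizing v with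
  | zero =>
    refine (Set.ncard_le_ncard (greach_zero G σ l v) (Set.toFinite _)).trans ?_
    simp
  | succ k ih =>
    have hfin : ∀ X : Set V, X.Finite := fun X => Set.toFinite X
    have hsub : (hfin (GReach G σ (k + 1) l v)).toFinset ⊆
        ((hfin (GReach G σ k l v)).toFinset).biUnion
          (fun w => (hfin (GReach G σ 1 l w)).toFinset) := by
      intro u hu
      simp only [Finset.mem_biUnion, Set.Finite.mem_toFinset] at hu ⊢
      exact greach_succ G σ k l v u hu
    have h1 := Finset.card_le_card hsub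
    have h2 := Finset.card_biUnion_le_card_mul ((hfin (GReach G σ k l v)).toFinset)
      (fun w => (hfin (GReach G σ 1 l w)).toFinset) m (by
        intro w _
        rw [← Set.ncard_eq_toFinset_card _ (hfin _)]
        exact hm w)
    have h3 := ih v
    rw [Set.ncard_eq_toFinset_card _ (hfin _)] at h3 ⊢
    calc _ ≤ _ := h1
      _ ≤ _ := h2
      _ ≤ m ^ k * m := Nat.mul_le_mul_right m h3
      _ = m ^ (k + 1) := (pow_succ m k).symm

lemma gcol_le_pow [Fintype V] (G : SimpleGraph V) (k K l : ℕ) (hk : k ≤ K) :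
    gcol k l G ≤ col l G ^ K := by
  obtain ⟨σ, hσ⟩ := Nat.sInf_mem (gcol_nonempty 1 l G)
  change ∀ v, (GReach G σ 1 l v).ncard ≤ col l G at hσ
  rcases isEmpty_or_nonempty V with hV | ⟨⟨v0⟩⟩
  · have : gcol k l G ≤ 0 := Nat.sInf_le ⟨σ, fun v => (hV.false v).elim⟩
    omega
  · have h1 : 1 ≤ col l G := by
      have h2 : ({v0} : Set V) ⊆ GReach G σ 1 l v0 := by
        rintro u rfl
        exact (hopReach_iff _ _ _ _ _ _).2 (HP.refl _ _ _ _ _ _ trivial)
      have h3 := (Set.ncard_le_ncard h2 (Set.toFinite _)).trans (hσ v0)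
      simpa using h3
    refine le_trans ?_ (Nat.pow_le_pow_right h1 hk)
    exact Nat.sInf_le ⟨σ, fun v => greach_pow G σ l _ hσ k v⟩

/-- bounded functions have property (P) -/
theorem propertyP_of_bounded (k : ℕ → ℕ) (K : ℕ) (hk : ∀ l, 1 ≤ l → k l ≤ K) : PropertyP k := by
  rintro C ⟨p, hp⟩
  refine ⟨p ^ K, ?_⟩
  intro V _ G hG l hl
  have h1 : (gcol (k l) l G : ℝ) ≤ (col l G : ℝ) ^ K := by
    exact_mod_cast gcol_le_pow G (k l) K l (hk l hl)
  refine h1.trans ?_
  rw [Polynomial.eval_pow]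
  exact pow_le_pow_left₀ (by positivity) (hp V G hG l hl) K

lemma poly_growth (q : Polynomial ℝ) : ∃ c : ℝ, 0 ≤ c ∧ ∀ x : ℝ, 1 ≤ x →
    q.eval x ≤ c * x ^ q.natDegree := by
  refine ⟨∑ i ∈ Finset.range (q.natDegree + 1), |q.coeff i|, by positivity, fun x hx => ?_⟩
  rw [Polynomial.eval_eq_sum_range, Finset.sum_mul]
  refine Finset.sum_le_sum fun i hi => ?_
  have h1 : x ^ i ≤ x ^ q.natDegree :=
    pow_le_pow_right₀ hx (by simpa [Nat.lt_succ_iff] using hi)
  have h2 : (0 : ℝ) ≤ x ^ i := by positivity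
  calc q.coeff i * x ^ i ≤ |q.coeff i| * x ^ i := mul_le_mul_of_nonneg_right (le_abs_self _) h2
    _ ≤ |q.coeff i| * x ^ q.natDegree := mul_le_mul_of_nonneg_left h1 (abs_nonneg _)

/-- unbounded functions do not have property (P) -/
theorem bounded_of_propertyP (k : ℕ → ℕ) (hkl : ∀ l, 1 ≤ l → k l ≤ l) (hP : PropertyP k) :
    ∃ K, ∀ l, 1 ≤ l → k l ≤ K := by
  by_contra hcon
  push Not at hcon
  let C : GraphClass := fun V _ G => ∀ l, 1 ≤ l → col l G ≤ l * l + 4 * l + 2
  have hC : PolynomialCol C := by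
    refine ⟨Polynomial.X * Polynomial.X + 4 * Polynomial.X + 2, ?_⟩
    intro V _ G hG l hl
    have h1 := hG l hl
    have h2 : (col l G : ℝ) ≤ ((l * l + 4 * l + 2 : ℕ) : ℝ) := by exact_mod_cast h1
    refine h2.trans (le_of_eq ?_)
    simp
  obtain ⟨q, hq⟩ := hP C hC
  obtain ⟨c, hc, hgrow⟩ := poly_growth q
  set d := q.natDegree with hd
  obtain ⟨L0, hL0⟩ := exists_nat_gt ((2 * (d + 1) : ℝ) ^ (d + 1) * c)
  obtain ⟨l, hl, hkl'⟩ := hcon (max (d + 1) L0)
  have h1 : d + 1 ≤ k l := (le_max_left _ _).trans hkl'.le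
  have h2 : L0 ≤ l := ((le_max_right _ _).trans hkl'.le).trans (hkl l hl)
  have h3 : d + 1 ≤ l := h1.trans (hkl l hl)
  have hR : 1 ≤ l / (d + 1) := (Nat.one_le_div_iff (by omega)).2 h3
  have hRl : (d + 1) * (l / (d + 1)) ≤ l := Nat.mul_div_le l (d + 1)
  have hlt : l < (d + 1) * (l / (d + 1)) + (d + 1) := by
    have := Nat.lt_mul_div_succ l (show 0 < d + 1 by omega)
    calc l < (d + 1) * (l / (d + 1) + 1) := this
      _ = _ := by ring
  obtain ⟨V, _, G, hG1, hG2⟩ := exists_graph (d + 1) (l / (d + 1)) (by omega) hR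
  have h4 := hG2 (k l) l h1 hRl
  have h5 := hq V G hG1 l hl
  have hl1 : (1 : ℝ) ≤ (l : ℝ) := by exact_mod_cast hl
  have h6 := hgrow (l : ℝ) hl1
  set R := l / (d + 1) with hRdef
  have h7 : ((R : ℝ)) ^ (d + 1) ≤ c * (l : ℝ) ^ d := by
    have : ((R ^ (d + 1) : ℕ) : ℝ) ≤ (gcol (k l) l G : ℝ) := by exact_mod_cast h4
    push_cast at this
    linarith
  have h8 : (l : ℝ) ≤ 2 * (d + 1) * R := by
    have h9 : l ≤ 2 * (d + 1) * R := by nlinarith
    exact_mod_cast h9
  have h10 : (l : ℝ) ^ (d + 1) ≤ (2 * (d + 1) : ℝ) ^ (d + 1) * (c * (l : ℝ) ^ d) := by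
    calc (l : ℝ) ^ (d + 1) ≤ (2 * (d + 1) * R : ℝ) ^ (d + 1) :=
          pow_le_pow_left₀ (by positivity) h8 _
      _ = (2 * (d + 1) : ℝ) ^ (d + 1) * (R : ℝ) ^ (d + 1) := by rw [mul_pow]
      _ ≤ _ := mul_le_mul_of_nonneg_left h7 (by positivity)
  have h11 : (l : ℝ) * (l : ℝ) ^ d ≤ ((2 * (d + 1) : ℝ) ^ (d + 1) * c) * (l : ℝ) ^ d := by
    calc (l : ℝ) * (l : ℝ) ^ d = (l : ℝ) ^ (d + 1) := by ring
      _ ≤ _ := h10
      _ = _ := by ring
  have h12 : (l : ℝ) ≤ (2 * (d + 1) : ℝ) ^ (d + 1) * c :=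
    le_of_mul_le_mul_right h11 (by positivity)
  have h13 : (L0 : ℝ) ≤ (l : ℝ) := by exact_mod_cast h2
  linarith

end Pool.Agent.H856R3
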