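import Mathlib

set_option autoImplicit false

/-!
Counting labelled graphs of boxicity at most `b`.
-/

namespace Pool.Agent.H856R3

/-- `G` is an intersection graph of boxes in dimension `b`. -/
def BoxRep {V : Type} (G : SimpleGraph V) (b : ℕ) : Prop :=
  ∃ l r : V → Fin b → ℝ, (∀ v i, l v i ≤ r v i) ∧
    ∀ u v : V, u ≠ v → (G.Adj u v ↔ ∀ i, max (l u i) (l v i) ≤ min (r u i) (r v i))

open Classical in
/-- Rank of a real number among right endpoints. -/
noncomputable def rk {V : Type} [Fintype V] (r : V → ℝ) (x : ℝ) : ℕ :=
  (Finset.univ.filter fun v => r v < x).card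

theorem rk_le {V : Type} [Fintype V] (r : V → ℝ) (x : ℝ) : rk r x < Fintype.card V + 1 := by
  classical
  unfold rk
  exact Nat.lt_succ_of_le (Finset.card_le_univ _)

theorem rk_iff {V : Type} [Fintype V] (r : V → ℝ) (x : ℝ) (v : V) :
    x ≤ r v ↔ rk r x ≤ rk r (r v) := by
  classical
  constructor
  · intro h
    unfold rk
    apply Finset.card_le_card
    intro w hw
    simp only [Finset.mem_filter, Finset.mem_univ, true_and] at hw ⊢
    exact lt_of_lt_of_le hw h
  · intro h
    by_contra hlt
    push Not at hlt
    have : rk r (r v) < rk r x := by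
      unfold rk
      apply Finset.card_lt_card
      constructor
      · intro w hw
        simp only [Finset.mem_filter, Finset.mem_univ, true_and] at hw ⊢
        exact lt_trans hw hlt
      · intro hsub
        have hv : v ∈ Finset.univ.filter fun w => r w < x := by simp [hlt]
        have := hsub hv
        simp at this
    omega

/-- The graph decoded from a code. -/
def dec {V : Type} {b M : ℕ} (c : V → Fin b → Fin M × Fin M) : V → V → Prop :=
  fun u v => ∀ i, (c u i).1 ≤ (c v i).2 ∧ (c v i).1 ≤ (c u i).2

theorem exists_code {V : Type} [Fintype V] (G : SimpleGraph V) (b : ℕ) (h : BoxRep G b) :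
    ∃ c : V → Fin b → Fin (Fintype.card V + 1) × Fin (Fintype.card V + 1),
      ∀ u v, u ≠ v → (G.Adj u v ↔ dec c u v) := by
  obtain ⟨l, r, h1, h2⟩ := h
  refine ⟨fun v i => (⟨rk (fun w => r w i) (l v i), rk_le _ _⟩,
    ⟨rk (fun w => r w i) (r v i), rk_le _ _⟩), ?_⟩
  intro u v huv
  rw [h2 u v huv]
  unfold dec
  apply forall_congr'
  intro i
  simp only [Fin.mk_le_mk]
  rw [← rk_iff (fun w => r w i) (l u i) v, ← rk_iff (fun w => r w i) (l v i) u]
  constructor
  · intro h
    exact ⟨(le_max_left _ _).trans (h.trans (min_le_right _ _)),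
      (le_max_right _ _).trans (h.trans (min_le_left _ _))⟩
  · rintro ⟨ha, hb⟩
    exact max_le (le_min (h1 u i) ha) (le_min hb (h1 v i))

/-- If an injective family of graphs on `V` consists of graphs with a
`b`-dimensional box representation, then it is not too large. -/
theorem count_bound {V ι : Type} [Fintype V] [Fintype ι] (b : ℕ) (G : ι → SimpleGraph V)
    (hinj : Function.Injective G) (h : ∀ i, BoxRep (G i) b) :
    Fintype.card ι ≤ ((Fintype.card V + 1) ^ 2) ^ (b * Fintype.card V) := by
  classical
  choose c hc using fun i => exists_code (G i) b (h i)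
  have hci : Function.Injective c := by
    intro i j hij
    apply hinj
    ext u v
    by_cases huv : u = v
    · subst huv
      simp
    · rw [hc i u v huv, hc j u v huv, hij]
  have := Fintype.card_le_of_injective c hci
  refine this.trans (le_of_eq ?_)
  rw [Fintype.card_fun, Fintype.card_fun, Fintype.card_prod, Fintype.card_fin, Fintype.card_fin,
    ← pow_mul]
  congr 1
  ring

end Pool.Agent.H856R3
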