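import Mathlib

set_option autoImplicit false

/-!
A three dimensional digital net from polynomials over a finite field.
-/

namespace Pool.Agent.H856R3

open Polynomial

section Poly

variable {F : Type} [Field F]

/-- Digits: Taylor coefficients. -/
noncomputable def dig {m : ℕ} (α : Fin 3 → F) (a : degreeLT F m) (j : Fin 3) (t : ℕ) : F :=
  (taylor (α j) (a : F[X])).coeff t

theorem dig_net {m : ℕ} (α : Fin 3 → F) (hα : Function.Injective α) (a a' : degreeLT F m)
    (i : Fin 3 → ℕ) (hi : m ≤ ∑ j, i j)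
    (h : ∀ j, ∀ t < i j, dig α a j t = dig α a' j t) : a = a' := by
  have hd : ∀ j, (X - C (α j)) ^ (i j) ∣ ((a : F[X]) - (a' : F[X])) := by
    intro j
    rw [X_sub_C_pow_dvd_iff, X_pow_dvd_iff]
    intro t ht
    have := h j t ht
    unfold dig at this
    rw [← taylor_apply, map_sub, coeff_sub, this, sub_self]
  have hprod : (∏ j, (X - C (α j)) ^ (i j)) ∣ ((a : F[X]) - (a' : F[X])) := by
    apply Finset.prod_dvd_of_coprime
    · intro j _ k _ hjk
      exact (pairwise_coprime_X_sub_C hα hjk).pow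
    · intro j _
      exact hd j
  have hz : ((a : F[X]) - (a' : F[X])) = 0 := by
    apply eq_zero_of_dvd_of_degree_lt hprod
    have h1 : ((a : F[X]) - (a' : F[X])).degree < m := by
      have := (a - a').2
      rw [mem_degreeLT] at this
      simpa using this
    refine lt_of_lt_of_le h1 ?_
    rw [degree_prod]
    simp only [degree_pow, degree_X_sub_C, nsmul_eq_mul, mul_one]
    rw [← Nat.cast_sum]
    exact_mod_cast hi
  apply Subtype.ext
  exact sub_eq_zero.mp hz

end Poly

section Net

/-- The lexicographic value of a point in direction `j`. -/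
noncomputable def val {F : Type} [Field F] {q m : ℕ} (ε : F ≃ Fin q) (α : Fin 3 → F)
    (j : Fin 3) (a : degreeLT F m) : ℕ :=
  (finFunctionFinEquiv (fun s : Fin m => ε (dig α a j (m - 1 - s))) : Fin (q ^ m)).val

theorem val_lt {F : Type} [Field F] {q m : ℕ} (ε : F ≃ Fin q) (α : Fin 3 → F)
    (j : Fin 3) (a : degreeLT F m) : val ε α j a < q ^ m := Fin.isLt _

theorem val_dig {F : Type} [Field F] {q m : ℕ} (ε : F ≃ Fin q) (α : Fin 3 → F)
    (j : Fin 3) (a : degreeLT F m) (s : ℕ) (hs : s < m) :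
    val ε α j a / q ^ s % q = (ε (dig α a j (m - 1 - s))).val := by
  have h := (finFunctionFinEquiv (m := q) (n := m)).symm_apply_apply
    (fun s : Fin m => ε (dig α a j (m - 1 - s)))
  have h2 := congrArg (fun g => (g ⟨s, hs⟩ : Fin q).val) h
  simpa [val, finFunctionFinEquiv] using h2

theorem dig_of_val {F : Type} [Field F] {q m : ℕ} (ε : F ≃ Fin q) (α : Fin 3 → F)
    (j : Fin 3) (a a' : degreeLT F m) (i : ℕ) (hi : i ≤ m)
    (h : val ε α j a / q ^ (m - i) = val ε α j a' / q ^ (m - i)) (t : ℕ) (ht : t < i) :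
    dig α a j t = dig α a' j t := by
  have hs : m - 1 - t < m := by omega
  have h1 := val_dig ε α j a (m - 1 - t) hs
  have h2 := val_dig ε α j a' (m - 1 - t) hs
  have e1 : m - 1 - (m - 1 - t) = t := by omega
  rw [e1] at h1 h2
  have hpow : q ^ (m - 1 - t) = q ^ (m - i) * q ^ (i - 1 - t) := by
    rw [← pow_add]; congr 1; omega
  rw [hpow, ← Nat.div_div_eq_div_mul, h, Nat.div_div_eq_div_mul, ← hpow, h2] at h1
  exact (ε.injective (Fin.ext h1)).symm

/-- The net property in terms of the values. -/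
theorem val_net {F : Type} [Field F] {q m : ℕ} (ε : F ≃ Fin q) (α : Fin 3 → F)
    (hα : Function.Injective α) (a a' : degreeLT F m) (i : Fin 3 → ℕ) (hi : ∀ j, i j ≤ m)
    (hs : m ≤ ∑ j, i j)
    (h : ∀ j, val ε α j a / q ^ (m - i j) = val ε α j a' / q ^ (m - i j)) : a = a' :=
  dig_net α hα a a' i hs (fun j t ht => dig_of_val ε α j a a' (i j) (hi j) (h j) t ht)

theorem card_degreeLT (F : Type) [Field F] [Fintype F] (m : ℕ) [Fintype (degreeLT F m)] :
    Fintype.card (degreeLT F m) = Fintype.card F ^ m := by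
  have := Fintype.card_congr (degreeLTEquiv F m).toEquiv
  rw [this, Fintype.card_fun, Fintype.card_fin]

/-- Abstract form of the net. -/
theorem exists_net (p : ℕ) (hp : p.Prime) (hp3 : 3 ≤ p) (m : ℕ) :
    ∃ (A : Type) (_ : Fintype A) (X : Fin 3 → A → ℕ), Fintype.card A = p ^ m ∧
      (∀ j a, X j a < p ^ m) ∧
      ∀ (a a' : A) (i : Fin 3 → ℕ), (∀ j, i j ≤ m) → m ≤ ∑ j, i j →
        (∀ j, X j a / p ^ (m - i j) = X j a' / p ^ (m - i j)) → a = a' := by
  classical
  haveI : Fact p.Prime := ⟨hp⟩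
  let ε : ZMod p ≃ Fin p := Fintype.equivFinOfCardEq (ZMod.card p)
  let α : Fin 3 → ZMod p := fun j => (j.val : ZMod p)
  have hα : Function.Injective α := by
    intro j k hjk
    have h1 := (ZMod.natCast_eq_natCast_iff' j.val k.val p).mp hjk
    rw [Nat.mod_eq_of_lt (by omega), Nat.mod_eq_of_lt (by omega)] at h1
    exact Fin.ext h1
  haveI : Fintype (degreeLT (ZMod p) m) :=
    Fintype.ofEquiv _ (degreeLTEquiv (ZMod p) m).toEquiv.symm
  refine ⟨degreeLT (ZMod p) m, inferInstance, fun j a => val ε α j a, ?_, ?_, ?_⟩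
  · rw [card_degreeLT, ZMod.card]
  · intro j a
    exact val_lt ε α j a
  · intro a a' i hi hs h
    exact val_net ε α hα a a' i hi hs h

end Net

end Pool.Agent.H856R3
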