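import Mathlib

set_option autoImplicit false

/-!
Point/box incidence graphs in which no two points lie in two common boxes:
every subgraph of such an incidence graph has a line graph of boxicity at most
`2 * d`, where `d` is the dimension of the boxes.
-/

namespace Pool.Agent.H856R3

/-- The bipartite graph on `A ⊕ B` given by a relation `T`. -/
def incG {A B : Type} (T : A → B → Prop) : SimpleGraph (A ⊕ B) where
  Adj x y := (∃ a b, T a b ∧ x = Sum.inl a ∧ y = Sum.inr b) ∨
    (∃ a b, T a b ∧ y = Sum.inl a ∧ x = Sum.inr b)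
  symm := ⟨by
    intro x y h
    rcases h with h | h
    · exact Or.inr h
    · exact Or.inl h⟩
  loopless := ⟨by
    intro x h
    rcases h with ⟨a, b, _, h1, h2⟩ | ⟨a, b, _, h1, h2⟩
    · rw [h1] at h2; cases h2
    · rw [h1] at h2; cases h2⟩

theorem incG_adj {A B : Type} (T : A → B → Prop) (a : A) (b : B) :
    (incG T).Adj (Sum.inl a) (Sum.inr b) ↔ T a b := by
  constructor
  · rintro (⟨a', b', h, h1, h2⟩ | ⟨a', b', h, h1, h2⟩)
    · cases h1; cases h2; exact h
    · cases h1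
  · intro h
    exact Or.inl ⟨a, b, h, rfl, rfl⟩

theorem incG_edge {A B : Type} (T : A → B → Prop) (e : (incG T).edgeSet) :
    ∃ ab : A × B, T ab.1 ab.2 ∧ (e : Sym2 (A ⊕ B)) = s(Sum.inl ab.1, Sum.inr ab.2) := by
  obtain ⟨e, he⟩ := e
  induction e using Sym2.ind with
  | _ x y =>
    rw [SimpleGraph.mem_edgeSet] at he
    rcases he with ⟨a, b, h, h1, h2⟩ | ⟨a, b, h, h1, h2⟩
    · exact ⟨(a, b), h, by simp [h1, h2]⟩
    · exact ⟨(a, b), h, by simp [h1, h2, Sym2.eq_swap]⟩

/-- Line graphs of such bipartite graphs: adjacency of edges in terms of the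
pairs. -/
theorem incG_line {A B : Type} (T : A → B → Prop) (e₁ e₂ : (incG T).edgeSet)
    (p₁ p₂ : A × B) (h₁ : (e₁ : Sym2 (A ⊕ B)) = s(Sum.inl p₁.1, Sum.inr p₁.2))
    (h₂ : (e₂ : Sym2 (A ⊕ B)) = s(Sum.inl p₂.1, Sum.inr p₂.2)) (hne : e₁ ≠ e₂) :
    (incG T).lineGraph.Adj e₁ e₂ ↔ (p₁.1 = p₂.1 ∨ p₁.2 = p₂.2) := by
  rw [SimpleGraph.lineGraph_adj_iff_exists]
  rw [h₁, h₂]
  constructor
  · rintro ⟨_, v, hv1, hv2⟩
    rw [Sym2.mem_iff] at hv1 hv2
    rcases hv1 with hv1 | hv1 <;> rcases hv2 with hv2 | hv2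
    · left
      rw [hv1] at hv2
      exact Sum.inl.inj hv2
    · rw [hv1] at hv2; cases hv2
    · rw [hv1] at hv2; cases hv2
    · right
      rw [hv1] at hv2
      exact Sum.inr.inj hv2
  · intro h
    refine ⟨hne, ?_⟩
    rcases h with h | h
    · exact ⟨Sum.inl p₁.1, by simp, by simp [h]⟩
    · exact ⟨Sum.inr p₁.2, by simp, by simp [h]⟩

/-- The representation, indexed by `Fin 3 × Bool`. -/
theorem rep_aux {A B : Type} (X : Fin 3 → A → ℝ) (lo hi : Fin 3 → B → ℝ)
    (hK : ∀ a a' b b', (∀ j, lo j b ≤ X j a ∧ X j a ≤ hi j b) →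
      (∀ j, lo j b' ≤ X j a ∧ X j a ≤ hi j b') →
      (∀ j, lo j b ≤ X j a' ∧ X j a' ≤ hi j b) →
      (∀ j, lo j b' ≤ X j a' ∧ X j a' ≤ hi j b') → a = a' ∨ b = b')
    (T : A → B → Prop) (hT : ∀ a b, T a b → ∀ j, lo j b ≤ X j a ∧ X j a ≤ hi j b) :
    ∃ l r : (incG T).edgeSet → (Fin 3 × Bool) → ℝ, (∀ e i, l e i ≤ r e i) ∧
      ∀ e₁ e₂ : (incG T).edgeSet, e₁ ≠ e₂ →
        ((incG T).lineGraph.Adj e₁ e₂ ↔
          ∀ i, max (l e₁ i) (l e₂ i) ≤ min (r e₁ i) (r e₂ i)) := by
  classical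
  choose p hp using fun e => incG_edge T e
  refine ⟨fun e i => if i.2 then X i.1 (p e).1 else - X i.1 (p e).1,
    fun e i => if i.2 then hi i.1 (p e).2 else - lo i.1 (p e).2, ?_, ?_⟩
  · rintro e ⟨j, s⟩
    have h := hT _ _ (hp e).1 j
    cases s
    · simpa using h.1
    · simpa using h.2
  · intro e₁ e₂ hne
    rw [incG_line T e₁ e₂ (p e₁) (p e₂) (hp e₁).2 (hp e₂).2 hne]
    have h1 := hT _ _ (hp e₁).1
    have h2 := hT _ _ (hp e₂).1
    constructor
    · rintro h ⟨j, s⟩
      cases s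
      · simp only [Bool.false_eq_true, if_false]
        rcases h with h | h
        · have a1 := (h1 j).1
          have a2 := (h2 j).1
          rw [h] at a1 ⊢
          refine max_le (le_min ?_ ?_) (le_min ?_ ?_) <;> linarith
        · have a1 := (h1 j).1
          have a2 := (h2 j).1
          rw [h] at a1 ⊢
          refine max_le (le_min ?_ ?_) (le_min ?_ ?_) <;> linarith
      · simp only [if_true]
        rcases h with h | h
        · have a1 := (h1 j).2
          have a2 := (h2 j).2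
          rw [h] at a1 ⊢
          refine max_le (le_min ?_ ?_) (le_min ?_ ?_) <;> linarith
        · have a1 := (h1 j).2
          have a2 := (h2 j).2
          rw [h] at a1 ⊢
          refine max_le (le_min ?_ ?_) (le_min ?_ ?_) <;> linarith
    · intro h
      apply hK (p e₁).1 (p e₂).1 (p e₁).2 (p e₂).2 h1 ?_ ?_ h2
      · intro j
        have ht := h (j, true)
        have hf := h (j, false)
        simp only [if_true] at ht
        simp only [Bool.false_eq_true, if_false] at hf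
        have t1 := (le_max_left _ _).trans (ht.trans (min_le_right _ _))
        have f1 := (le_max_left _ _).trans (hf.trans (min_le_right _ _))
        exact ⟨by linarith, t1⟩
      · intro j
        have ht := h (j, true)
        have hf := h (j, false)
        simp only [if_true] at ht
        simp only [Bool.false_eq_true, if_false] at hf
        have t1 := (le_max_right _ _).trans (ht.trans (min_le_left _ _))
        have f1 := (le_max_right _ _).trans (hf.trans (min_le_left _ _))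
        exact ⟨by linarith, t1⟩

theorem rep_six {A B : Type} (X : Fin 3 → A → ℝ) (lo hi : Fin 3 → B → ℝ)
    (hK : ∀ a a' b b', (∀ j, lo j b ≤ X j a ∧ X j a ≤ hi j b) →
      (∀ j, lo j b' ≤ X j a ∧ X j a ≤ hi j b') →
      (∀ j, lo j b ≤ X j a' ∧ X j a' ≤ hi j b) →
      (∀ j, lo j b' ≤ X j a' ∧ X j a' ≤ hi j b') → a = a' ∨ b = b')
    (T : A → B → Prop) (hT : ∀ a b, T a b → ∀ j, lo j b ≤ X j a ∧ X j a ≤ hi j b) :
    ∃ l r : (incG T).edgeSet → Fin 6 → ℝ, (∀ e i, l e i ≤ r e i) ∧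
      ∀ e₁ e₂ : (incG T).edgeSet, e₁ ≠ e₂ →
        ((incG T).lineGraph.Adj e₁ e₂ ↔
          ∀ i, max (l e₁ i) (l e₂ i) ≤ min (r e₁ i) (r e₂ i)) := by
  obtain ⟨l, r, h1, h2⟩ := rep_aux X lo hi hK T hT
  have hc : Fintype.card (Fin 3 × Bool) = 6 := by simp
  let σ : Fin 3 × Bool ≃ Fin 6 := Fintype.equivFinOfCardEq hc
  refine ⟨fun e i => l e (σ.symm i), fun e i => r e (σ.symm i), fun e i => h1 e _, ?_⟩
  intro e₁ e₂ hne
  rw [h2 e₁ e₂ hne]
  constructor
  · intro h i
    exact h _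
  · intro h i
    have := h (σ i)
    simpa using this

end Pool.Agent.H856R3
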