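import Mathlib
import Pool.Agent.H856R3.SepRep
import Pool.Agent.H856R3.SepCount
import Pool.Agent.H856R3.SepNet

set_option autoImplicit false

/-!
Boxicity is not bounded by a function of separation dimension.
-/

namespace Pool.Agent.H856R3

/-- The three exponents of a shape. -/
def ix (h : ℕ) (sh : Fin h × Fin h) : Fin 3 → ℕ :=
  ![sh.1.val, sh.2.val, 2 * h - 1 - sh.1.val - sh.2.val]

theorem ix_sum (h : ℕ) (sh : Fin h × Fin h) : ∑ j, ix h sh j = 2 * h - 1 := by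
  have h1 := sh.1.isLt
  have h2 := sh.2.isLt
  simp [ix, Fin.sum_univ_three]
  omega

theorem ix_le (h : ℕ) (sh : Fin h × Fin h) (j : Fin 3) : ix h sh j ≤ 2 * h := by
  have h1 := sh.1.isLt
  have h2 := sh.2.isLt
  fin_cases j <;> simp [ix] <;> omega

theorem ix_max (h : ℕ) (sh sh' : Fin h × Fin h) (hne : sh ≠ sh') :
    2 * h ≤ ∑ j, max (ix h sh j) (ix h sh' j) := by
  obtain ⟨⟨u, hu⟩, ⟨v, hv⟩⟩ := sh
  obtain ⟨⟨u', hu'⟩, ⟨v', hv'⟩⟩ := sh'
  have hne2 : ¬ (u = u' ∧ v = v') := by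
    rintro ⟨h1, h2⟩
    subst h1
    subst h2
    exact hne rfl
  simp only [ix, Fin.sum_univ_three, Matrix.cons_val_zero, Matrix.cons_val_one,
    Matrix.cons_val_two, Matrix.head_cons, Matrix.tail_cons, Matrix.cons_val]
  omega

theorem div_char (x D c : ℕ) (hD : 0 < D) :
    (((c : ℝ) * (D : ℝ) ≤ (x : ℝ)) ∧ ((x : ℝ) ≤ (c : ℝ) * (D : ℝ) + ((D : ℝ) - 1))) ↔
      x / D = c := by
  have h1 : (((c : ℝ) * (D : ℝ) ≤ (x : ℝ)) ↔ c * D ≤ x) := by
    rw [← Nat.cast_mul, Nat.cast_le]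
  have h2 : ((x : ℝ) ≤ (c : ℝ) * (D : ℝ) + ((D : ℝ) - 1)) ↔ x < (c + 1) * D := by
    have : (x : ℝ) ≤ (c : ℝ) * (D : ℝ) + ((D : ℝ) - 1) ↔ ((x + 1 : ℕ) : ℝ) ≤ (((c + 1) * D : ℕ) : ℝ) := by
      push_cast
      constructor <;> intro h <;> nlinarith
    rw [this, Nat.cast_le]
    exact Iff.rfl
  rw [h1, h2]
  constructor
  · rintro ⟨h3, h4⟩
    apply le_antisymm
    · exact Nat.lt_succ_iff.mp ((Nat.div_lt_iff_lt_mul hD).mpr h4)
    · exact (Nat.le_div_iff_mul_le hD).mpr h3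
  · intro h3
    constructor
    · exact (Nat.le_div_iff_mul_le hD).mp h3.ge
    · exact (Nat.div_lt_iff_lt_mul hD).mp (Nat.lt_succ_iff.mpr h3.le)

/-- Boxes. -/
abbrev Bx (p h : ℕ) : Type := Σ sh : Fin h × Fin h, ((j : Fin 3) → Fin (p ^ ix h sh j))

theorem card_Bx (p h : ℕ) : Fintype.card (Bx p h) = h ^ 2 * p ^ (2 * h - 1) := by
  rw [Fintype.card_sigma]
  have : ∀ sh : Fin h × Fin h, Fintype.card ((j : Fin 3) → Fin (p ^ ix h sh j)) =
      p ^ (2 * h - 1) := by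
    intro sh
    rw [Fintype.card_pi]
    simp only [Fintype.card_fin]
    rw [Finset.prod_pow_eq_pow_sum, ix_sum]
  rw [Finset.sum_congr rfl (fun sh _ => this sh)]
  simp [sq]

/-- Membership of points in boxes. -/
def Inb {A : Type} (p h : ℕ) (X : Fin 3 → A → ℕ) (a : A) (b : Bx p h) : Prop :=
  ∀ j, X j a / p ^ (2 * h - ix h b.1 j) = (b.2 j).val

theorem Inb_K {A : Type} (p h : ℕ) (X : Fin 3 → A → ℕ)
    (hnet : ∀ (a a' : A) (i : Fin 3 → ℕ), (∀ j, i j ≤ 2 * h) → 2 * h ≤ ∑ j, i j →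
        (∀ j, X j a / p ^ (2 * h - i j) = X j a' / p ^ (2 * h - i j)) → a = a')
    (a a' : A) (b b' : Bx p h) (h1 : Inb p h X a b) (h2 : Inb p h X a b')
    (h3 : Inb p h X a' b) (h4 : Inb p h X a' b') : a = a' ∨ b = b' := by
  by_cases hsh : b.1 = b'.1
  · right
    obtain ⟨sh, c⟩ := b
    obtain ⟨sh', c'⟩ := b'
    simp only at hsh
    subst hsh
    congr 1
    funext j
    apply Fin.ext
    have e1 := h1 j
    have e2 := h2 j
    simp only at e1 e2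
    exact e1.symm.trans e2
  · left
    apply hnet a a' (fun j => max (ix h b.1 j) (ix h b'.1 j))
    · intro j
      exact max_le (ix_le h _ j) (ix_le h _ j)
    · exact ix_max h b.1 b'.1 hsh
    · intro j
      rcases le_total (ix h b.1 j) (ix h b'.1 j) with hle | hle
      · simp only [max_eq_right hle]
        rw [h2 j, h4 j]
      · simp only [max_eq_left hle]
        rw [h1 j, h3 j]

/-- Key inequality. -/
theorem key_ineq (b h p : ℕ) (hh : 1 ≤ h) (hp : p.Prime) (hp3 : 3 ≤ p)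
    (H : ∀ (V : Type) [Fintype V] (G : SimpleGraph V),
      (∃ l r : G.edgeSet → Fin 6 → ℝ, (∀ e i, l e i ≤ r e i) ∧
        ∀ e₁ e₂ : G.edgeSet, e₁ ≠ e₂ →
          (G.lineGraph.Adj e₁ e₂ ↔ ∀ i, max (l e₁ i) (l e₂ i) ≤ min (r e₁ i) (r e₂ i))) →
      BoxRep G b) :
    2 ^ (p ^ (2 * h) * h ^ 2) ≤
      ((p ^ (2 * h) + h ^ 2 * p ^ (2 * h - 1) + 1) ^ 2) ^
        (b * (p ^ (2 * h) + h ^ 2 * p ^ (2 * h - 1))) := by
  classical
  obtain ⟨A, hA, X, hcard, hX, hnet⟩ := exists_net p hp hp3 (2 * h)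
  let lo : Fin 3 → Bx p h → ℝ := fun j b => ((b.2 j).val : ℝ) * ((p ^ (2 * h - ix h b.1 j) : ℕ) : ℝ)
  let hi : Fin 3 → Bx p h → ℝ := fun j b => ((b.2 j).val : ℝ) * ((p ^ (2 * h - ix h b.1 j) : ℕ) : ℝ)
    + (((p ^ (2 * h - ix h b.1 j) : ℕ) : ℝ) - 1)
  have hin : ∀ a (b : Bx p h), Inb p h X a b ↔ ∀ j, lo j b ≤ (X j a : ℝ) ∧ (X j a : ℝ) ≤ hi j b := by
    intro a b
    unfold Inb
    apply forall_congr'
    intro j
    exact (div_char _ _ _ (pow_pos hp.pos _)).symm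
  let G : Set (A × (Fin h × Fin h)) → SimpleGraph (A ⊕ Bx p h) := fun T =>
    incG (fun a b => (a, b.1) ∈ T ∧ Inb p h X a b)
  have hrep : ∀ T, BoxRep (G T) b := by
    intro T
    apply H
    apply rep_six (fun j a => (X j a : ℝ)) lo hi
    · intro a a' b b' h1 h2 h3 h4
      exact Inb_K p h X hnet a a' b b' ((hin _ _).2 h1) ((hin _ _).2 h2) ((hin _ _).2 h3)
        ((hin _ _).2 h4)
    · intro a b hab
      exact (hin _ _).1 hab.2
  have hinj : Function.Injective G := by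
    intro T T' hTT
    ext ⟨a, sh⟩
    have hlt : ∀ j, X j a / p ^ (2 * h - ix h sh j) < p ^ (ix h sh j) := by
      intro j
      apply Nat.div_lt_of_lt_mul
      rw [← pow_add, Nat.sub_add_cancel (ix_le h sh j)]
      exact hX j a
    let bb : Bx p h := ⟨sh, fun j => ⟨X j a / p ^ (2 * h - ix h sh j), hlt j⟩⟩
    have hbb : Inb p h X a bb := fun j => rfl
    have key : ∀ T, (G T).Adj (Sum.inl a) (Sum.inr bb) ↔ (a, sh) ∈ T := by
      intro T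
      rw [incG_adj]
      exact ⟨fun hx => hx.1, fun hx => ⟨hx, hbb⟩⟩
    rw [← key T, ← key T', hTT]
  have hcount := count_bound b G hinj hrep
  rw [Fintype.card_set, Fintype.card_sum, card_Bx, Fintype.card_prod, Fintype.card_prod,
    Fintype.card_fin, hcard, ← sq] at hcount
  exact hcount

theorem pow_bound (b s p : ℕ) (hp1 : (2 ^ s) ^ 2 < p) (hp2 : p ≤ 2 * (2 ^ s) ^ 2)
    (hk : 2 ^ (p ^ (2 * 2 ^ s) * (2 ^ s) ^ 2) ≤
      ((p ^ (2 * 2 ^ s) + (2 ^ s) ^ 2 * p ^ (2 * 2 ^ s - 1) + 1) ^ 2) ^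
        (b * (p ^ (2 * 2 ^ s) + (2 ^ s) ^ 2 * p ^ (2 * 2 ^ s - 1)))) :
    2 ^ s ≤ 16 * b * (s + 1) := by
  set h := 2 ^ s with hh
  have hhpos : 0 < h := by positivity
  have hppos : 0 < p := by omega
  set Q := p ^ (2 * h) with hQ
  have hQpos : 0 < Q := by positivity
  have hN : Q + h ^ 2 * p ^ (2 * h - 1) ≤ 2 * Q := by
    have : h ^ 2 * p ^ (2 * h - 1) ≤ p * p ^ (2 * h - 1) := Nat.mul_le_mul_right _ hp1.le
    have e : p * p ^ (2 * h - 1) = Q := by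
      rw [hQ, ← pow_succ']
      congr 1
      omega
    omega
  have hp3 : p ≤ 2 ^ (2 * s + 1) := by
    refine hp2.trans (le_of_eq ?_)
    rw [hh, ← pow_mul, pow_succ]
    ring
  have hQ2 : Q ≤ 2 ^ ((2 * s + 1) * (2 * h)) := by
    rw [hQ, pow_mul 2]
    exact Nat.pow_le_pow_left hp3 _
  have hN1 : Q + h ^ 2 * p ^ (2 * h - 1) + 1 ≤ 2 ^ (2 + (2 * s + 1) * (2 * h)) := by
    rw [pow_add]
    have : Q + h ^ 2 * p ^ (2 * h - 1) + 1 ≤ 4 * Q := by omega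
    calc Q + h ^ 2 * p ^ (2 * h - 1) + 1 ≤ 4 * Q := this
      _ ≤ 2 ^ 2 * 2 ^ ((2 * s + 1) * (2 * h)) := Nat.mul_le_mul (by norm_num) hQ2
  have h1 : 2 ^ (Q * h ^ 2) ≤ 2 ^ (((2 + (2 * s + 1) * (2 * h)) * 2) * (b * (2 * Q))) := by
    refine hk.trans ?_
    rw [pow_mul 2, pow_mul 2]
    calc ((Q + h ^ 2 * p ^ (2 * h - 1) + 1) ^ 2) ^ (b * (Q + h ^ 2 * p ^ (2 * h - 1)))
        ≤ ((2 ^ (2 + (2 * s + 1) * (2 * h))) ^ 2) ^ (b * (Q + h ^ 2 * p ^ (2 * h - 1))) :=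
          Nat.pow_le_pow_left (Nat.pow_le_pow_left hN1 _) _
      _ ≤ ((2 ^ (2 + (2 * s + 1) * (2 * h))) ^ 2) ^ (b * (2 * Q)) := by
          apply Nat.pow_le_pow_right
          · positivity
          · exact Nat.mul_le_mul_left _ hN
  have h2 : Q * h ^ 2 ≤ ((2 + (2 * s + 1) * (2 * h)) * 2) * (b * (2 * Q)) :=
    (Nat.pow_le_pow_iff_right (by norm_num)).mp h1
  have h3 : h ^ 2 ≤ ((2 + (2 * s + 1) * (2 * h)) * 2) * (b * 2) := by
    have : Q * h ^ 2 ≤ Q * (((2 + (2 * s + 1) * (2 * h)) * 2) * (b * 2)) := by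
      refine h2.trans (le_of_eq ?_)
      ring
    exact Nat.le_of_mul_le_mul_left this hQpos
  have h4 : h * h ≤ h * (16 * b * (s + 1)) := by
    have e1 : 2 + (2 * s + 1) * (2 * h) ≤ 2 * h * (2 * s + 2) := by nlinarith
    calc h * h = h ^ 2 := (sq h).symm
      _ ≤ ((2 + (2 * s + 1) * (2 * h)) * 2) * (b * 2) := h3
      _ ≤ ((2 * h * (2 * s + 2)) * 2) * (b * 2) := by gcongr
      _ = h * (16 * b * (s + 1)) := by ring
  exact Nat.le_of_mul_le_mul_left h4 hhpos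

theorem no_bound (b : ℕ)
    (H : ∀ (V : Type) [Fintype V] (G : SimpleGraph V),
      (∃ l r : G.edgeSet → Fin 6 → ℝ, (∀ e i, l e i ≤ r e i) ∧
        ∀ e₁ e₂ : G.edgeSet, e₁ ≠ e₂ →
          (G.lineGraph.Adj e₁ e₂ ↔ ∀ i, max (l e₁ i) (l e₂ i) ≤ min (r e₁ i) (r e₂ i))) →
      BoxRep G b) : False := by
  set t := 32 * b + 1 with ht
  set s := 2 * t with hs
  obtain ⟨p, hp, hp1, hp2⟩ := Nat.exists_prime_lt_and_le_two_mul ((2 ^ s) ^ 2) (by positivity)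
  have hp3 : 3 ≤ p := by
    have : 4 ≤ (2 ^ s) ^ 2 := by
      have : 2 ≤ 2 ^ s := by
        calc 2 = 2 ^ 1 := by norm_num
          _ ≤ 2 ^ s := Nat.pow_le_pow_right (by norm_num) (by omega)
      nlinarith
    omega
  have h1 := key_ineq b (2 ^ s) p (Nat.one_le_two_pow) hp hp3 H
  have h2 := pow_bound b s p hp1 hp2 h1
  have h3 : t < 2 ^ t := Nat.lt_two_pow_self
  have h4 : 2 ^ s = 2 ^ t * 2 ^ t := by
    rw [hs, two_mul, pow_add]
  rw [h4] at h2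
  have h5 : 16 * b * (s + 1) ≤ 32 * b * 2 ^ t := by
    have : s + 1 ≤ 2 * 2 ^ t := by omega
    nlinarith
  have h6 : 32 * b * 2 ^ t < 2 ^ t * 2 ^ t := by
    apply Nat.mul_lt_mul_of_pos_right
    · omega
    · positivity
  omega

end Pool.Agent.H856R3
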